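import Pool.Agent.MP_62c071_al.V.Kit

/-! Row Ch: additive characters as combinations of Dirichlet characters. -/

set_option autoImplicit false

namespace Pool.Agent.MP_62c071_al.V

open Finset
open Pool.Agent.MP_c5bf7b_nt.H38 (Ch)

namespace RCh

theorem unit {q r : ℕ} (hr : r ∈ rs q) : IsUnit (r : ZMod q) :=
  (ZMod.isUnit_iff_coprime r q).2 (mem_filter.1 hr).2.symm

theorem ee_mod (q n : ℕ) (hq : q ≠ 0) (h : ℤ) : ee ((n % q : ℕ) * h / q) = ee (n * h / q) := by
  rw [← ee_add_int _ ((n / q : ℕ) * h)]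
  congr 1
  have h1 : (n : ℝ) = (n % q : ℕ) + q * (n / q : ℕ) := by exact_mod_cast (Nat.mod_add_div n q).symm
  have h2 : (q : ℝ) ≠ 0 := by exact_mod_cast hq
  rw [Int.cast_mul, Int.cast_natCast]
  conv_rhs => rw [h1]
  field_simp

end RCh

theorem chOf : ChOf := by
  intro hR q _ h hh
  have hq : q ≠ 0 := NeZero.ne q
  have hφ : 0 < q.totient := Nat.totient_pos.2 (Nat.pos_of_ne_zero hq)
  have hφ' : (q.totient : ℂ) ≠ 0 := by exact_mod_cast hφ.ne'
  refine ⟨fun χ => (∑ r ∈ rs q, ee (r * h / q) * χ (r : ZMod q)⁻¹) / q.totient, ?_, ?_,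
    fun n hn => ?_⟩
  · have h1 : ∀ χ : Ch q,
        ‖(∑ r ∈ rs q, ee (r * h / q) * χ (r : ZMod q)⁻¹) / (q.totient : ℂ)‖ ≤ 1 := fun χ => by
      rw [norm_div, Complex.norm_natCast, div_le_one (by exact_mod_cast hφ), ← card_rs]
      refine (norm_sum_le _ _).trans ?_
      have := sum_le_card_nsmul (rs q) (fun r : ℕ => ‖ee (r * h / q) * χ (r : ZMod q)⁻¹‖) 1
        fun r _ => by rw [norm_mul, norm_ee, one_mul]; exact χ.norm_le_one _
      simpa using this
    refine (sum_le_card_nsmul _ _ 1 fun χ _ => h1 χ).trans ?_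
    rw [card_univ, ← Nat.card_eq_fintype_card,
      DirichletCharacter.card_eq_totient_of_hasEnoughRootsOfUnity ℂ q, nsmul_eq_mul, mul_one]
    exact_mod_cast Nat.totient_le q
  · rw [mf, ← hR q h (Nat.pos_of_ne_zero hq) hh]
    refine congrArg (· / (q.totient : ℂ)) (sum_congr rfl fun r hr => ?_)
    obtain ⟨u, hu⟩ := RCh.unit hr
    rw [← hu, ZMod.inv_coe_unit, MulChar.one_apply_coe, mul_one]
  · have hm : n % q ∈ rs q := mem_filter.2 ⟨mem_range.2 (Nat.mod_lt _ (Nat.pos_of_ne_zero hq)),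
      ((ZMod.isUnit_iff_coprime _ q).1 (by
        rw [ZMod.natCast_mod]; exact (ZMod.isUnit_iff_coprime n q).2 hn)).symm⟩
    simp only [div_mul_eq_mul_div, ← sum_div, sum_mul]
    rw [sum_comm, eq_div_iff hφ', sum_eq_single_of_mem _ hm]
    · simp only [mul_assoc, ← mul_sum]
      rw [DirichletCharacter.sum_char_inv_mul_char_eq ℂ (RCh.unit hm), if_pos (ZMod.natCast_mod n q),
        RCh.ee_mod q n hq]
    · intro r hr hne
      simp only [mul_assoc, ← mul_sum]
      rw [DirichletCharacter.sum_char_inv_mul_char_eq ℂ (RCh.unit hr), if_neg, mul_zero]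
      intro he
      refine hne ?_
      rw [← (ZMod.natCast_eq_natCast_iff' r n q).1 he,
        Nat.mod_eq_of_lt (mem_range.1 (mem_filter.1 hr).1)]

end Pool.Agent.MP_62c071_al.V
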