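import Pool.Agent.MP_62c071_al.V.Kit

/-! The function of von Mangoldt is close to its model at every frequency. -/

set_option autoImplicit false

namespace Pool.Agent.MP_62c071_al.V

open Finset ArithmeticFunction Filter

namespace RClose

theorem mf_small (hT : TotS) {L : ℝ} (hL : 1 ≤ L) {q : ℕ} (hq : L ^ 8 ≤ q) :
    ‖mf q‖ ≤ 2 / L ^ 4 := by
  have h1 : (q : ℝ) ≤ 2 * (q.totient : ℝ) ^ 2 := by exact_mod_cast hT q
  have h0 : (0 : ℝ) ≤ q.totient := Nat.cast_nonneg _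
  have h4 : 0 < L ^ 4 := by positivity
  have h2 : L ^ 4 ≤ 2 * (q.totient : ℝ) := by
    refine (pow_le_pow_iff_left₀ h4.le (by positivity) two_ne_zero).1 ?_
    nlinarith [sq_nonneg (q.totient : ℝ)]
  have h3 : (0 : ℝ) < q.totient := by linarith
  refine (norm_mf_le q).trans ?_
  rw [div_le_div_iff₀ h3 h4]
  linarith

theorem norm_G (β : ℝ) (Z : ℕ) : ‖∑ n ∈ Ioc Z (2 * Z), ee (β * n)‖ ≤ Z := by
  refine (norm_sum_le _ _).trans ?_
  simp only [norm_ee, sum_const, Nat.card_Ioc, nsmul_eq_mul, mul_one]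
  rw [show 2 * Z - Z = Z by omega]

end RClose

open RClose in
theorem closeOf : CloseOf := by
  intro hMaj hMnr hMo hT K
  filter_upwards [hMaj K, hMnr K, ev_win 2 48 K, ev_log 4] with M hMaj hMnr hW hL Z α hZ hZM
  have hW := (hW Z hZ).1
  generalize Real.log M = L at *
  have hL1 : 1 ≤ L := by linarith
  have hL0 : 0 < L := by linarith
  have h8 : 1 ≤ L ^ 8 := one_le_pow₀ hL1
  have h40 : 0 < L ^ 40 := by positivity
  have hZ0 : (0 : ℝ) < Z := lt_of_lt_of_le (by positivity) hW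
  set Q := ⌊L ^ 8⌋₊ with hQ
  have hQ1 : (Q : ℝ) ≤ L ^ 8 := Nat.floor_le (by positivity)
  have hQ2 : L ^ 8 < Q + 1 := Nat.lt_floor_add_one _
  have hQ0 : 1 ≤ Q := Nat.le_floor (by exact_mod_cast h8)
  obtain ⟨R, hR⟩ : ∃ R : ℕ, R = ⌊(Z : ℝ) / L ^ 40⌋₊ := ⟨_, rfl⟩
  have hR1 : (R : ℝ) ≤ Z / L ^ 40 := hR ▸ Nat.floor_le (by positivity)
  have hR2 : (Z : ℝ) / L ^ 40 < R + 1 := hR ▸ Nat.lt_floor_add_one _
  have hQR : 2 * Q ≤ R := by
    rw [hR]
    refine Nat.le_floor ?_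
    rw [le_div_iff₀ h40]
    push_cast
    calc 2 * (Q : ℝ) * L ^ 40 ≤ 2 * L ^ 8 * L ^ 40 := by gcongr
      _ = 2 * L ^ 48 := by ring
      _ ≤ Z := hW
  have hR0 : 0 < R := by omega
  obtain ⟨r, hr1, hr2⟩ := Real.exists_rat_abs_sub_le_and_den_le α hR0
  have hq1 : 1 ≤ r.den := r.pos
  have hco : r.num.natAbs.Coprime r.den := r.reduced
  rw [Rat.cast_def] at hr1
  generalize r.num = h at *
  generalize r.den = q at *
  have hq0 : (1 : ℝ) ≤ q := by exact_mod_cast hq1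
  have hqR : (q : ℝ) ≤ R := by exact_mod_cast hr2
  have hR0' : (0 : ℝ) < R := by exact_mod_cast hR0
  have hm := hMo α h q Q R Z (2 * Z) hq1 hco (hr1.trans (by
    rw [mul_comm (q : ℝ)]
    gcongr
    linarith)) hQR
  have hE : (q : ℝ) * (Q : ℝ) ^ 2 ≤ Z / L ^ 4 := by
    calc (q : ℝ) * (Q : ℝ) ^ 2 ≤ Z / L ^ 40 * (L ^ 8) ^ 2 := by
          gcongr
          exact hqR.trans hR1
      _ = Z / L ^ 24 := by
          field_simp
      _ ≤ Z / L ^ 4 := by gcongr; norm_num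
  replace hm := hm.trans hE
  have hG := norm_G (α - h / q) Z
  have hsplit : ∑ n ∈ Ioc Z (2 * Z), (La n - Fm Q n) * ee (α * n) =
      ∑ n ∈ Ioc Z (2 * Z), La n * ee (α * n) - ∑ n ∈ Ioc Z (2 * Z), Fm Q n * ee (α * n) := by
    simp only [sub_mul, sum_sub_distrib]
  rw [hsplit]
  have hP : 0 < (Z : ℝ) / L ^ 4 := by positivity
  have hfin : 4 * ((Z : ℝ) / L ^ 4) ≤ Z / L ^ 3 := by
    calc 4 * ((Z : ℝ) / L ^ 4) ≤ L * ((Z : ℝ) / L ^ 4) := by gcongr
      _ = Z / L ^ 3 := by field_simp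
  refine le_trans ?_ hfin
  generalize ∑ n ∈ Ioc Z (2 * Z), Fm Q n * ee (α * n) = B at *
  generalize hGG : ∑ n ∈ Ioc Z (2 * Z), ee ((α - h / q) * n) = G at hm hG
  rcases le_or_gt (q : ℝ) (L ^ 40) with hc | hc
  · have ha := hMaj Z q α h hZ hZM hq1 hc hco (hr1.trans (by
      rw [div_le_div_iff₀ (by positivity) hZ0]
      rw [div_lt_iff₀ h40] at hR2
      nlinarith [mul_le_mul_of_nonneg_left hq0 (show 0 ≤ L ^ 40 * (R + 1) by positivity)]))
    rw [hGG] at ha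
    generalize ∑ n ∈ Ioc Z (2 * Z), La n * ee (α * n) = A at *
    split_ifs at hm with hqQ
    · calc ‖A - B‖ = ‖(A - mf q * G) - (B - mf q * G)‖ := by congr 1; ring
        _ ≤ ‖A - mf q * G‖ + ‖B - mf q * G‖ := norm_sub_le _ _
        _ ≤ _ := by linarith
    · have hq8 : L ^ 8 ≤ q := by
        have h1 : ((Q + 1 : ℕ) : ℝ) ≤ q := by exact_mod_cast (show Q + 1 ≤ q by omega)
        push_cast at h1
        linarith
      have hf := mf_small hT hL1 hq8
      have h2 : ‖mf q * G‖ ≤ 2 * (Z / L ^ 4) := by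
        rw [norm_mul]
        calc _ ≤ 2 / L ^ 4 * Z := by gcongr
          _ = _ := by ring
      rw [zero_mul, sub_zero] at hm
      calc ‖A - B‖ = ‖(A - mf q * G) + mf q * G - B‖ := by congr 1; ring
        _ ≤ ‖(A - mf q * G) + mf q * G‖ + ‖B‖ := norm_sub_le _ _
        _ ≤ ‖A - mf q * G‖ + ‖mf q * G‖ + ‖B‖ := by gcongr; exact norm_add_le _ _
        _ ≤ _ := by linarith
  · have hap : Ap α h q := ⟨hq1, hco, hr1.trans (by
      rw [sq]
      gcongr
      linarith)⟩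
    have ha := hMnr Z q α h hZ hZM hap hc.le (hqR.trans hR1)
    have h840 : L ^ 8 ≤ L ^ 40 := pow_le_pow_right₀ hL1 (by norm_num)
    have hqQ : ¬ q ≤ Q := fun h1 => by
      have h2 : (q : ℝ) ≤ Q := by exact_mod_cast h1
      linarith
    rw [if_neg hqQ, zero_mul, sub_zero] at hm
    refine (norm_sub_le _ _).trans ?_
    linarith

end Pool.Agent.MP_62c071_al.V
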