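import Pool.Agent.MP_62c071_al.V.Kit

/-! A lower bound for the totient and the sum of `μ q ^ 2 / φ q ^ 2`. -/

set_option autoImplicit false

namespace Pool.Agent.MP_62c071_al.V

open Finset ArithmeticFunction

namespace REul

theorem tot_both (q : ℕ) : (Odd q → q ≤ q.totient ^ 2) ∧ q ≤ 2 * q.totient ^ 2 := by
  induction q using Nat.recOnPosPrimePosCoprime with
  | prime_pow p n hp hn =>
    obtain ⟨m, rfl⟩ : ∃ m, n = m + 1 := ⟨n - 1, by omega⟩
    obtain ⟨r, rfl⟩ : ∃ r, p = r + 2 := ⟨p - 2, by have := hp.two_le; omega⟩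
    rw [Nat.totient_prime_pow_succ hp, show r + 2 - 1 = r + 1 from rfl, mul_pow]
    have h1 : (r + 2) ^ m ≤ ((r + 2) ^ m) ^ 2 := Nat.le_self_pow (by norm_num) _
    constructor
    · intro ho
      have h2 : Odd (r + 2) := (Nat.odd_pow_iff (by omega)).1 ho
      have h3 : 1 ≤ r := by
        obtain ⟨k, hk⟩ := h2
        omega
      rw [pow_succ]
      exact Nat.mul_le_mul h1 (by nlinarith)
    · rw [pow_succ, mul_left_comm]
      exact Nat.mul_le_mul h1 (by nlinarith)
  | zero => simp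
  | one => simp
  | coprime a b _ _ hab ha hb =>
    rw [Nat.totient_mul hab, mul_pow]
    constructor
    · intro ho
      rw [Nat.odd_mul] at ho
      exact Nat.mul_le_mul (ha.1 ho.1) (hb.1 ho.2)
    · rcases Nat.even_or_odd a with h | h
      · have h2 : Odd b := by
          rw [← Nat.coprime_two_left]
          exact Nat.Coprime.coprime_dvd_left h.two_dvd hab
        rw [← mul_assoc]
        exact Nat.mul_le_mul ha.2 (hb.1 h2)
      · rw [mul_left_comm]
        exact Nat.mul_le_mul (ha.1 h) hb.2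

/-- the local factor -/
noncomputable def lf (p : ℕ) : ℝ := 1 / ((p - 1 : ℕ) : ℝ) ^ 2

theorem lf_nonneg (p : ℕ) : 0 ≤ lf p := by
  unfold lf
  positivity

theorem sq_le {q : ℕ} (hq : Squarefree q) : ‖mf q‖ ^ 2 ≤ ∏ p ∈ q.primeFactors, lf p := by
  have h1 := Nat.totient_mul_prod_primeFactors q
  rw [Nat.prod_primeFactors_of_squarefree hq, mul_comm q] at h1
  have h2 : q.totient = ∏ p ∈ q.primeFactors, (p - 1) :=
    Nat.eq_of_mul_eq_mul_right (Nat.pos_of_ne_zero hq.ne_zero) h1
  have h3 : ∏ p ∈ q.primeFactors, lf p = (1 / (q.totient : ℝ)) ^ 2 := by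
    rw [h2]
    unfold lf
    rw [prod_div_distrib, prod_const_one, prod_pow, div_pow, one_pow, Nat.cast_prod]
  rw [h3]
  exact pow_le_pow_left₀ (norm_nonneg _) (norm_mf_le q) 2

theorem tel (n : ℕ) : ∑ k ∈ range n, lf (2 * k + 3) ≤ 1 / 2 - 1 / (4 * (n : ℝ) + 2) := by
  induction n with
  | zero => simp
  | succ n ih =>
    rw [sum_range_succ]
    have h1 : lf (2 * n + 3) = 1 / (2 * (n : ℝ) + 2) ^ 2 := by
      unfold lf
      rw [show 2 * n + 3 - 1 = 2 * n + 2 from rfl]
      push_cast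
      rfl
    have h0 : (0 : ℝ) ≤ n := Nat.cast_nonneg n
    have h2 : 1 / (2 * (n : ℝ) + 2) ^ 2 ≤ 1 / (4 * (n : ℝ) + 2) - 1 / (4 * ((n : ℝ) + 1) + 2) := by
      rw [div_sub_div _ _ (by positivity) (by positivity), div_le_div_iff₀ (by positivity)
        (by positivity)]
      nlinarith
    rw [h1]
    push_cast
    linarith

theorem exp_half : Real.exp (1 / 2) ≤ 17 / 10 := by
  have h1 : Real.exp (1 / 2) ^ 2 = Real.exp 1 := by
    rw [← Real.exp_nat_mul]
    norm_num
  have h2 := Real.exp_one_lt_d9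
  refine (abs_le_of_sq_le_sq' ?_ (by norm_num)).2
  rw [h1]
  norm_num at h2 ⊢
  linarith

end REul

open REul

theorem tot : TotS := fun q => (tot_both q).2

theorem eul : EulS := by
  intro Q
  classical
  set T : Finset ℕ := insert 2 ((range Q).image fun k => 2 * k + 3) with hT
  have h1 : ∑ q ∈ Icc 1 Q, ‖mf q‖ ^ 2 = ∑ q ∈ (Icc 1 Q).filter Squarefree, ‖mf q‖ ^ 2 := by
    rw [sum_filter]
    refine sum_congr rfl fun q _ => ?_
    split_ifs with h
    · rfl
    · simp [mf, moebius_eq_zero_of_not_squarefree h]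
  have h2 : ∑ q ∈ (Icc 1 Q).filter Squarefree, ∏ p ∈ q.primeFactors, lf p ≤
      ∑ t ∈ T.powerset, ∏ p ∈ t, lf p := by
    rw [← sum_image (s := (Icc 1 Q).filter Squarefree) (g := Nat.primeFactors)
      (f := fun t => ∏ p ∈ t, lf p)]
    · refine sum_le_sum_of_subset_of_nonneg ?_ fun t _ _ => prod_nonneg fun p _ => lf_nonneg p
      intro t ht
      obtain ⟨q, hq, rfl⟩ := mem_image.1 ht
      rw [mem_filter, mem_Icc] at hq
      rw [mem_powerset]
      intro p hp
      have h3 := Nat.prime_of_mem_primeFactors hp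
      have h4 := Nat.le_of_mem_primeFactors hp
      rw [hT, mem_insert, mem_image]
      rcases h3.eq_two_or_odd' with h | ⟨k, hk⟩
      · exact Or.inl h
      · have := h3.two_le
        exact Or.inr ⟨k - 1, mem_range.2 (by omega), by omega⟩
    · intro a ha b hb hab
      rw [mem_coe, mem_filter] at ha hb
      rw [← Nat.prod_primeFactors_of_squarefree ha.2, hab, Nat.prod_primeFactors_of_squarefree hb.2]
  have h3 : ∏ p ∈ T, (1 + lf p) = 2 * ∏ k ∈ range Q, (1 + lf (2 * k + 3)) := by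
    rw [hT, prod_insert, prod_image]
    · congr 1
      norm_num [lf]
    · intro a _ b _ hab
      have : 2 * a + 3 = 2 * b + 3 := hab
      omega
    · rw [mem_image]
      rintro ⟨k, _, hk⟩
      omega
  have h4 := Real.prod_one_add_le_exp_sum (range Q) (f := fun k => lf (2 * k + 3))
    fun k => lf_nonneg _
  have h5 : Real.exp (∑ k ∈ range Q, lf (2 * k + 3)) ≤ Real.exp (1 / 2) := by
    refine Real.exp_le_exp.2 ((tel Q).trans ?_)
    have : (0 : ℝ) ≤ 1 / (4 * (Q : ℝ) + 2) := by positivity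
    linarith
  have h6 := exp_half
  rw [← prod_one_add, h3] at h2
  have h7 : ∑ q ∈ (Icc 1 Q).filter Squarefree, ‖mf q‖ ^ 2 ≤
      ∑ q ∈ (Icc 1 Q).filter Squarefree, ∏ p ∈ q.primeFactors, lf p :=
    sum_le_sum fun q hq => sq_le (mem_filter.1 hq).2
  rw [h1]
  linarith

end Pool.Agent.MP_62c071_al.V
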