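import Pool.Agent.MP_62c071_al.V.Kit

/-! The main term. -/

set_option autoImplicit false

namespace Pool.Agent.MP_62c071_al.V

open Finset ArithmeticFunction Filter

namespace RMain

theorem one {M Y Z q r : ℕ} {E : ℝ} {m : ℂ} (hm : ‖m‖ ≤ 1) (hZY : Z ≤ Y) (hY : 4 * Y < M)
    (hL : 1 ≤ Real.log M)
    (h : ∀ a b : ℕ, b ≤ M → ‖∑ n ∈ Ioc a b, (La n * ee (n * r / q) - m)‖ ≤ E) :
    ‖∑ a ∈ Ioc Z (2 * Z), ∑ b ∈ Ioc Y (2 * Y), ee (-(a * r / q)) * La b * La (M - a - b) -
      m ^ 2 * ee (-(M * r / q)) * (Y * Z)‖ ≤ 2 * Y * Real.log M * E := by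
  have hE : 0 ≤ E := (norm_nonneg _).trans (h 0 0 (Nat.zero_le _))
  set d : ℕ → ℂ := fun b =>
    ∑ n ∈ Ioc (M - b - 2 * Z - 1) (M - b - Z - 1), (La n * ee (n * r / q) - m) with hd
  have h1 : ∀ b ∈ Ioc Y (2 * Y), ∑ a ∈ Ioc Z (2 * Z), ee (-(a * r / q)) * La b * La (M - a - b) =
      ee (-(M * r / q)) * (La b * ee (b * r / q) * (d b + m * Z)) := by
    intro b hb
    rw [mem_Ioc] at hb
    have h2 : d b + m * Z =
        ∑ n ∈ Ioc (M - b - 2 * Z - 1) (M - b - Z - 1), La n * ee (n * r / q) := by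
      simp only [hd]
      rw [sum_sub_distrib, sum_const, Nat.card_Ioc,
        show M - b - Z - 1 - (M - b - 2 * Z - 1) = Z by omega, nsmul_eq_mul]
      ring
    rw [h2, mul_sum, mul_sum]
    refine sum_nbij' (fun a => M - a - b) (fun c => M - c - b) ?_ ?_ ?_ ?_ ?_
    · intro a ha
      simp only [mem_Ioc] at ha ⊢
      omega
    · intro a ha
      simp only [mem_Ioc] at ha ⊢
      omega
    · intro a ha
      simp only [mem_Ioc] at ha ⊢
      omega
    · intro a ha
      simp only [mem_Ioc] at ha ⊢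
      omega
    · intro a ha
      rw [mem_Ioc] at ha
      have h3 : ((M - a - b : ℕ) : ℝ) = M - a - b := by
        rw [Nat.cast_sub (by omega), Nat.cast_sub (by omega)]
      have h4 : ee (-(a * r / q)) = ee (-(M * r / q)) * ee (b * r / q) *
          ee ((M - a - b : ℕ) * r / q) := by
        rw [← ee_add, ← ee_add, h3]
        congr 1
        ring
      rw [h4]
      ring
  rw [sum_comm, sum_congr rfl h1, ← mul_sum]
  have h5 : ∑ b ∈ Ioc Y (2 * Y), La b * ee (b * r / q) * (d b + m * Z) - m ^ 2 * (Y * Z) =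
      ∑ b ∈ Ioc Y (2 * Y), La b * ee (b * r / q) * d b +
        m * Z * ∑ b ∈ Ioc Y (2 * Y), (La b * ee (b * r / q) - m) := by
    simp only [mul_add, sum_add_distrib, sum_sub_distrib, sum_const, Nat.card_Ioc,
      show 2 * Y - Y = Y by omega, nsmul_eq_mul, ← sum_mul]
    ring
  rw [mul_comm (m ^ 2), mul_assoc (ee _), ← mul_sub, norm_mul, norm_ee, one_mul, h5]
  have h6 : ‖∑ b ∈ Ioc Y (2 * Y), La b * ee (b * r / q) * d b‖ ≤ Y * (Real.log M * E) := by
    refine (norm_sum_le _ _).trans ((sum_le_card_nsmul _ _ (Real.log M * E) fun b hb => ?_).trans ?_)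
    · rw [mem_Ioc] at hb
      rw [norm_mul, norm_mul, norm_ee, mul_one, norm_La]
      exact mul_le_mul (lam_le (by omega)) (h _ _ (by omega)) (norm_nonneg _) (by linarith)
    · rw [Nat.card_Ioc, show 2 * Y - Y = Y by omega, nsmul_eq_mul]
  have h7 : ‖m * Z * ∑ b ∈ Ioc Y (2 * Y), (La b * ee (b * r / q) - m)‖ ≤ 1 * Y * E := by
    rw [norm_mul, norm_mul, Complex.norm_natCast]
    exact mul_le_mul (mul_le_mul hm (by exact_mod_cast hZY) (by positivity) zero_le_one)
      (h _ _ (by omega)) (norm_nonneg _) (by positivity)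
  have h8 : (Y : ℝ) * E * 1 ≤ Y * E * Real.log M := by gcongr
  linarith [norm_add_le (∑ b ∈ Ioc Y (2 * Y), La b * ee (b * r / q) * d b)
    (m * Z * ∑ b ∈ Ioc Y (2 * Y), (La b * ee (b * r / q) - m))]

end RMain

open RMain in
theorem mainOf : MainOf := by
  intro hS hG K
  filter_upwards [hS (K + 10) 8, ev_log 20] with M h1 hL hodd Y Z Q hZ hZY hY hQ2 hQ
  set L := Real.log M with hL'
  set E : ℝ := M / L ^ (K + 10) with hE
  have hE0 : 0 ≤ E := by positivity
  have h2 : ‖∑ a ∈ Ioc Z (2 * Z), ∑ b ∈ Ioc Y (2 * Y), Fm Q a * La b * La (M - a - b) -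
      (∑ q ∈ Icc 1 Q, mf q ^ 3 * ∑ r ∈ rs q, ee (-(M * r / q))) * ((Y * Z : ℝ) : ℂ)‖ ≤
      Q * (2 * Y * L * E) := by
    have h3 : ∑ a ∈ Ioc Z (2 * Z), ∑ b ∈ Ioc Y (2 * Y), Fm Q a * La b * La (M - a - b) =
        ∑ q ∈ Icc 1 Q, mf q * ∑ r ∈ rs q, ∑ a ∈ Ioc Z (2 * Z), ∑ b ∈ Ioc Y (2 * Y),
          ee (-(a * r / q)) * La b * La (M - a - b) := by
      simp only [Fm, sum_mul, mul_sum]
      simp only [sum_comm (t := Icc 1 Q)]
      refine sum_congr rfl fun q _ => ?_
      simp only [sum_comm (t := rs q)]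
      refine sum_congr rfl fun r _ => sum_congr rfl fun a _ => sum_congr rfl fun b _ => ?_
      ring
    rw [h3, sum_mul, ← sum_sub_distrib]
    refine (norm_sum_le _ _).trans ((sum_le_card_nsmul _ _ (2 * Y * L * E) fun q hq => ?_).trans ?_)
    · rw [mem_Icc] at hq
      have hφ : (1 : ℝ) ≤ q.totient := by exact_mod_cast Nat.totient_pos.2 hq.1
      have h4 : mf q ^ 3 * (∑ r ∈ rs q, ee (-(M * r / q))) * ((Y * Z : ℝ) : ℂ) =
          mf q * ∑ r ∈ rs q, mf q ^ 2 * ee (-(M * r / q)) * (Y * Z) := by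
        rw [← sum_mul, ← mul_sum]
        push_cast
        ring
      rw [h4, ← mul_sub, ← sum_sub_distrib, norm_mul]
      have h5 := norm_mf_le q
      calc _ ≤ 1 / (q.totient : ℝ) * (q.totient * (2 * Y * L * E)) := by
            refine mul_le_mul h5 ((norm_sum_le _ _).trans ((sum_le_card_nsmul _ _ (2 * Y * L * E)
              fun r hr => ?_).trans (by rw [card_rs, nsmul_eq_mul]))) (norm_nonneg _) (by positivity)
            refine one (h5.trans (by rw [div_le_one (by linarith)]; exact hφ)) hZY hY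
              (by linarith) fun a b hb => ?_
            have h6 := h1 q r a b hq.1 (le_trans (by exact_mod_cast hq.2) hQ)
              (by simpa using (mem_filter.1 hr).2.symm) hb
            simpa using h6
        _ = _ := by field_simp
    · rw [Nat.card_Icc, nsmul_eq_mul, Nat.add_sub_cancel]
  have h7 : (Q : ℝ) * (2 * Y * L * E) ≤ Y * Z / 10 := by
    have h8 : E ≤ Z / L ^ 10 := by
      rw [hE, div_le_div_iff₀ (by positivity) (by positivity)]
      calc (M : ℝ) * L ^ 10 ≤ Z * L ^ K * L ^ 10 := by gcongr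
        _ = _ := by ring
    calc _ ≤ L ^ 8 * (2 * Y * L * (Z / L ^ 10)) := by gcongr
      _ = Y * Z * (2 / L) := by field_simp
      _ ≤ Y * Z * (1 / 10) := by
          gcongr ?_ * ?_
          rw [div_le_iff₀ (by linarith)]
          linarith
      _ = _ := by ring
  have h9 := (abs_le.1 ((Complex.abs_re_le_norm _).trans (h2.trans h7))).1
  rw [Complex.sub_re, Complex.re_mul_ofReal] at h9
  nlinarith [mul_le_mul_of_nonneg_right (hG M Q hodd hQ2) (by positivity : (0 : ℝ) ≤ Y * Z)]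

end Pool.Agent.MP_62c071_al.V
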