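import Pool.Agent.MP_62c071_al.V.Kit

/-! Row Maj: major arcs. -/

set_option autoImplicit false

namespace Pool.Agent.MP_62c071_al.V

open Finset ArithmeticFunction Filter

theorem majOf : MajOf := by
  intro hs K
  filter_upwards [hs (K + 45) 40, ev_log 8, eventually_gt_atTop 0] with M hM hL h0
  intro Z q α h hZ h2 hq hq' hc hα
  obtain ⟨L, hLd⟩ : ∃ L, L = Real.log M := ⟨_, rfl⟩
  rw [← hLd] at hM hL hZ hq' hα ⊢
  have L0 : 0 < L := by linarith
  have M0 : (0 : ℝ) < M := by exact_mod_cast h0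
  have Z0 : (0 : ℝ) < Z := by
    by_contra e
    have : (Z : ℝ) = 0 := le_antisymm (not_lt.1 e) (Nat.cast_nonneg Z)
    rw [this, zero_mul] at hZ
    linarith
  have e : ∑ n ∈ Ioc Z (2 * Z), La n * ee (α * n) -
      mf q * ∑ n ∈ Ioc Z (2 * Z), ee ((α - h / q) * n) =
      ∑ n ∈ Ioc Z (2 * Z), (La n * ee (n * h / q) - mf q) * ee ((α - h / q) * n) := by
    rw [mul_sum, ← sum_sub_distrib]
    refine sum_congr rfl fun n _ => ?_
    rw [sub_mul (La n * _), mul_assoc, ← ee_add]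
    congr 3
    ring
  rw [e]
  refine (abel _ (fun n => ee ((α - h / q) * n)) (E := M / L ^ (K + 45)) (by omega)
    fun c _ hc' => hM q h Z c hq hq' hc (hc'.trans h2)).trans ?_
  have b1 : ∑ n ∈ Ico Z (2 * Z), ‖ee ((α - h / q) * ((n + 1 : ℕ) : ℝ)) - ee ((α - h / q) * n)‖ ≤
      7 * L ^ 40 := by
    refine (sum_le_card_nsmul _ _ (7 * (L ^ 40 / Z)) fun n _ => ?_).trans (le_of_eq ?_)
    · rw [Nat.cast_succ, mul_add, mul_one, ee_add, ← mul_sub_one, norm_mul, norm_ee, one_mul]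
      exact (norm_ee_sub_one_le _).trans (by gcongr)
    · rw [Nat.card_Ico, show 2 * Z - Z = Z by omega, nsmul_eq_mul]
      field_simp
  have b2 : (1 : ℝ) ≤ L ^ 40 := one_le_pow₀ (by linarith)
  have b3 : 1 + 7 * L ^ 40 ≤ L ^ 41 := by
    rw [pow_succ L 40]
    nlinarith
  have b4 : (M : ℝ) / L ^ (K + 45) ≤ Z / L ^ 45 := by
    rw [pow_add, ← div_div]
    exact div_le_div_of_nonneg_right ((div_le_iff₀ (by positivity)).2 hZ) (by positivity)
  rw [norm_ee]
  calc _ ≤ Z / L ^ 45 * L ^ 41 :=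
        mul_le_mul b4 ((add_le_add le_rfl b1).trans b3) (by positivity) (by positivity)
    _ = _ := by field_simp

end Pool.Agent.MP_62c071_al.V
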