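import Pool.Agent.MP_62c071_al.V.Kit

/-! Row Min: sums of `min (K, 1 / (2 ‖α r + θ‖))`. -/

set_option autoImplicit false

namespace Pool.Agent.MP_62c071_al.V

open Finset

namespace RMin

/-- the bound at the residue `k` -/
noncomputable def gg (K : ℝ) (q k : ℕ) : ℝ :=
  (if k ∈ ({0, 1, q - 1} : Finset ℕ) then K else 0) + 2 * q * (1 / k) + 2 * q * (1 / (q - k : ℕ))

theorem gg_nonneg {K : ℝ} (hK : 0 ≤ K) (q k : ℕ) : 0 ≤ gg K q k := by
  unfold gg
  split_ifs <;> positivity

theorem mn_le_gg {K x : ℝ} (hK : 0 ≤ K) {q k : ℕ} (hk : k < q) (z : ℤ)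
    (h : |x - (z + k / q)| ≤ 3 / (2 * q)) : mn K x ≤ gg K q k := by
  have hq : (0 : ℝ) < q := by exact_mod_cast Nat.zero_lt_of_lt hk
  unfold gg
  split_ifs with hm
  · refine (mn_le hK x).trans ?_
    rw [add_assoc]
    exact le_add_of_nonneg_right (by positivity)
  simp only [mem_insert, mem_singleton, not_or] at hm
  have h1 : (2 : ℝ) ≤ k := by exact_mod_cast (show 2 ≤ k by omega)
  have h2 : (2 : ℝ) ≤ (q - k : ℕ) := by exact_mod_cast (show 2 ≤ q - k by omega)
  have h3 : ((q - k : ℕ) : ℝ) = q - k := by rw [Nat.cast_sub hk.le]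
  have key : ∀ m : ℝ, 2 ≤ m → m / q ≤ |(z + k / q : ℝ) - round x| → mn K x ≤ 2 * q * (1 / m) := by
    intro m hm h4
    have h5 : m / (4 * q) ≤ nd x := by
      have h6 := abs_sub_le (z + k / q : ℝ) x (round x)
      rw [abs_sub_comm _ x] at h6
      have h7 : m / (4 * q) + 3 / (2 * q) ≤ m / q := by
        field_simp
        linarith
      unfold nd
      linarith
    refine (mn_le_inv hK (by positivity) h5).trans_eq ?_
    field_simp
    norm_num
  rw [zero_add]
  rcases le_or_gt (round x) z with h4 | h4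
  · refine (key k h1 (le_trans ?_ (le_abs_self _))).trans (le_add_of_nonneg_right (by positivity))
    have : (round x : ℝ) ≤ z := by exact_mod_cast h4
    linarith
  · refine (key _ h2 (le_trans ?_ (neg_le_abs _))).trans (le_add_of_nonneg_left (by positivity))
    have : (z : ℝ) + 1 ≤ round x := by exact_mod_cast h4
    rw [h3, sub_div, div_self hq.ne']
    linarith

theorem sum_gg {K : ℝ} (hK : 0 ≤ K) (q : ℕ) :
    ∑ k ∈ range q, gg K q k ≤ 4 * (K + q * (1 + Real.log q)) := by
  have h0 : ∑ k ∈ range q, (1 / ((k + 1 : ℕ) : ℝ)) ≤ 1 + Real.log q := by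
    refine le_of_eq_of_le ?_ (harmonic_le_one_add_log q)
    simp [harmonic]
  have h1 : ∑ k ∈ range q, (1 / (k : ℝ)) ≤ 1 + Real.log q := by
    refine le_trans ?_ h0
    have := sum_range_succ' (fun k : ℕ => 1 / (k : ℝ)) q
    rw [sum_range_succ] at this
    have h2 : 0 ≤ 1 / (q : ℝ) := by positivity
    simp only [Nat.cast_zero, div_zero, add_zero] at this
    linarith
  have h2 : ∑ k ∈ range q, (1 / ((q - k : ℕ) : ℝ)) ≤ 1 + Real.log q := by
    refine le_of_eq_of_le ?_ h0
    rw [← sum_range_reflect]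
    refine sum_congr rfl fun k hk => ?_
    have := mem_range.1 hk
    rw [show q - (q - 1 - k) = k + 1 by omega]
  have h3 : ∑ k ∈ range q, (if k ∈ ({0, 1, q - 1} : Finset ℕ) then K else 0) ≤ 3 * K := by
    rw [← sum_filter, sum_const, nsmul_eq_mul]
    refine mul_le_mul_of_nonneg_right ?_ hK
    exact_mod_cast (card_le_card fun k hk => (mem_filter.1 hk).2).trans card_le_three
  simp only [gg, sum_add_distrib, ← mul_sum]
  have hq : (0 : ℝ) ≤ 2 * q := by positivity
  nlinarith [mul_le_mul_of_nonneg_left h1 hq, mul_le_mul_of_nonneg_left h2 hq]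

theorem block {α K : ℝ} (θ : ℝ) {h : ℤ} {q : ℕ} (hA : Ap α h q) (hK : 0 ≤ K) (a : ℕ) {n : ℕ}
    (hn : n ≤ q) : ∑ r ∈ Ioc a (a + n), mn K (α * r + θ) ≤ 4 * (K + q * (1 + Real.log q)) := by
  obtain ⟨hq, hc, ha⟩ := hA
  have hq0 : (0 : ℝ) < q := by exact_mod_cast hq
  have hq1 : (0 : ℤ) < q := by exact_mod_cast hq
  set t := round (q * (θ + (α - h / q) * a)) with ht
  set k : ℕ → ℕ := fun r => ((h * r + t) % q).toNat with hk
  have hk1 : ∀ r, (k r : ℤ) = (h * r + t) % q := fun r =>
    Int.toNat_of_nonneg (Int.emod_nonneg _ hq1.ne')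
  have hk2 : ∀ r, k r < q := fun r => by
    have := Int.emod_lt_of_pos (h * r + t) hq1
    rw [← hk1] at this
    exact_mod_cast this
  have inj : Set.InjOn k (Ioc a (a + n) : Finset ℕ) := by
    intro r hr s hs e
    have h1 : (h * r + t) % q = (h * s + t) % q := by rw [← hk1, ← hk1, e]
    have h2 : (q : ℤ) ∣ h * (s - r) := by
      have := Int.ModEq.dvd h1
      rwa [show h * s + t - (h * r + t) = h * (s - r) by ring] at this
    have h3 : (q : ℤ) ∣ s - r :=
      Int.dvd_of_dvd_mul_right_of_gcd_one h2 (by rw [Int.gcd_comm]; exact hc)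
    have hr' := mem_Ioc.1 (mem_coe.1 hr)
    have hs' := mem_Ioc.1 (mem_coe.1 hs)
    have := Int.eq_zero_of_abs_lt_dvd h3 (abs_lt.2 ⟨by omega, by omega⟩)
    omega
  refine le_trans (sum_le_sum fun r hr => mn_le_gg hK (hk2 r) ((h * r + t) / q) ?_)
    (le_trans ?_ (sum_gg hK q))
  · have hr' := mem_Ioc.1 hr
    have h1 : ((q : ℝ) * ((h * r + t) / q : ℤ) + k r) = h * r + t := by
      have := Int.mul_ediv_add_emod (h * r + t) q
      rw [← hk1] at this
      exact_mod_cast this
    have h2 : α * r + θ - (((h * r + t) / q : ℤ) + (k r : ℝ) / q) =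
        (α - h / q) * (r - a) + (q * (θ + (α - h / q) * a) - t) / q := by
      have : (((h * r + t) / q : ℤ) : ℝ) = (h * r + t - k r) / q := by
        rw [eq_div_iff hq0.ne']
        linarith
      rw [this]
      field_simp
      ring
    have h3 : |(r : ℝ) - a| ≤ q := by
      have h4 : (a : ℝ) ≤ r := by exact_mod_cast hr'.1.le
      have h5 : (r : ℝ) ≤ a + q := by exact_mod_cast (show r ≤ a + q by omega)
      exact abs_le.2 ⟨by linarith, by linarith⟩
    rw [h2]
    refine (abs_add_le _ _).trans ?_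
    rw [abs_mul, abs_div, abs_of_pos hq0]
    calc _ ≤ 1 / (q : ℝ) ^ 2 * q + 1 / 2 / q := by
          gcongr
          exact abs_sub_round _
      _ = _ := by
          field_simp
          norm_num
  · rw [← sum_image (f := gg K q) inj]
    refine sum_le_sum_of_subset_of_nonneg (fun j hj => ?_) fun j _ _ => gg_nonneg hK q j
    obtain ⟨r, -, rfl⟩ := mem_image.1 hj
    exact mem_range.2 (hk2 r)

theorem blocks {α K : ℝ} (θ : ℝ) {h : ℤ} {q : ℕ} (hA : Ap α h q) (hK : 0 ≤ K) (m : ℕ) :
    ∀ a H : ℕ, H ≤ m * q →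
      ∑ r ∈ Ioc a (a + H), mn K (α * r + θ) ≤ m * (4 * (K + q * (1 + Real.log q))) := by
  have h0 : 0 ≤ 4 * (K + q * (1 + Real.log q)) := by
    have := Real.log_natCast_nonneg q
    positivity
  induction m with
  | zero =>
    intro a H hH
    simp [show H = 0 by omega]
  | succ m ih =>
    intro a H hH
    rw [Nat.cast_succ, add_mul, one_mul]
    rcases le_total H q with h1 | h1
    · exact (block θ hA hK a h1).trans (le_add_of_nonneg_left (by positivity))
    · obtain ⟨H, rfl⟩ := Nat.exists_eq_add_of_le h1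
      rw [← add_assoc, ← sum_Ioc_consecutive _ (Nat.le_add_right a q) (Nat.le_add_right _ H),
        add_comm]
      refine add_le_add (ih _ _ ?_) (block θ hA hK a le_rfl)
      rw [Nat.succ_mul] at hH
      omega

end RMin

theorem minS : MinS := by
  refine ⟨4, by norm_num, fun α θ K h q a H hA hK => ?_⟩
  have hq : 0 < q := hA.1
  have h0 : 0 ≤ 4 * (K + q * (1 + Real.log q)) := by
    have := Real.log_natCast_nonneg q
    positivity
  refine (RMin.blocks θ hA hK (H / q + 1) a H ?_).trans ?_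
  · rw [mul_comm]
    exact (Nat.lt_mul_div_succ H hq).le
  · rw [mul_comm (4 : ℝ) ((H : ℝ) / q + 1), mul_assoc]
    refine mul_le_mul_of_nonneg_right ?_ h0
    rw [Nat.cast_succ]
    exact add_le_add_left Nat.cast_div_le 1

end Pool.Agent.MP_62c071_al.V
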