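import Pool.Agent.MP_62c071_al.V.Kit

/-! The bound on the minor arcs. -/

set_option autoImplicit false

namespace Pool.Agent.MP_62c071_al.V

open Finset ArithmeticFunction Filter

namespace RMnr

theorem le_sqrt {L x : ℝ} (h : L ^ 40 ≤ x) : L ^ 20 ≤ √x := by
  apply Real.le_sqrt_of_sq_le
  calc (L ^ 20) ^ 2 = L ^ 40 := by ring
    _ ≤ x := h

theorem total {C L Z q U l : ℝ} (hC : 1 ≤ C) (hL : 56 * C ≤ L) (hZ : 4 * L ^ 100 ≤ Z)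
    (hq : L ^ 40 ≤ q) (hq' : q ≤ Z / L ^ 40) (hU : L ^ 40 ≤ U) (hU' : U ≤ 2 * L ^ 40)
    (hl0 : 0 ≤ l) (hl : l ≤ L) :
    C * (1 + l) ^ 3 * (U ^ 2 + 2 * Z / √q + 2 * Z / √U + √(2 * Z * q)) ≤ Z / L ^ 4 := by
  have hL1 : 1 ≤ L := by linarith
  have hL0 : 0 < L := by linarith
  have hZ0 : 0 < Z := lt_of_lt_of_le (by positivity) hZ
  have hU0 : 0 ≤ U := le_trans (by positivity) hU
  have h20 : 0 < L ^ 20 := by positivity
  have h1 : U ^ 2 ≤ Z / L ^ 20 := by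
    rw [le_div_iff₀ h20]
    calc U ^ 2 * L ^ 20 ≤ (2 * L ^ 40) ^ 2 * L ^ 20 := by gcongr
      _ = 4 * L ^ 100 := by ring
      _ ≤ Z := hZ
  have h2 : 2 * Z / √q ≤ 2 * Z / L ^ 20 :=
    div_le_div_of_nonneg_left (by positivity) h20 (le_sqrt hq)
  have h3 : 2 * Z / √U ≤ 2 * Z / L ^ 20 :=
    div_le_div_of_nonneg_left (by positivity) h20 (le_sqrt hU)
  have h4 : √(2 * Z * q) ≤ 2 * Z / L ^ 20 := by
    apply Real.sqrt_le_iff.2 ⟨by positivity, ?_⟩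
    calc 2 * Z * q ≤ 2 * Z * (Z / L ^ 40) := by gcongr
      _ = 2 * (Z / L ^ 20) ^ 2 := by field_simp
      _ ≤ 4 * (Z / L ^ 20) ^ 2 := by gcongr; norm_num
      _ = (2 * Z / L ^ 20) ^ 2 := by ring
  have h5 : U ^ 2 + 2 * Z / √q + 2 * Z / √U + √(2 * Z * q) ≤ 7 * (Z / L ^ 20) := by
    have : 2 * Z / L ^ 20 = 2 * (Z / L ^ 20) := by ring
    linarith
  have h6 : (1 + l) ^ 3 ≤ (2 * L) ^ 3 := by
    gcongr
    linarith
  have h7 : 56 * C ≤ L ^ 13 := hL.trans (le_self_pow₀ hL1 (by norm_num))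
  calc _ ≤ C * (2 * L) ^ 3 * (7 * (Z / L ^ 20)) := by gcongr
    _ = 56 * C * (Z / L ^ 17) := by field_simp; ring
    _ ≤ L ^ 13 * (Z / L ^ 17) := by gcongr
    _ = Z / L ^ 4 := by field_simp

end RMnr

theorem mnrOf : MnrOf := by
  rintro ⟨C, hC, hV⟩ K
  filter_upwards [ev_log (56 * C), ev_win 4 100 K] with M hL hW Z q α h hM h2 hA hq hq'
  set L := Real.log M with hLdef
  have hL1 : 1 ≤ L := by linarith
  have hZ : 4 * L ^ 100 ≤ Z := (hW Z hM).1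
  have h40 : 1 ≤ L ^ 40 := one_le_pow₀ hL1
  have hU : L ^ 40 ≤ (⌈L ^ 40⌉₊ : ℝ) := Nat.le_ceil _
  have hU' : (⌈L ^ 40⌉₊ : ℝ) ≤ 2 * L ^ 40 := by
    have := Nat.ceil_lt_add_one (show 0 ≤ L ^ 40 by positivity)
    linarith
  have h80 : L ^ 40 ≤ L ^ 100 := pow_le_pow_right₀ hL1 (by norm_num)
  have h81 : L ^ 80 ≤ L ^ 100 := pow_le_pow_right₀ hL1 (by norm_num)
  have hZ0 : (0 : ℝ) < Z := lt_of_lt_of_le (by positivity) hZ
  have hU1 : 1 ≤ ⌈L ^ 40⌉₊ := by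
    have : (1 : ℝ) ≤ (⌈L ^ 40⌉₊ : ℝ) := h40.trans hU
    exact_mod_cast this
  have hUZ : ⌈L ^ 40⌉₊ ≤ Z := by
    have : (⌈L ^ 40⌉₊ : ℝ) ≤ Z := by linarith
    exact_mod_cast this
  have hqZ : q ≤ 2 * Z := by
    have : (q : ℝ) ≤ 2 * Z := by
      have := div_le_self hZ0.le h40
      linarith
    exact_mod_cast this
  have hU2 : ⌈L ^ 40⌉₊ ^ 2 ≤ 2 * Z := by
    have : (⌈L ^ 40⌉₊ : ℝ) ^ 2 ≤ 2 * Z := by
      calc (⌈L ^ 40⌉₊ : ℝ) ^ 2 ≤ (2 * L ^ 40) ^ 2 := by gcongr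
        _ = 4 * L ^ 80 := by ring
        _ ≤ 2 * Z := by linarith
    exact_mod_cast this
  refine (hV α h q ⌈L ^ 40⌉₊ Z (2 * Z) hA hU1 hUZ hqZ hU2).trans ?_
  have hl : Real.log ((2 * Z : ℕ) : ℝ) ≤ L :=
    Real.log_le_log (by push_cast; positivity) (by exact_mod_cast h2)
  have := RMnr.total hC hL hZ hq hq' hU hU' (Real.log_natCast_nonneg (2 * Z)) hl
  simpa only [Nat.cast_mul, Nat.cast_ofNat] using this

end Pool.Agent.MP_62c071_al.V
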