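import Pool.Agent.MP_62c071_al.V.Kit

/-! Row Mo: the exponential sum of the model. -/

set_option autoImplicit false

namespace Pool.Agent.MP_62c071_al.V

open Finset

namespace RMo

theorem ne_of {h t : ℤ} {q q' r : ℕ} (hq : 1 ≤ q) (hc : h.natAbs.Coprime q) (hr : r ∈ rs q')
    (hne : ¬ (q' = q ∧ r = (h % q).toNat)) : h * q' ≠ (r + t * q') * q := by
  intro e
  obtain ⟨h1, h2⟩ := mem_filter.1 hr
  have d1 : q ∣ q' := by
    have : (q : ℤ) ∣ h * q' := ⟨_, e.trans (mul_comm _ _)⟩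
    have := Int.natAbs_dvd_natAbs.2 this
    rw [Int.natAbs_mul, Int.natAbs_natCast, Int.natAbs_natCast] at this
    exact hc.symm.dvd_of_dvd_mul_left this
  have d2 : q' ∣ q := by
    have : (q' : ℤ) ∣ r * q := ⟨h - t * q, by linear_combination -e⟩
    exact h2.dvd_of_dvd_mul_left (by exact_mod_cast this)
  obtain rfl := Nat.dvd_antisymm d2 d1
  have h0 : (q' : ℤ) ≠ 0 := by omega
  refine hne ⟨rfl, ?_⟩
  rw [mul_right_cancel₀ h0 e, Int.add_mul_emod_self_right,
    Int.emod_eq_of_lt (by omega) (by exact_mod_cast mem_range.1 h1), Int.toNat_natCast]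

theorem mem_rs {h : ℤ} {q : ℕ} (hq : 1 ≤ q) (hc : h.natAbs.Coprime q) : (h % q).toNat ∈ rs q := by
  have h0 : (q : ℤ) ≠ 0 := by omega
  have h1 := Int.emod_nonneg h h0
  have h2 := Int.emod_lt_of_pos h (by omega : (0 : ℤ) < q)
  refine mem_filter.2 ⟨mem_range.2 (by omega), ?_⟩
  have h3 : IsCoprime h (q : ℤ) := Int.isCoprime_iff_gcd_eq_one.2 hc
  rw [← Nat.isCoprime_iff_coprime, Int.toNat_of_nonneg h1, Int.emod_def]
  have := h3.symm.add_mul_left_right (-(h / q))
  rwa [mul_neg, ← sub_eq_add_neg] at this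

theorem far {α : ℝ} {h : ℤ} {q q' r Q R : ℕ} (hq : 1 ≤ q) (hq' : 1 ≤ q') (hQ : q' ≤ Q)
    (hR : 2 * Q ≤ R) (hα : |α - h / q| ≤ 1 / (q * R))
    (hne : ∀ t : ℤ, h * q' ≠ (r + t * q') * q) : 1 / (2 * (q * Q : ℝ)) ≤ nd (α - r / q') := by
  have a1 : (0 : ℝ) < q := by exact_mod_cast hq
  have a2 : (0 : ℝ) < q' := by exact_mod_cast hq'
  have a3 : (q' : ℝ) ≤ Q := by exact_mod_cast hQ
  have a4 : (2 * Q : ℝ) ≤ R := by exact_mod_cast hR
  have a5 : (0 : ℝ) < Q := a2.trans_le a3
  unfold nd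
  generalize round (α - r / q') = t
  have h1 : (1 : ℝ) ≤ |(h * q' - (r + t * q') * q : ℝ)| := by
    exact_mod_cast Int.one_le_abs (sub_ne_zero.2 (hne t))
  have h2 : 1 / (q * Q : ℝ) ≤ |(h / q - r / q' - t : ℝ)| := by
    have e : (h / q - r / q' - t : ℝ) = (h * q' - (r + t * q') * q) / (q * q') := by
      field_simp
      ring
    rw [e, abs_div, abs_of_pos (mul_pos a1 a2)]
    gcongr
  have h3 : 1 / (q * R : ℝ) ≤ 1 / (2 * (q * Q)) :=
    one_div_le_one_div_of_le (by positivity) (by nlinarith)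
  have h4 := abs_sub (α - r / q' - t) (α - h / q)
  rw [show α - r / q' - t - (α - h / q) = h / q - r / q' - t by ring] at h4
  have h5 : 1 / (q * Q : ℝ) = 1 / (2 * (q * Q)) + 1 / (2 * (q * Q)) := by
    field_simp
    ring
  linarith

end RMo

open RMo in
theorem mo : MoS := by
  intro α h q Q R a b hq hc hα hR
  have a1 : (0 : ℝ) < q := by exact_mod_cast hq
  set g := ∑ n ∈ Ioc a b, ee ((α - h / q) * n) with hg
  have e1 : ∑ n ∈ Ioc a b, Fm Q n * ee (α * n) =
      ∑ q' ∈ Icc 1 Q, mf q' * ∑ r ∈ rs q', ∑ n ∈ Ioc a b, ee ((α - r / q') * n) := by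
    simp only [Fm, sum_mul, mul_sum]
    rw [sum_comm]
    refine sum_congr rfl fun q' _ => ?_
    rw [sum_comm]
    refine sum_congr rfl fun r _ => sum_congr rfl fun n _ => ?_
    rw [mul_assoc, ← ee_add]
    refine congrArg (fun x => mf q' * ee x) ?_
    ring
  have e2 : (if q ≤ Q then mf q else 0) * g =
      ∑ q' ∈ Icc 1 Q, mf q' * ∑ r ∈ rs q', if q' = q ∧ r = (h % q).toNat then g else 0 := by
    by_cases h1 : q ≤ Q
    · rw [sum_eq_single_of_mem q (mem_Icc.2 ⟨hq, h1⟩) fun q' _ hne => by simp [hne], if_pos h1]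
      simp only [true_and, sum_ite_eq', if_pos (mem_rs hq hc)]
    · rw [if_neg h1, zero_mul]
      refine (sum_eq_zero fun q' hq' => ?_).symm
      have : q' ≠ q := fun e => h1 (e ▸ (mem_Icc.1 hq').2)
      simp [this]
  rw [e1, e2, ← sum_sub_distrib]
  refine (norm_sum_le _ _).trans ((sum_le_card_nsmul _ _ (q * Q : ℝ) fun q' hq' => ?_).trans_eq ?_)
  · obtain ⟨b1, b2⟩ := mem_Icc.1 hq'
    have a2 : (0 : ℝ) < Q := by exact_mod_cast b1.trans b2
    have a3 : (0 : ℝ) < q'.totient := by exact_mod_cast Nat.totient_pos.2 b1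
    rw [← mul_sub, ← sum_sub_distrib, norm_mul]
    have h2 : ‖∑ r ∈ rs q', (∑ n ∈ Ioc a b, ee ((α - r / q') * n) -
        if q' = q ∧ r = (h % q).toNat then g else 0)‖ ≤ q'.totient * (q * Q : ℝ) := by
      refine (norm_sum_le _ _).trans ((sum_le_card_nsmul _ _ (q * Q : ℝ)
        fun r hr => ?_).trans_eq (by rw [card_rs, nsmul_eq_mul]))
      split_ifs with h3
      · obtain ⟨rfl, rfl⟩ := h3
        have h4 : (((h % q').toNat : ℕ) : ℝ) = h - q' * (h / q' : ℤ) := by
          have := Int.toNat_of_nonneg (Int.emod_nonneg h (by omega : (q' : ℤ) ≠ 0))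
          rw [Int.emod_def h q'] at this ⊢
          exact_mod_cast this
        rw [hg, ← sum_sub_distrib, sum_eq_zero fun n _ => ?_, norm_zero]
        · positivity
        · rw [sub_eq_zero, ← ee_add_int ((α - h / q') * n) (h / q' * n), h4]
          refine congrArg ee ?_
          push_cast
          field_simp
          ring
      · rw [sub_zero]
        refine (geo _ a b le_rfl).trans ((mn_le_inv (Nat.cast_nonneg _) (by positivity)
          (far hq b1 b2 hR hα fun t => ne_of hq hc hr h3)).trans_eq ?_)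
        field_simp
    refine (mul_le_mul (norm_mf_le q') h2 (norm_nonneg _) (by positivity)).trans_eq ?_
    field_simp
  · rw [Nat.card_Icc, nsmul_eq_mul, Nat.add_sub_cancel]
    ring

end Pool.Agent.MP_62c071_al.V
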