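import Pool.Agent.MP_62c071_al.V.Kit

/-! The prime powers that are not coprime to the modulus carry a small weight. -/

set_option autoImplicit false

namespace Pool.Agent.MP_62c071_al.V

open Finset ArithmeticFunction Filter

namespace RNc

theorem point {q N n : ℕ} (hq : 1 ≤ q) (hn : n ≤ N) (hc : ¬ n.Coprime q) :
    vonMangoldt n ≤ ∑ p ∈ q.primeFactors,
      if n ∈ (p ^ Nat.log p N).divisors then vonMangoldt n else 0 := by
  have hnn : ∀ p ∈ q.primeFactors,
      0 ≤ if n ∈ (p ^ Nat.log p N).divisors then vonMangoldt n else 0 := by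
    intro p _
    split_ifs
    · exact vonMangoldt_nonneg
    · exact le_rfl
  by_cases h0 : vonMangoldt n = 0
  · rw [h0] at hnn ⊢
    exact sum_nonneg hnn
  obtain ⟨p, k, hp, hk, rfl⟩ := (isPrimePow_nat_iff n).1 (vonMangoldt_ne_zero_iff.1 h0)
  have hd : p ∣ q := by
    by_contra h
    exact hc (Nat.Coprime.pow_left k ((Nat.Prime.coprime_iff_not_dvd hp).2 h))
  have hm : p ∈ q.primeFactors := Nat.mem_primeFactors.2 ⟨hp, hd, by omega⟩
  have hkl : k ≤ Nat.log p N := Nat.le_log_of_pow_le hp.one_lt hn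
  have hin : p ^ k ∈ (p ^ Nat.log p N).divisors :=
    Nat.mem_divisors.2 ⟨pow_dvd_pow p hkl, pow_ne_zero _ hp.ne_zero⟩
  have := single_le_sum hnn hm
  rwa [if_pos hin] at this

theorem one (s : Finset ℕ) {N : ℕ} (hN : N ≠ 0) {p : ℕ} (hp : p.Prime) :
    (∑ n ∈ s, if n ∈ (p ^ Nat.log p N).divisors then vonMangoldt n else 0) ≤ Real.log N := by
  rw [← sum_filter]
  have h1 : ∑ n ∈ s.filter (fun n => n ∈ (p ^ Nat.log p N).divisors), vonMangoldt n ≤
      ∑ n ∈ (p ^ Nat.log p N).divisors, vonMangoldt n :=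
    sum_le_sum_of_subset_of_nonneg (fun n hn => (mem_filter.1 hn).2)
      fun _ _ _ => vonMangoldt_nonneg
  refine h1.trans ?_
  rw [vonMangoldt_sum]
  have h2 : (0 : ℝ) < ((p ^ Nat.log p N : ℕ) : ℝ) := by exact_mod_cast pow_pos hp.pos _
  exact Real.log_le_log h2 (by exact_mod_cast Nat.pow_log_le_self p hN)

theorem card_le (q : ℕ) : q.primeFactors.card ≤ q := by
  have h : q.primeFactors ⊆ Icc 1 q := fun p hp =>
    mem_Icc.2 ⟨(Nat.prime_of_mem_primeFactors hp).one_le, Nat.le_of_mem_primeFactors hp⟩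
  simpa using card_le_card h

end RNc

theorem nc : NcS := by
  intro q N hq
  rcases eq_or_ne N 0 with rfl | hN
  · simp
  have hL : 0 ≤ Real.log N := Real.log_natCast_nonneg N
  calc ∑ n ∈ (Icc 1 N).filter (fun n => ¬ n.Coprime q), vonMangoldt n
      ≤ ∑ n ∈ (Icc 1 N).filter (fun n => ¬ n.Coprime q), ∑ p ∈ q.primeFactors,
          if n ∈ (p ^ Nat.log p N).divisors then vonMangoldt n else 0 :=
        sum_le_sum fun n hn =>
          RNc.point hq (mem_Icc.1 (mem_filter.1 hn).1).2 (mem_filter.1 hn).2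
    _ = ∑ p ∈ q.primeFactors, ∑ n ∈ (Icc 1 N).filter (fun n => ¬ n.Coprime q),
          if n ∈ (p ^ Nat.log p N).divisors then vonMangoldt n else 0 := sum_comm
    _ ≤ ∑ _p ∈ q.primeFactors, Real.log N :=
        sum_le_sum fun p hp => RNc.one _ hN (Nat.prime_of_mem_primeFactors hp)
    _ = q.primeFactors.card * Real.log N := by rw [sum_const, nsmul_eq_mul]
    _ ≤ q * Real.log N :=
        mul_le_mul_of_nonneg_right (by exact_mod_cast RNc.card_le q) hL

end Pool.Agent.MP_62c071_al.V
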