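import Pool.Agent.MP_62c071_al.V.Kit

/-! Row Par: a trilinear sum is bounded by the supremum of one exponential sum. -/

set_option autoImplicit false

namespace Pool.Agent.MP_62c071_al.V

open Finset

namespace RPar

theorem orth (N : ℕ) (m : ℤ) (hm : |m| < N) :
    ∑ t ∈ range N, ee (t / N * m) = if m = 0 then (N : ℂ) else 0 := by
  split_ifs with h0
  · simp [h0, ee_zero]
  have hN : (0 : ℝ) < N := by exact_mod_cast (abs_nonneg m).trans_lt hm
  have h1 : ∀ t : ℕ, ee (t / N * m) = ee (m / N) ^ t := fun t => by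
    rw [← ee_pow]
    congr 1
    ring
  have h2 : ee (m / N) ≠ 1 := fun h => by
    have h3 := nd_le_norm (m / N)
    rw [h, sub_self, norm_zero] at h3
    have h4 : nd (m / N) = 0 := le_antisymm (by linarith) (nd_nonneg _)
    rw [nd, abs_eq_zero, sub_eq_zero, div_eq_iff hN.ne'] at h4
    have h5 : m = round ((m : ℝ) / N) * N := by exact_mod_cast h4
    exact h0 (Int.eq_zero_of_abs_lt_dvd ⟨_, h5.trans (mul_comm _ _)⟩ hm)
  simp only [h1]
  rw [geom_sum_eq h2, ← ee_pow, div_mul_cancel₀ _ hN.ne', ee_int, sub_self, zero_div]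

theorem parse (g : ℕ → ℂ) (B : Finset ℕ) (N : ℕ) (hN : ∀ b ∈ B, b < N) :
    ∑ t ∈ range N, ‖∑ b ∈ B, g b * ee (t / N * b)‖ ^ 2 = N * ∑ b ∈ B, ‖g b‖ ^ 2 := by
  have h1 : ∀ t : ℕ, ((‖∑ b ∈ B, g b * ee (t / N * b)‖ : ℝ) : ℂ) ^ 2 =
      ∑ b ∈ B, ∑ c ∈ B, g b * (starRingEnd ℂ) (g c) * ee (t / N * ((b : ℤ) - c : ℤ)) := fun t => by
    rw [← Complex.mul_conj', map_sum, sum_mul_sum]
    refine sum_congr rfl fun b _ => sum_congr rfl fun c _ => ?_
    rw [map_mul, ← ee_neg, mul_mul_mul_comm, ← ee_add]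
    congr 2
    push_cast
    ring
  apply Complex.ofReal_injective
  push_cast
  simp only [h1]
  rw [sum_comm, mul_sum]
  refine sum_congr rfl fun b hb => ?_
  rw [sum_comm, sum_eq_single_of_mem b hb]
  · rw [← mul_sum, orth N _ (by have := hN b hb; simp; omega), if_pos (sub_self _),
      Complex.mul_conj', mul_comm]
  · intro c hc hne
    have := hN b hb
    have := hN c hc
    rw [← mul_sum, orth N _ (by rw [abs_lt]; omega), if_neg (by omega), mul_zero]

end RPar

open RPar in
theorem par : ParS := by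
  intro f g h A B C M S hS hM
  set N := 1 + M + A.sup id + B.sup id + C.sup id with hN
  have hA : ∀ a ∈ A, a ≤ A.sup id := fun a ha => le_sup (f := id) ha
  have hB : ∀ a ∈ B, a ≤ B.sup id := fun a ha => le_sup (f := id) ha
  have hC : ∀ a ∈ C, a ≤ C.sup id := fun a ha => le_sup (f := id) ha
  have hS0 : 0 ≤ S := (norm_nonneg _).trans (hS 0)
  have hN0 : (0 : ℝ) < N := by
    have : 0 < N := by omega
    exact_mod_cast this
  have h1 : (N : ℂ) * ∑ a ∈ A, ∑ b ∈ B, f a * g b * h (M - a - b) =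
      ∑ t ∈ range N, (∑ a ∈ A, f a * ee (t / N * a)) * (∑ b ∈ B, g b * ee (t / N * b)) *
        (∑ c ∈ C, h c * ee (t / N * c)) * ee (-(t / N * M)) := by
    have h2 : ∀ t : ℕ, (∑ a ∈ A, f a * ee (t / N * a)) * (∑ b ∈ B, g b * ee (t / N * b)) *
        (∑ c ∈ C, h c * ee (t / N * c)) * ee (-(t / N * M)) =
        ∑ a ∈ A, ∑ b ∈ B, ∑ c ∈ C,
          f a * g b * h c * ee (t / N * ((a : ℤ) + b + c - M : ℤ)) := fun t => by
      simp only [sum_mul, mul_sum]
      rw [sum_comm]
      refine Eq.trans (sum_congr rfl fun b _ => sum_comm) (sum_comm.trans ?_)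
      refine sum_congr rfl fun a _ => sum_congr rfl fun b _ => sum_congr rfl fun c _ => ?_
      rw [show (t / N * ((a : ℤ) + b + c - M : ℤ) : ℝ) =
        t / N * a + t / N * b + t / N * c + -(t / N * M) by push_cast; ring, ee_add, ee_add, ee_add]
      ring
    simp only [h2]
    rw [sum_comm (s := range N), mul_sum]
    refine sum_congr rfl fun a ha => ?_
    rw [sum_comm (s := range N), mul_sum]
    refine sum_congr rfl fun b hb => ?_
    obtain ⟨h3, h4⟩ := hM a ha b hb
    have := hA a ha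
    have := hB b hb
    rw [sum_comm, sum_eq_single_of_mem _ h4]
    · rw [← mul_sum, orth N _ (by rw [abs_lt]; omega), if_pos (by omega), mul_comm]
    · intro c hc hne
      have := hC c hc
      rw [← mul_sum, orth N _ (by rw [abs_lt]; omega), if_neg (by omega), mul_zero]
  have h5 := congrArg norm h1
  rw [norm_mul, Complex.norm_natCast] at h5
  refine le_of_mul_le_mul_left ?_ hN0
  rw [h5]
  refine (norm_sum_le _ _).trans ?_
  refine (sum_le_sum (g := fun t : ℕ => S * (‖∑ b ∈ B, g b * ee (t / N * b)‖ *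
    ‖∑ c ∈ C, h c * ee (t / N * c)‖)) fun t _ => ?_).trans ?_
  · rw [norm_mul, norm_mul, norm_mul, norm_ee, mul_one, mul_assoc]
    exact mul_le_mul_of_nonneg_right (hS _) (by positivity)
  · rw [← mul_sum]
    refine (mul_le_mul_of_nonneg_left (Real.sum_mul_le_sqrt_mul_sqrt _ _ _) hS0).trans_eq ?_
    rw [parse g B N fun b hb => by have := hB b hb; omega,
      parse h C N fun b hb => by have := hC b hb; omega, Real.sqrt_mul hN0.le,
      Real.sqrt_mul hN0.le, mul_mul_mul_comm, Real.mul_self_sqrt hN0.le]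
    ring

end Pool.Agent.MP_62c071_al.V
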