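import Pool.Agent.MP_62c071_al.V.Kit

/-! Row Pp: the contribution of the proper prime powers. -/

set_option autoImplicit false

namespace Pool.Agent.MP_62c071_al.V

open Finset ArithmeticFunction

namespace RPp

/-- the weight of the proper prime powers -/
noncomputable def v (n : ℕ) : ℝ := if n.Prime then 0 else vonMangoldt n

theorem v_nonneg (n : ℕ) : 0 ≤ v n := by
  unfold v
  split_ifs
  exacts [le_rfl, vonMangoldt_nonneg]

theorem sum_v {M : ℕ} (hM : 1 ≤ M) (S : Finset ℕ) (hS : S ⊆ Ioc 0 M) :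
    ∑ n ∈ S, v n ≤ 2 * √M * Real.log M := by
  have h := Chebyshev.psi_sub_theta_le (x := M) (by exact_mod_cast hM)
  rw [Chebyshev.psi_sub_theta_eq_sum_not_prime, Nat.floor_natCast, sum_filter] at h
  refine (sum_le_sum_of_subset_of_nonneg hS fun n _ _ => v_nonneg n).trans (le_of_eq_of_le ?_ h)
  exact sum_congr rfl fun n _ => by simp [v]

theorem term {M a b c : ℕ} (ha : a ≤ M) (hb : b ≤ M) (hc : c ≤ M)
    (h : ¬ (a.Prime ∧ b.Prime ∧ c.Prime)) :
    vonMangoldt a * vonMangoldt b * vonMangoldt c ≤ Real.log M ^ 2 * (v a + v b + v c) := by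
  have k : ∀ {x y z : ℕ}, y ≤ M → z ≤ M → ¬ x.Prime →
      vonMangoldt x * vonMangoldt y * vonMangoldt z ≤ Real.log M ^ 2 * v x := by
    intro x y z hy hz hx
    have h1 : vonMangoldt y * vonMangoldt z ≤ Real.log M * Real.log M :=
      mul_le_mul (lam_le hy) (lam_le hz) vonMangoldt_nonneg (Real.log_natCast_nonneg M)
    rw [v, if_neg hx, mul_assoc, mul_comm, sq]
    exact mul_le_mul_of_nonneg_right h1 vonMangoldt_nonneg
  have p : ∀ n, 0 ≤ Real.log M ^ 2 * v n := fun n => mul_nonneg (sq_nonneg _) (v_nonneg n)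
  have pa := p a
  have pb := p b
  have pc := p c
  rw [mul_add, mul_add]
  by_cases h1 : a.Prime
  · by_cases h2 : b.Prime
    · have := k (x := c) ha hb fun h3 => h ⟨h1, h2, h3⟩
      linarith
    · have := k ha hc h2
      linarith
  · have := k hb hc h1
    linarith

end RPp

open RPp in
theorem pp : PpS := by
  intro M Y Z hZ hY hT
  have hM : 1 ≤ M := by omega
  have hL := Real.log_natCast_nonneg M
  set W : ℝ := 2 * √M * Real.log M with hW
  have hW0 : 0 ≤ W := by positivity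
  have hZ' : (Z : ℝ) ≤ Y := by exact_mod_cast hZ
  have cZ : ((Ioc Z (2 * Z)).card : ℝ) = Z := by
    rw [Nat.card_Ioc]
    congr 1
    omega
  have cY : ((Ioc Y (2 * Y)).card : ℝ) = Y := by
    rw [Nat.card_Ioc]
    congr 1
    omega
  have s1 : ∑ a ∈ Ioc Z (2 * Z), v a ≤ W :=
    sum_v hM _ (Ioc_subset_Ioc (Nat.zero_le _) (by omega))
  have s2 : ∑ b ∈ Ioc Y (2 * Y), v b ≤ W :=
    sum_v hM _ (Ioc_subset_Ioc (Nat.zero_le _) (by omega))
  have s3 : ∀ a ∈ Ioc Z (2 * Z), ∑ b ∈ Ioc Y (2 * Y), v (M - a - b) ≤ W := by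
    intro a ha
    rw [mem_Ioc] at ha
    rw [← sum_image (g := fun b => M - a - b) (f := v) fun b hb b' hb' h => by
      simp only [coe_Ioc, Set.mem_Ioc] at hb hb' h
      omega]
    refine sum_v hM _ fun c hc => ?_
    obtain ⟨b, hb, rfl⟩ := mem_image.1 hc
    rw [mem_Ioc] at hb ⊢
    omega
  calc _ ≤ ∑ a ∈ Ioc Z (2 * Z), ∑ b ∈ Ioc Y (2 * Y),
        Real.log M ^ 2 * (v a + v b + v (M - a - b)) := by
        refine sum_le_sum fun a ha => sum_le_sum fun b hb => ?_
        have ha' := mem_Ioc.1 ha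
        have hb' := mem_Ioc.1 hb
        exact term (by omega) (by omega) (by omega) fun h => hT ⟨a, ha, b, hb, h⟩
    _ ≤ ∑ a ∈ Ioc Z (2 * Z), Real.log M ^ 2 * (Y * v a + W + W) := by
        refine sum_le_sum fun a ha => ?_
        rw [← mul_sum, sum_add_distrib, sum_add_distrib, sum_const, nsmul_eq_mul, cY]
        exact mul_le_mul_of_nonneg_left (add_le_add (add_le_add le_rfl s2) (s3 a ha)) (sq_nonneg _)
    _ ≤ Real.log M ^ 2 * (Y * W + Y * W + Y * W) := by
        rw [← mul_sum, sum_add_distrib, sum_add_distrib, sum_const, nsmul_eq_mul, cZ, ← mul_sum]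
        refine mul_le_mul_of_nonneg_left (add_le_add (add_le_add ?_ ?_) ?_) (sq_nonneg _)
        · exact mul_le_mul_of_nonneg_left s1 (Nat.cast_nonneg _)
        · exact mul_le_mul_of_nonneg_right hZ' hW0
        · exact mul_le_mul_of_nonneg_right hZ' hW0
    _ = _ := by rw [hW]; ring

end Pool.Agent.MP_62c071_al.V
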