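import Pool.Agent.MP_62c071_al.V.Kit

/-! Row Ram: the sum of the primitive roots of unity. -/

set_option autoImplicit false

namespace Pool.Agent.MP_62c071_al.V

open Finset ArithmeticFunction

namespace RRam

theorem ind {q : ℕ} (hq : q ≠ 0) (r : ℕ) : (if q.Coprime r then (1 : ℂ) else 0) =
    ∑ d ∈ q.divisors, if d ∣ r then ((moebius d : ℤ) : ℂ) else 0 := by
  have h1 := congrArg (fun f : ArithmeticFunction ℂ => f (q.gcd r)) coe_moebius_mul_coe_zeta
  simp only [coe_mul_zeta_apply, one_apply, intCoe_apply] at h1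
  rw [← sum_filter]
  refine h1.symm.trans (sum_congr ?_ fun _ _ => rfl)
  ext d
  simp [Nat.dvd_gcd_iff, hq]

theorem geom {ζ : ℂ} {d e : ℕ} (hd : 0 < d) :
    ∑ r ∈ (range (d * e)).filter (d ∣ ·), ζ ^ r = ∑ j ∈ range e, (ζ ^ d) ^ j := by
  refine (sum_bij (fun j _ => d * j) (fun j hj => ?_) (fun j _ j' _ h => ?_) (fun r hr => ?_)
    fun j _ => (pow_mul ζ d j).symm).symm
  · exact mem_filter.2 ⟨mem_range.2 (Nat.mul_lt_mul_of_pos_left (mem_range.1 hj) hd),
      Dvd.intro j rfl⟩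
  · exact Nat.eq_of_mul_eq_mul_left hd h
  · obtain ⟨h1, j, rfl⟩ := mem_filter.1 hr
    exact ⟨j, mem_range.2 (Nat.lt_of_mul_lt_mul_left (mem_range.1 h1)), rfl⟩

theorem prim {ζ : ℂ} {q : ℕ} (hq : q ≠ 0) (h : IsPrimitiveRoot ζ q) :
    ∑ r ∈ rs q, ζ ^ r = ((moebius q : ℤ) : ℂ) := by
  have h1 : ∑ r ∈ rs q, ζ ^ r = ∑ d ∈ q.divisors,
      ((moebius d : ℤ) : ℂ) * ∑ r ∈ (range q).filter (d ∣ ·), ζ ^ r := by
    simp only [rs, sum_filter, mul_sum]
    rw [sum_comm]
    refine sum_congr rfl fun r _ => ?_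
    rw [← boole_mul, ind hq, sum_mul]
    exact sum_congr rfl fun d _ => by split_ifs <;> simp
  rw [h1, sum_eq_single q]
  · have h2 := geom (ζ := ζ) (e := 1) (Nat.pos_of_ne_zero hq)
    rw [mul_one] at h2
    simp [h2]
  · intro d hd hne
    obtain ⟨e, rfl⟩ := Nat.dvd_of_mem_divisors hd
    have h2 : 1 < e := by
      rcases e with _ | _ | e
      · exact absurd rfl hq
      · exact absurd (mul_one d).symm hne
      · omega
    rw [geom (Nat.pos_of_mem_divisors hd),
      (h.pow (Nat.pos_of_ne_zero hq) rfl).geom_sum_eq_zero h2, mul_zero]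
  · exact fun h2 => absurd (Nat.mem_divisors_self q hq) h2

end RRam

theorem ram : RamS := by
  intro q h hq hc
  have h0 : q ≠ 0 := by omega
  have h1 := Complex.isPrimitiveRoot_exp_of_isCoprime h q h0
    (Int.isCoprime_iff_nat_coprime.2 (by simpa using hc))
  rw [← RRam.prim h0 h1]
  refine sum_congr rfl fun r _ => ?_
  rw [ee, ← Complex.exp_nat_mul]
  congr 1
  push_cast
  ring

end Pool.Agent.MP_62c071_al.V
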