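import Pool.Agent.MP_62c071_al.V.Kit

/-! The truncated singular series is bounded below. -/

set_option autoImplicit false

namespace Pool.Agent.MP_62c071_al.V

open Finset ArithmeticFunction

namespace RSing

theorem ee_half : ee (-(1 / 2)) = -1 := by
  rw [ee_neg, show ee (1 / 2) = -1 by
    rw [ee, ← Complex.exp_pi_mul_I]
    congr 1
    push_cast
    ring]
  simp

theorem mf_one : mf 1 = 1 := by simp [mf]

theorem mf_two : mf 2 = -1 := by
  simp [mf, moebius_apply_prime Nat.prime_two]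

theorem split {A : Type} [AddCommMonoid A] (f : ℕ → A) {Q : ℕ} (h : 2 ≤ Q) :
    ∑ q ∈ Icc 1 Q, f q = f 1 + (f 2 + ∑ q ∈ Icc 3 Q, f q) := by
  rw [← insert_Icc_add_one_left_eq_Icc (show 1 ≤ Q by omega), sum_insert (by simp),
    ← insert_Icc_add_one_left_eq_Icc (show 1 + 1 ≤ Q by omega), sum_insert (by simp)]
  rfl

theorem term (M q : ℕ) :
    ‖mf q ^ 3 * ∑ r ∈ rs q, ee (-(M * r / q))‖ ≤ ‖mf q‖ ^ 2 := by
  have h1 : ‖∑ r ∈ rs q, ee (-(M * r / q))‖ ≤ q.totient :=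
    (norm_sum_le _ _).trans (by simp [norm_ee, card_rs])
  have h2 : ‖mf q‖ * q.totient ≤ 1 := by
    refine (mul_le_mul_of_nonneg_right (norm_mf_le q) (Nat.cast_nonneg _)).trans ?_
    rw [one_div]
    exact inv_mul_le_one
  rw [norm_mul, norm_pow]
  calc _ ≤ ‖mf q‖ ^ 3 * q.totient := by gcongr
    _ = ‖mf q‖ ^ 2 * (‖mf q‖ * q.totient) := by ring
    _ ≤ _ := mul_le_of_le_one_right (by positivity) h2

end RSing

open RSing

theorem singOf : SingOf := by
  intro he M Q hM hQ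
  have h := he Q
  rw [split _ hQ, mf_one, mf_two] at h
  have e1 : mf 1 ^ 3 * ∑ r ∈ rs 1, ee (-(M * r / (1 : ℕ))) = 1 := by
    rw [show rs 1 = {0} by decide, mf_one]
    simp [ee_zero]
  have e2 : mf 2 ^ 3 * ∑ r ∈ rs 2, ee (-(M * r / (2 : ℕ))) = 1 := by
    obtain ⟨k, rfl⟩ := hM
    rw [show rs 2 = {1} by decide, mf_two, sum_singleton,
      show -(((2 * k + 1 : ℕ) : ℝ) * (1 : ℕ) / (2 : ℕ)) = -(1 / 2) + ((-k : ℤ) : ℝ) by
        push_cast; ring, ee_add_int, ee_half]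
    norm_num
  rw [split _ hQ, e1, e2]
  have h3 := (norm_sum_le _ _).trans (sum_le_sum fun q (_ : q ∈ Icc 3 Q) => term M q)
  have h4 := (abs_le.1 (Complex.abs_re_le_norm
    (∑ q ∈ Icc 3 Q, mf q ^ 3 * ∑ r ∈ rs q, ee (-(M * r / q))))).1
  simp only [norm_one, norm_neg] at h
  simp only [Complex.add_re, Complex.one_re]
  linarith

end Pool.Agent.MP_62c071_al.V
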