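import Pool.Agent.MP_62c071_al.V.Kit
import Pool.Agent.MP_c5bf7b_nt.H38.Kf2
import Pool.Agent.MP_c5bf7b_nt.H38.Hf

/-! Row Sm: the prime number theorem for a character from a region without zeros. -/

set_option autoImplicit false

namespace Pool.Agent.MP_62c071_al.V

open Finset ArithmeticFunction Filter Complex
open Pool.Agent.MP_c5bf7b_nt.H38 (Ch Phi Lh CntS EfS Cnt)
open Pool.Agent.MP_c5bf7b_nt.H38.Kf (pw pw_nonneg cnt_sum)
open Pool.Agent.MP_c5bf7b_nt.H38.Hf (JJ)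

namespace RSm

theorem int_le (F : ℝ → ℂ) {A : ℝ} (h : ∀ y : ℝ, ‖F y‖ ≤ A / (1 + y ^ 2)) (hA : 0 ≤ A) :
    ∫ y : ℝ, ‖F y‖ * √|y| ≤ A * JJ := by
  rw [JJ, ← MeasureTheory.integral_const_mul]
  refine MeasureTheory.integral_mono_of_nonneg (Eventually.of_forall fun y => by positivity)
    ((integrable_rpow_neg_one_add_norm_sq (by norm_num)).const_mul _)
    (Eventually.of_forall fun y => ?_)
  have hp : (0 : ℝ) < 1 + ‖y‖ ^ 2 := by positivity
  have hs : √|y| ≤ (1 + ‖y‖ ^ 2) ^ (1 / 4 : ℝ) := by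
    rw [Real.sqrt_eq_rpow]
    calc |y| ^ (1 / 2 : ℝ) = (|y| ^ 2) ^ (1 / 4 : ℝ) := by
          rw [← Real.rpow_natCast, ← Real.rpow_mul (abs_nonneg y)]; norm_num
      _ ≤ _ := by gcongr; rw [Real.norm_eq_abs]; linarith
  have h1 : ‖F y‖ ≤ A / (1 + ‖y‖ ^ 2) := by rw [Real.norm_eq_abs, sq_abs]; exact h y
  beta_reduce
  calc _ ≤ A / (1 + ‖y‖ ^ 2) * (1 + ‖y‖ ^ 2) ^ (1 / 4 : ℝ) := by gcongr
    _ = A * ((1 + ‖y‖ ^ 2) ^ (1 / 4 : ℝ) * (1 + ‖y‖ ^ 2) ^ (-1 : ℝ)) := by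
        rw [Real.rpow_neg_one]; ring
    _ = _ := by rw [← Real.rpow_add hp]; norm_num

theorem JJ_nonneg : 0 ≤ JJ := MeasureTheory.integral_nonneg fun y => by positivity

theorem nsq (z : ℂ) (l : ℝ) : ‖z - l‖ ^ 2 = (z.re - l) ^ 2 + z.im ^ 2 := by
  rw [Complex.sq_norm, normSq_apply]
  simp [sq]

/-- The smoothed sum. -/
theorem tsum_eq {Q N : ℕ} (χ : Ch Q) {T : ℝ → ℝ} (hl : 0 < Real.log Q) (hN : 1 ≤ N)
    (hT : ∀ u, Real.log N / Real.log Q ≤ u → T u = 0) :
    (∑' n : ℕ, ((vonMangoldt n / (n * Real.log Q) : ℝ) : ℂ) * χ n *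
      exp ((0 : ℝ) * I * (Real.log n / Real.log Q : ℝ)) *
        kt (Real.log Q) (Real.log N / Real.log Q) T (Real.log n / Real.log Q)) *
      ((Real.log Q * N : ℝ) : ℂ) =
      ∑ n ∈ Icc 1 N, La n * χ n * (T (Real.log n / Real.log Q) : ℂ) := by
  have hN' : (0 : ℝ) < N := by exact_mod_cast hN
  rw [tsum_eq_sum (s := Icc 1 N), sum_mul]
  · refine sum_congr rfl fun n hn => ?_
    have hn' : (0 : ℝ) < n := by exact_mod_cast (mem_Icc.1 hn).1
    have e : Real.exp (Real.log Q * (Real.log n / Real.log Q - Real.log N / Real.log Q)) =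
        n / N := by
      rw [← sub_div, mul_div_cancel₀ _ hl.ne', Real.exp_sub, Real.exp_log hn', Real.exp_log hN']
    have e2 : (vonMangoldt n / (n * Real.log Q) * (n / N * T (Real.log n / Real.log Q)) *
        (Real.log Q * N) : ℝ) = vonMangoldt n * T (Real.log n / Real.log Q) := by
      field_simp
    have e3 := congrArg (fun x : ℝ => (x : ℂ) * χ n) e2
    rw [kt, e, La]
    simp only [ofReal_mul, ofReal_zero, zero_mul, exp_zero, mul_one] at e3 ⊢
    linear_combination e3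
  · intro n hn
    rcases Nat.eq_zero_or_pos n with rfl | h0
    · simp
    · have h1 : (N : ℝ) ≤ n := by
        have : ¬ n ≤ N := fun h => hn (mem_Icc.2 ⟨h0, h⟩)
        exact_mod_cast (not_le.1 this).le
      rw [kt, hT _ (by gcongr)]
      simp

/-- The sharp and the smoothed sum. -/
theorem sharp {Q N : ℕ} (χ : Ch Q) {T : ℝ → ℝ} {κ : ℝ} (hl : 0 < Real.log Q) (hκ : 0 < κ)
    (hκ' : κ ≤ 1 / 2) (hκN : 1 ≤ κ * N) (h0 : ∀ u, 0 ≤ T u ∧ T u ≤ 1)
    (h1 : ∀ u, κ / Real.log Q ≤ u → u ≤ Real.log N / Real.log Q - κ / Real.log Q → T u = 1) :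
    ‖∑ n ∈ Icc 1 N, La n * χ n - ∑ n ∈ Icc 1 N, La n * χ n * (T (Real.log n / Real.log Q) : ℂ)‖ ≤
      2 * κ * N * Real.log N := by
  have hN : (0 : ℝ) < N := by
    by_contra h
    nlinarith [Nat.cast_nonneg (α := ℝ) N]
  set m := ⌊N * (1 - κ)⌋₊ with hm
  have hm1 : (m : ℝ) ≤ N * (1 - κ) := Nat.floor_le (by nlinarith)
  have hm2 : N * (1 - κ) < m + 1 := Nat.lt_floor_add_one _
  have hm3 : m ≤ N := by exact_mod_cast (show (m : ℝ) ≤ N by nlinarith)
  rw [← sum_sub_distrib, ← sum_subset (s₁ := Ioc m N)]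
  · refine (norm_sum_le _ _).trans ((sum_le_card_nsmul _ _ (Real.log N) fun n hn => ?_).trans ?_)
    · rw [← mul_one_sub, norm_mul, norm_mul, norm_La, ← ofReal_one, ← ofReal_sub, norm_real,
        Real.norm_of_nonneg (sub_nonneg.2 (h0 _).2)]
      have a1 := lam_le (mem_Ioc.1 hn).2
      have a2 := χ.norm_le_one (n : ZMod Q)
      calc _ ≤ Real.log N * 1 * 1 := by
            gcongr
            · exact sub_nonneg.2 (h0 _).2
            · linarith [(h0 (Real.log n / Real.log Q)).1]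
        _ = _ := by ring
    · rw [Nat.card_Ioc, nsmul_eq_mul, Nat.cast_sub hm3]
      gcongr
      nlinarith
  · intro n hn
    rw [mem_Ioc] at hn
    exact mem_Icc.2 ⟨by omega, hn.2⟩
  · intro n hn hn'
    rw [mem_Icc] at hn
    have h2 : n ≤ m := by
      by_contra h
      exact hn' (mem_Ioc.2 ⟨not_le.1 h, hn.2⟩)
    rcases eq_or_lt_of_le hn.1 with rfl | h3
    · simp [La]
    have h4 : (2 : ℝ) ≤ n := by exact_mod_cast h3
    rw [h1, ofReal_one, mul_one, sub_self]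
    · gcongr
      have := Real.log_le_log (by norm_num) h4
      linarith [Real.log_two_gt_d9]
    · rw [← sub_div]
      gcongr
      have h5 : (n : ℝ) ≤ N * Real.exp (-κ) := by
        have : (n : ℝ) ≤ m := by exact_mod_cast h2
        nlinarith [Real.add_one_le_exp (-κ)]
      have := Real.log_le_log (by linarith) h5
      rwa [Real.log_mul hN.ne' (Real.exp_pos _).ne', Real.log_exp, ← sub_eq_add_neg] at this

/-- The term of one zero. -/
theorem one_zero {l L η δ T : ℝ} {ζ : ℂ} (hl : 0 < l) (hL : 0 ≤ L) (hη : 0 < η) (hT : 1 ≤ T)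
    (h0 : 0 < ζ.re) (h1 : ζ.re ≤ l / 3) (h : |ζ.im| / l ≤ T → δ ≤ ζ.re / l) :
    4 * Real.exp (-(L / l * ζ.re)) / (η * ‖ζ - l‖ ^ 2) ≤
      18 / (η * l ^ 2) * (Real.exp (-(δ * L)) + 1 / √T) * pw (|ζ.im - 0| / l) := by
  rw [sub_zero]
  set t := |ζ.im| / l with ht
  have t0 : 0 ≤ t := by positivity
  have e1 : ζ.im ^ 2 = l ^ 2 * t ^ 2 := by
    rw [ht, div_pow, sq_abs]
    field_simp
  have e2 : 2 / 9 * l ^ 2 * (1 + t) ^ 2 ≤ ‖ζ - l‖ ^ 2 := by
    rw [nsq, e1]
    have a1 : (2 / 3 * l) ^ 2 ≤ (ζ.re - l) ^ 2 := by nlinarith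
    have a2 : 2 / 9 * (1 + t) ^ 2 ≤ 4 / 9 + t ^ 2 := by nlinarith [sq_nonneg (t - 1 / 2)]
    nlinarith [mul_le_mul_of_nonneg_left a2 (sq_nonneg l)]
  have s1 : 1 ≤ √(1 + t) := Real.one_le_sqrt.2 (by linarith)
  have e3 : Real.exp (-(L / l * ζ.re)) / √(1 + t) ≤ Real.exp (-(δ * L)) + 1 / √T := by
    by_cases c : t ≤ T
    · have a1 : Real.exp (-(L / l * ζ.re)) ≤ Real.exp (-(δ * L)) := by
        refine Real.exp_le_exp.2 (neg_le_neg ?_)
        calc δ * L ≤ ζ.re / l * L := mul_le_mul_of_nonneg_right (h c) hL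
          _ = _ := by ring
      exact ((div_le_self (Real.exp_pos _).le s1).trans a1).trans
        (le_add_of_nonneg_right (by positivity))
    · refine le_trans ?_ (le_add_of_nonneg_left (Real.exp_pos _).le)
      gcongr
      · exact Real.exp_le_one_iff.2 (neg_nonpos.2 (by positivity))
      · linarith [not_le.1 c]
  have s2 : √(1 + t) * √(1 + t) = 1 + t := Real.mul_self_sqrt (by linarith)
  calc _ ≤ 4 * Real.exp (-(L / l * ζ.re)) / (η * (2 / 9 * l ^ 2 * (1 + t) ^ 2)) := by gcongr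
    _ = 18 / (η * l ^ 2) * (Real.exp (-(L / l * ζ.re)) / √(1 + t)) * pw t := by
        rw [pw, div_mul_div_comm, div_mul_div_comm, mul_assoc (η * l ^ 2), mul_left_comm (√(1 + t)),
          s2]
        field_simp
        norm_num
    _ ≤ _ := by
        have := pw_nonneg t0
        gcongr

theorem final {N L l κ E₁ E₂ E₃ a b c x : ℝ} (hN : 0 ≤ N) (hl : 1 ≤ l) (hL : l ≤ L) (hκ : 0 < κ)
    (hκN : 1 ≤ κ * N) (h1 : 0 ≤ E₁) (h2 : 0 ≤ E₂) (h3 : 0 ≤ E₃) (ha : 0 ≤ a) (hb : 0 ≤ b)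
    (hc : 0 ≤ c) (hx : x ≤ 2 * κ * N * L + (2 * κ * N + 1) +
      N / κ * (a * l * (E₁ + E₂) + b * l ^ 2 * E₁ + c * l ^ 5 * E₃)) :
    x ≤ (5 + a + b + c) * N * (κ * L + L ^ 5 / κ * (E₁ + E₂ + E₃)) := by
  have L1 : 1 ≤ L := hl.trans hL
  have p5 : l ^ 5 ≤ L ^ 5 := by gcongr
  have p2 : l ^ 2 ≤ L ^ 5 := (pow_le_pow_right₀ hl (by norm_num)).trans p5
  have p1 : l ≤ L ^ 5 := (le_self_pow₀ hl (by norm_num)).trans p5
  have b1 : 2 * κ * N * L + (2 * κ * N + 1) ≤ (5 + a + b + c) * N * (κ * L) := by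
    have : κ * N ≤ κ * N * L := le_mul_of_one_le_right (by positivity) L1
    have : 0 ≤ (a + b + c) * (κ * N * L) := by positivity
    nlinarith
  have b2 : a * l * (E₁ + E₂) + b * l ^ 2 * E₁ + c * l ^ 5 * E₃ ≤
      (5 + a + b + c) * L ^ 5 * (E₁ + E₂ + E₃) := by
    calc _ ≤ a * L ^ 5 * (E₁ + E₂ + E₃) + b * L ^ 5 * (E₁ + E₂ + E₃) +
          c * L ^ 5 * (E₁ + E₂ + E₃) := by
          gcongr a * ?_ * ?_ + b * ?_ * ?_ + c * ?_ * ?_ <;> linarith
      _ ≤ _ := by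
          have : 0 ≤ L ^ 5 * (E₁ + E₂ + E₃) := by positivity
          nlinarith
  calc x ≤ (5 + a + b + c) * N * (κ * L) + N / κ * ((5 + a + b + c) * L ^ 5 * (E₁ + E₂ + E₃)) :=
        hx.trans (by gcongr)
    _ = _ := by ring

theorem tri (A B S Z m c : ℂ) :
    ‖A - B‖ ≤ ‖A - S * c‖ + ‖m * c - B‖ + (‖S + Z - m‖ + ‖Z‖) * ‖c‖ := by
  rw [add_mul, ← norm_mul, ← norm_mul]
  refine le_trans (le_of_eq (congrArg _ ?_)) ((norm_add_le _ _).trans
    (add_le_add (norm_add_le _ _) (norm_sub_le _ _)))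
  ring

end RSm

open RSm in
theorem smOf : SmOf := by
  classical
  rintro ⟨C₁, hC₁, hcnt⟩ ⟨C₂, hC₂, q₀, hef⟩ htest
  have hP : 0 ≤ ∑' j : ℕ, pw j := tsum_nonneg fun j => pw_nonneg (Nat.cast_nonneg j)
  have hJ := JJ_nonneg
  refine ⟨5 + 36 * C₁ * ∑' j : ℕ, pw j + 4 * C₂ * JJ + 4 * C₂, by
    have : 0 ≤ 36 * C₁ * ∑' j : ℕ, pw j + 4 * C₂ * JJ + 4 * C₂ := by positivity
    linarith, max q₀ 8, ?_⟩
  intro Q _ χ N κ δ T hQ hQN hκ hκ' hκN hδ hT hz
  have hQ8 : 8 ≤ Q := (le_max_right _ _).trans hQ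
  have hQ' : (8 : ℝ) ≤ Q := by exact_mod_cast hQ8
  have hQN' : (Q : ℝ) ≤ N := by exact_mod_cast hQN
  have hl : 2 ≤ Real.log Q := by
    have := Real.log_le_log (by norm_num) hQ'
    rw [show (8 : ℝ) = 2 ^ 3 by norm_num, Real.log_pow] at this
    push_cast at this
    linarith [Real.log_two_gt_d9]
  have hL : Real.log Q ≤ Real.log N := Real.log_le_log (by linarith) hQN'
  obtain ⟨⟨Y, hY⟩, hc⟩ := hcnt Q χ (by omega)
  obtain ⟨c1, c2, -⟩ := hc Y hY
  have hs := fun T' => @tsum_eq Q N χ T' (by linarith) (by omega)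
  have hsh := fun T' => @sharp Q N χ T' κ (by linarith) hκ hκ' hκN
  have hef' := hef Q ((le_max_left _ _).trans hQ) χ Y
  have eQ : Real.exp (Real.log N / Real.log Q - 2 * Real.log Q) =
      Real.exp (Real.log N / Real.log Q) / (Q : ℝ) ^ 2 := by
    rw [Real.exp_sub, two_mul, Real.exp_add, Real.exp_log (by linarith), sq]
  have eN : Real.exp (-(Real.log Q * (Real.log N / Real.log Q))) = (N : ℝ)⁻¹ := by
    rw [mul_div_cancel₀ _ (by linarith), Real.exp_neg, Real.exp_log (by linarith)]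
  set l := Real.log Q with hl'
  set L := Real.log N with hL'
  have l0 : 0 < l := by linarith
  have hU : 1 ≤ L / l := (one_le_div l0).2 hL
  have hη : κ / l ≤ 1 / 2 := by rw [div_le_iff₀ l0]; nlinarith
  have η0 : 0 < κ / l := by positivity
  obtain ⟨T', t1, t2, t3, t4, t5, t6, t7⟩ := htest l (L / l) (κ / l) l0 η0 (by linarith)
  have hdec : ∀ z : ℂ, z.re ≤ 3 / 10 * l → ‖Lh (kt l (L / l) T') z‖ ≤
      4 * Real.exp (-(L / l * z.re)) / (κ / l) / (1 + z.im ^ 2) := by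
    intro z h
    refine (t6 z (by linarith)).trans ?_
    rw [div_div, nsq]
    gcongr
    nlinarith
  have h1 := hef' (kt l (L / l) T') (4 * Real.exp (L / l) / (κ / l)) (3 / 10 * l) 0 hY
    (by unfold kt; fun_prop) (fun u hu => by simp [kt, t3 u hu]) (fun u hu => by
      by_cases c : L / l ≤ u
      · rw [kt, t4 u c]
        simp only [mul_zero, ofReal_zero, norm_zero]
        positivity
      · have a1 : Real.exp (l * (u - L / l)) ≤ 1 :=
          Real.exp_le_one_iff.2 (by nlinarith [not_le.1 c])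
        have a2 : 1 ≤ Real.exp (L / l) * Real.exp (-u) := by
          rw [← Real.exp_add]
          exact Real.one_le_exp (by linarith [not_le.1 c])
        rw [kt, norm_real, Real.norm_of_nonneg (mul_nonneg (Real.exp_pos _).le (t2 u).1),
          div_mul_eq_mul_div, le_div_iff₀ η0]
        have a3 := mul_le_one₀ a1 (t2 u).1 (t2 u).2
        nlinarith) (by positivity) le_rfl (fun z a b => (hdec z b).trans (by
      gcongr
      nlinarith)) (by rw [abs_zero]; positivity)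
  have h2 := int_le (fun y : ℝ => Lh (kt l (L / l) T') ((3 / 10 * l : ℝ) + y * I))
    (A := 4 * Real.exp (-(δ * L)) / (κ / l)) (fun y => (hdec _ (by simp)).trans (by
      have a1 : (((3 / 10 * l : ℝ) : ℂ) + y * I).re = 3 / 10 * l := by simp
      have a2 : (((3 / 10 * l : ℝ) : ℂ) + y * I).im = y := by simp
      have a3 : L / l * (3 / 10 * l) = 3 / 10 * L := by field_simp
      rw [a1, a2, a3]
      gcongr)) (by positivity)
  have h3 : ‖(Y.map fun ζ => Lh (kt l (L / l) T') (ζ - (0 : ℝ) * I)).sum‖ ≤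
      18 / (κ / l * l ^ 2) * (Real.exp (-(δ * L)) + 1 / √T) * (2 * (C₁ * l) * ∑' j : ℕ, pw j) := by
    refine (norm_multiset_sum_le _).trans ?_
    refine le_trans ?_ (mul_le_mul_of_nonneg_left (cnt_sum l0 (by linarith) c1 0) (by positivity))
    rw [Multiset.map_map, ← Multiset.sum_map_mul_left]
    refine Multiset.sum_map_le_sum_map _ _ fun ζ hζ => ?_
    obtain ⟨z1, z2, -, z4⟩ := c2 ζ hζ
    simp only [Function.comp, ofReal_zero, zero_mul, sub_zero (G := ℂ)]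
    refine (t6 ζ (by linarith)).trans (one_zero l0 (by linarith) η0 hT z1 z2 fun h => ?_)
    have r1 : (1 - ζ / l).re = 1 - ζ.re / l := by simp [div_ofReal_re]
    have r2 : |(1 - ζ / l).im| = |ζ.im| / l := by simp [div_ofReal_im, abs_div, abs_of_pos l0]
    have := hz _ z4 (by
      rw [r1]
      have : ζ.re / l ≤ 1 / 3 := by rw [div_le_iff₀ l0]; linarith
      linarith) (r2 ▸ h)
    rw [r1] at this
    linarith
  have h4 : ‖(if χ = 1 then Lh (kt l (L / l) T') (-((0 : ℝ) * I)) else 0) * ((l * N : ℝ) : ℂ) -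
      (if χ = 1 then (N : ℂ) else 0)‖ ≤ 2 * κ * N + 1 := by
    split_ifs
    · have e : (N : ℂ) = 1 / l * ((l * N : ℝ) : ℂ) := by
        have : (l : ℂ) ≠ 0 := by exact_mod_cast l0.ne'
        push_cast
        field_simp
      rw [e, ← sub_mul, norm_mul, norm_real, Real.norm_of_nonneg (by positivity), ofReal_zero,
        zero_mul, neg_zero]
      refine (mul_le_mul_of_nonneg_right t7 (by positivity)).trans (le_of_eq ?_)
      have : (N : ℝ) ≠ 0 := by linarith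
      rw [eN]
      field_simp
    · simp only [zero_mul, sub_zero, norm_zero]
      positivity
  have h5 := hsh T' t2 t5
  rw [← hs T' t4] at h5
  rw [eQ]
  refine final (l := l) (by positivity) (by linarith) hL hκ hκN (by positivity) (by positivity)
    (by positivity) (by positivity) (by positivity) (by positivity) ?_
  generalize (∑' n : ℕ, ((vonMangoldt n / (n * l) : ℝ) : ℂ) * χ n *
    exp ((0 : ℝ) * I * (Real.log n / l : ℝ)) * kt l (L / l) T' (Real.log n / l)) = S at h1 h5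
  generalize (Y.map fun ζ => Lh (kt l (L / l) T') (ζ - (0 : ℝ) * I)).sum = Z at h1 h3
  generalize (if χ = 1 then Lh (kt l (L / l) T') (-((0 : ℝ) * I)) else 0) = m at h1 h4
  have lN : ‖((l * N : ℝ) : ℂ)‖ = l * N := by rw [norm_real, Real.norm_of_nonneg (by positivity)]
  have h6 : Er χ N ≤ ‖∑ n ∈ Icc 1 N, La n * χ n - S * ((l * N : ℝ) : ℂ)‖ +
      ‖m * ((l * N : ℝ) : ℂ) - (if χ = 1 then (N : ℂ) else 0)‖ +
      (‖S + Z - m‖ + ‖Z‖) * (l * N) := by
    have := tri (∑ n ∈ Icc 1 N, La n * χ n) (if χ = 1 then (N : ℂ) else 0) S Z m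
      ((l * N : ℝ) : ℂ)
    rw [lN] at this
    unfold Er
    convert this
  have s1 : 1 ≤ √l := Real.one_le_sqrt.2 (by linarith)
  have h7 : ‖S + Z - m‖ ≤ C₂ * (4 * Real.exp (-(δ * L)) / (κ / l) * JJ) +
      C₂ * (4 * Real.exp (L / l) / (κ / l)) * l ^ 3 / (Q : ℝ) ^ 2 := by
    refine h1.trans (add_le_add ((div_le_div_of_nonneg_right (mul_le_mul_of_nonneg_left h2
      (by linarith)) (by linarith)).trans (div_le_self (by positivity) s1)) le_rfl)
  refine h6.trans (add_le_add (add_le_add h5 h4) ?_)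
  refine (mul_le_mul_of_nonneg_right (add_le_add h7 h3) (by positivity)).trans (le_of_eq ?_)
  field_simp
  ring

end Pool.Agent.MP_62c071_al.V
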