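import Pool.Agent.MP_62c071_al.V.Kit

/-! Row Sw1: the theorem of Siegel and Walfisz for one character and one length. -/

set_option autoImplicit false

namespace Pool.Agent.MP_62c071_al.V

open Finset ArithmeticFunction Filter
open Pool.Agent.MP_c5bf7b_nt.H38 (Ch Phi)

namespace RSw1

theorem lev_odd {q j : ℕ} (hq : q ∣ q * 2 ^ j) (χ : Ch q) {n : ℕ} (hn : n.Coprime 2) :
    DirichletCharacter.changeLevel hq χ n = χ n := by
  by_cases h : n.Coprime q
  · have h1 : n.Coprime (q * 2 ^ j) := Nat.Coprime.mul_right h (hn.pow_right j)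
    have h2 := DirichletCharacter.changeLevel_eq_cast_of_dvd' χ hq
      (Nat.isCoprime_iff_coprime.2 h1)
    simpa only [Int.cast_natCast] using h2
  · rw [MulChar.map_nonunit χ (fun hu => h ((ZMod.isUnit_iff_coprime n q).1 hu)),
      MulChar.map_nonunit _ (fun hu => h
        (((ZMod.isUnit_iff_coprime n _).1 hu).coprime_dvd_right hq))]

theorem er_le (hN : NcS) {q j : ℕ} [NeZero q] [NeZero (q * 2 ^ j)] (hq : q ∣ q * 2 ^ j)
    (χ : Ch q) (N : ℕ) :
    Er χ N ≤ Er (DirichletCharacter.changeLevel hq χ) N + 4 * Real.log N := by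
  classical
  have h1 := hN 2 N one_le_two
  have h2 : ‖∑ n ∈ Icc 1 N, (La n * χ n - La n * DirichletCharacter.changeLevel hq χ n)‖ ≤
      4 * Real.log N := by
    refine (norm_sum_le _ _).trans ?_
    have h3 : ∀ n ∈ Icc 1 N, ‖La n * χ n - La n * DirichletCharacter.changeLevel hq χ n‖ ≤
        2 * if ¬ n.Coprime 2 then vonMangoldt n else 0 := by
      intro n _
      by_cases h : n.Coprime 2
      · rw [lev_odd hq χ h, if_neg (not_not.2 h)]
        simp
      · rw [if_pos h, ← mul_sub, norm_mul, norm_La, mul_comm]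
        refine mul_le_mul_of_nonneg_right ((norm_sub_le _ _).trans ?_) vonMangoldt_nonneg
        linarith [χ.norm_le_one n, (DirichletCharacter.changeLevel hq χ).norm_le_one n]
    refine (sum_le_sum h3).trans ?_
    rw [← mul_sum, ← sum_filter]
    push_cast at h1
    linarith
  unfold Er
  simp only [DirichletCharacter.changeLevel_eq_one_iff]
  refine le_trans (le_of_eq ?_) ((norm_add_le _ _).trans (add_le_add_right h2 _))
  congr 1
  rw [sum_sub_distrib]
  split_ifs <;> ring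

/-- the zero free region in the range needed -/
theorem zf {c L x t : ℝ} {B E : ℕ} (hc : 0 < c) (hL : 3 ≤ L) (hx : 0 < x) (hxL : x ≤ L ^ B)
    (ht0 : 0 ≤ t) (ht : t ≤ L ^ E) :
    min c (3 / 10) / √L ≤ c * (x * (t + 2)) ^ (-(1 / (2 * ((B + E + 1 : ℕ) : ℝ)))) := by
  have hL0 : 0 < L := by linarith
  have hE : (1 : ℝ) ≤ L ^ E := one_le_pow₀ (by linarith)
  have h1 : x * (t + 2) ≤ L ^ (B + E + 1) := by
    rw [add_assoc, pow_add, pow_succ]
    exact mul_le_mul hxL (by nlinarith) (by linarith) (by positivity)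
  have hD : (0 : ℝ) < ((B + E + 1 : ℕ) : ℝ) := by positivity
  have h2 : (L ^ (B + E + 1)) ^ (-(1 / (2 * ((B + E + 1 : ℕ) : ℝ)))) = 1 / √L := by
    rw [← Real.rpow_natCast, ← Real.rpow_mul hL0.le, Real.sqrt_eq_rpow, one_div (L ^ _),
      ← Real.rpow_neg hL0.le]
    congr 1
    field_simp
  have h3 := Real.rpow_le_rpow_of_nonpos (x := x * (t + 2)) (by positivity) h1
    (z := -(1 / (2 * ((B + E + 1 : ℕ) : ℝ)))) (neg_nonpos.2 (by positivity))
  rw [h2] at h3
  calc min c (3 / 10) / √L ≤ c * (1 / √L) := by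
        rw [mul_one_div]
        exact div_le_div_of_nonneg_right (min_le_left _ _) (Real.sqrt_nonneg _)
    _ ≤ _ := mul_le_mul_of_nonneg_left h3 hc.le

theorem exp_neg_le {y P : ℝ} (hP : 0 < P) (h : P ≤ Real.exp y) : Real.exp (-y) ≤ 1 / P := by
  rw [Real.exp_neg, ← one_div]
  exact one_div_le_one_div_of_le hP h

theorem fin {C N L a b c : ℝ} {A : ℕ} (hC : 1 ≤ C) (hL : 8 * C ≤ L) (hN : 0 ≤ N)
    (ha : a ≤ 1 / L ^ (2 * A + 8)) (hb : b ≤ 1 / L ^ (2 * A + 8))
    (hc : c ≤ 1 / L ^ (2 * A + 8)) (h8 : 8 * L ^ (A + 1) ≤ N) :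
    C * N * (1 / L ^ (A + 2) * L + L ^ 5 / (1 / L ^ (A + 2)) * (a + b + c)) + 4 * L ≤
      N / L ^ A := by
  have hL0 : 0 < L := by linarith
  have h1 : 1 / L ^ (A + 2) * L + L ^ 5 / (1 / L ^ (A + 2)) * (a + b + c) ≤ 4 / L ^ (A + 1) := by
    have h2 : L ^ 5 / (1 / L ^ (A + 2)) * (a + b + c) ≤
        L ^ 5 / (1 / L ^ (A + 2)) * (3 * (1 / L ^ (2 * A + 8))) :=
      mul_le_mul_of_nonneg_left (by linarith) (by positivity)
    have h3 : L ^ 5 / (1 / L ^ (A + 2)) * (3 * (1 / L ^ (2 * A + 8))) = 3 / L ^ (A + 1) := by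
      field_simp
      ring
    have h4 : 1 / L ^ (A + 2) * L = 1 / L ^ (A + 1) := by
      field_simp
      ring
    have h5 : (4 : ℝ) / L ^ (A + 1) = 1 / L ^ (A + 1) + 3 / L ^ (A + 1) := by ring
    linarith
  have h6 : C * N * (4 / L ^ (A + 1)) ≤ N / L ^ A / 2 := by
    have h7 : C * N * (4 / L ^ (A + 1)) = N / L ^ A * (4 * C / L) := by
      field_simp
      ring
    have h9 : 4 * C / L ≤ 1 / 2 := by
      rw [div_le_iff₀ hL0]
      linarith
    have h10 : 0 ≤ N / L ^ A := by positivity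
    rw [h7]
    nlinarith
  have h11 : 4 * L ≤ N / L ^ A / 2 := by
    rw [le_div_iff₀ two_pos, le_div_iff₀ (by positivity)]
    rw [pow_succ] at h8
    linarith
  have h12 := mul_le_mul_of_nonneg_left h1 (show 0 ≤ C * N by positivity)
  linarith

end RSw1

theorem sw1Of : Sw1Of := by
  rintro ⟨C, hC, q₀, hS⟩ hZ hN A B
  obtain ⟨c, hc, hZ⟩ := hZ (1 / (2 * ((B + (4 * A + 16) + 1 : ℕ) : ℝ))) (by positivity)
  have hc' : 0 < min c (3 / 10) := lt_min hc (by norm_num)
  filter_upwards [ev_log (8 * C), ev_log 16, ev_log ((q₀ : ℝ) ^ 2), ev_exp 1 B one_pos,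
    ev_exp 1 (2 * A + 8) one_pos, ev_exp 1 (2 * A + 8) hc', ev_pow 8 (A + 1), ev_pow 1 (A + 2),
    eventually_gt_atTop 0] with N h8C h16 hq0 hB hA1 hA2 hp1 hp2 hN0
  intro q _ χ hqL
  have hN1 : (1 : ℝ) ≤ N := by exact_mod_cast hN0
  have hsN : √(N : ℝ) ≤ N := by
    rw [Real.sqrt_le_left (by linarith)]
    nlinarith
  have hexp : Real.exp (Real.log N) = N := Real.exp_log (by linarith)
  generalize hL : Real.log N = L at *
  have hL0 : 0 < L := by linarith
  have hs4 : 4 ≤ √L := Real.le_sqrt_of_sq_le (by linarith)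
  have hss : √L * √L = L := Real.mul_self_sqrt hL0.le
  simp only [one_mul] at hB hA1 hA2 hp2
  obtain ⟨j, hj1, hj2⟩ : ∃ j : ℕ, 2 * √L ≤ j ∧ (j : ℝ) ≤ 2 * √L + 1 :=
    ⟨⌈2 * √L⌉₊, Nat.le_ceil _, (Nat.ceil_lt_add_one (by linarith)).le⟩
  have hq1 : 1 ≤ q := NeZero.one_le
  have hq1' : (1 : ℝ) ≤ q := by exact_mod_cast hq1
  have : NeZero (q * 2 ^ j) := ⟨by positivity⟩
  have hq : q ∣ q * 2 ^ j := dvd_mul_right _ _
  have hQ0 : q₀ ≤ q * 2 ^ j := by
    have h1 : (q₀ : ℝ) ≤ √L := Real.le_sqrt_of_sq_le hq0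
    have h2 : q₀ ≤ j := by exact_mod_cast (show (q₀ : ℝ) ≤ j by linarith)
    calc q₀ ≤ j := h2
      _ ≤ 2 ^ j := Nat.lt_two_pow_self.le
      _ ≤ q * 2 ^ j := Nat.le_mul_of_pos_left _ hq1
  have hQN : q * 2 ^ j ≤ N := by
    have h1 : (2 : ℝ) ^ j ≤ Real.exp j := by
      rw [← Real.exp_one_pow]
      exact pow_le_pow_left₀ two_pos.le (by linarith [Real.add_one_le_exp (1 : ℝ)]) j
    have h2 : ((q * 2 ^ j : ℕ) : ℝ) ≤ N := by
      push_cast
      calc (q : ℝ) * 2 ^ j ≤ Real.exp √L * Real.exp j :=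
            mul_le_mul (hqL.trans hB) h1 (by positivity) (by positivity)
        _ ≤ Real.exp L := by
            rw [← Real.exp_add]
            exact Real.exp_le_exp.2 (by nlinarith)
        _ = N := hexp
    exact_mod_cast h2
  have hl : √L ≤ Real.log ((q * 2 ^ j : ℕ) : ℝ) := by
    push_cast
    rw [Real.log_mul (by positivity) (by positivity), Real.log_pow]
    have h1 := Real.log_nonneg hq1'
    have h2 := Real.log_two_gt_d9
    nlinarith
  have hP : (1 : ℝ) ≤ L ^ (A + 1) := one_le_pow₀ (by linarith)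
  have hκ : 1 / L ^ (A + 2) ≤ 1 / 2 := by
    refine one_div_le_one_div_of_le two_pos ?_
    rw [pow_succ]
    nlinarith
  have hκN : 1 ≤ 1 / L ^ (A + 2) * N := by
    rw [one_div_mul_eq_div, le_div_iff₀ (by positivity)]
    linarith
  have hδ : min c (3 / 10) / √L ≤ 3 / 10 :=
    (div_le_self hc'.le (by linarith)).trans (min_le_right _ _)
  have key := hS (q * 2 ^ j) (DirichletCharacter.changeLevel hq χ) N (1 / L ^ (A + 2))
    (min c (3 / 10) / √L) (L ^ (4 * A + 16)) hQ0 hQN (by positivity) hκ hκN hδ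
    (one_le_pow₀ (by linarith)) fun ρ h0 hre him =>
      (RSw1.zf hc (by linarith) (by linarith) hqL (abs_nonneg _) him).trans
        (hZ q _ hq χ ρ h0 hre)
  have her := RSw1.er_le hN hq χ N
  rw [hL] at key her
  refine (her.trans (add_le_add_left key _)).trans
    (RSw1.fin hC h8C (by linarith) ?_ ?_ ?_ (hp1.trans hsN))
  · refine RSw1.exp_neg_le (by positivity) (hA2.trans_eq ?_)
    congr 1
    field_simp
    nlinarith
  · rw [show L ^ (4 * A + 16) = (L ^ (2 * A + 8)) ^ 2 by ring, Real.sqrt_sq (by positivity)]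
  · refine le_trans (Real.exp_le_exp.2 ?_) (RSw1.exp_neg_le (by positivity) hA1)
    have h1 : L / Real.log ((q * 2 ^ j : ℕ) : ℝ) ≤ √L := by
      rw [div_le_iff₀ (by linarith)]
      nlinarith
    linarith

end Pool.Agent.MP_62c071_al.V
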