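import Pool.Agent.MP_62c071_al.V.Kit

/-! The theorem of Siegel and Walfisz for additive characters. -/

set_option autoImplicit false

namespace Pool.Agent.MP_62c071_al.V

open Finset ArithmeticFunction Filter
open Pool.Agent.MP_c5bf7b_nt.H38 (Ch)

namespace RSw2

open Classical in
theorem seg (hc : ChS) (hn : NcS) (q : ℕ) [NeZero q] (h : ℤ) (hh : h.natAbs.Coprime q) (N : ℕ)
    (E : ℝ) (hE : ∀ χ : Ch q, Er χ N ≤ E) :
    ‖∑ n ∈ Ioc 0 N, (La n * ee (n * h / q) - mf q)‖ ≤ q * E + q * Real.log N := by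
  obtain ⟨t, h1, h2, h3⟩ := hc q h hh
  have e0 : Ioc 0 N = Icc 1 N := rfl
  have e1 : ∀ n : ℕ, La n * ee (n * h / q) = ∑ χ : Ch q, t χ * (La n * χ n) +
      if ¬ n.Coprime q then La n * ee (n * h / q) else 0 := fun n => by
    by_cases c : n.Coprime q
    · rw [if_neg (not_not.2 c), add_zero, h3 n c, mul_sum]
      exact sum_congr rfl fun χ _ => by ring
    · rw [if_pos c, sum_eq_zero, zero_add]
      intro χ _
      rw [χ.map_nonunit (fun u => c ((ZMod.isUnit_iff_coprime n q).1 u)), mul_zero, mul_zero]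
  have e2 : ∑ n ∈ Icc 1 N, (La n * ee (n * h / q) - mf q) =
      ∑ χ : Ch q, t χ * (∑ n ∈ Icc 1 N, La n * χ n - if χ = 1 then (N : ℂ) else 0) +
        ∑ n ∈ (Icc 1 N).filter (fun n => ¬ n.Coprime q), La n * ee (n * h / q) := by
    rw [sum_sub_distrib, sum_congr rfl fun n _ => e1 n, sum_add_distrib, sum_comm, sum_filter]
    simp only [mul_sub, sum_sub_distrib, mul_sum, mul_ite, mul_zero, sum_ite_eq', mem_univ, if_true,
      h2, sum_const, Nat.card_Icc, Nat.add_sub_cancel, nsmul_eq_mul]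
    ring
  have hE0 : 0 ≤ E := (norm_nonneg _).trans (hE 1)
  rw [e0, e2]
  refine (norm_add_le _ _).trans (add_le_add ((norm_sum_le _ _).trans ?_)
    ((norm_sum_le _ _).trans ?_))
  · refine le_trans (sum_le_sum fun χ _ => ?_)
      ((sum_mul _ _ E).ge.trans (mul_le_mul_of_nonneg_right h1 hE0))
    rw [norm_mul]
    refine mul_le_mul_of_nonneg_left (le_of_eq_of_le ?_ (hE χ)) (norm_nonneg _)
    unfold Er
    congr
  · simpa only [norm_mul, norm_ee, mul_one, norm_La] using hn q N NeZero.one_le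

end RSw2

theorem sw2Of : Sw2Of := by
  intro hs hc hn A B
  filter_upwards [hs (A + B + 1) B, ev_log 4, ev_pow 4 (A + B + 1), eventually_gt_atTop 0]
    with M h1 h2 h3 h0 q h a b hq hqB hh hb
  have hL : 0 < Real.log M := by linarith
  rcases le_total b a with hab | hab
  · rw [Ioc_eq_empty_of_le hab, sum_empty, norm_zero]
    positivity
  have : NeZero q := ⟨by omega⟩
  have hM : √(M : ℝ) ≤ M := by
    rw [Real.sqrt_le_left (Nat.cast_nonneg M)]
    have : (1 : ℝ) ≤ M := by exact_mod_cast h0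
    nlinarith
  have key : ∀ N ≤ M, ‖∑ n ∈ Ioc 0 N, (La n * ee (n * h / q) - mf q)‖ ≤
      M / Real.log M ^ A / 2 := fun N hN => by
    refine (RSw2.seg hc hn q h hh N _ fun χ => h1 q χ N hqB hN).trans ?_
    have hl : Real.log N ≤ Real.log M := by
      rcases Nat.eq_zero_or_pos N with rfl | hN0
      · simpa using hL.le
      · exact Real.log_le_log (by exact_mod_cast hN0) (by exact_mod_cast hN)
    have a1 : (q : ℝ) * (M / Real.log M ^ (A + B + 1)) ≤ M / Real.log M ^ A / 4 := by
      calc _ ≤ Real.log M ^ B * (M / Real.log M ^ (A + B + 1)) := by gcongr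
        _ = M / Real.log M ^ A / Real.log M := by field_simp; ring
        _ ≤ _ := by gcongr
    have a2 : (q : ℝ) * Real.log N ≤ M / Real.log M ^ A / 4 := by
      rw [le_div_iff₀ (by norm_num), le_div_iff₀ (by positivity)]
      calc _ ≤ Real.log M ^ B * Real.log M * 4 * Real.log M ^ A := by
            have := Real.log_natCast_nonneg N
            gcongr
        _ = 4 * Real.log M ^ (A + B + 1) := by ring
        _ ≤ _ := h3.trans hM
    linarith
  have e := sum_Ioc_consecutive (fun n : ℕ => La n * ee (n * h / q) - mf q) (Nat.zero_le a) hab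
  rw [eq_sub_of_add_eq' e]
  linarith [norm_sub_le (∑ n ∈ Ioc 0 b, (La n * ee (n * h / q) - mf q))
    (∑ n ∈ Ioc 0 a, (La n * ee (n * h / q) - mf q)), key b hb, key a (hab.trans hb)]

end Pool.Agent.MP_62c071_al.V
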