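import Pool.Agent.MP_62c071_al.V.Kit

/-! Row Swu: the uniform form of the prime number theorem for characters. -/

set_option autoImplicit false

namespace Pool.Agent.MP_62c071_al.V

open Finset ArithmeticFunction Filter
open Pool.Agent.MP_c5bf7b_nt.H38 (Ch)

namespace RSwu

theorem er_le {q : ℕ} (χ : Ch q) {N M : ℕ} (h : N ≤ M) : Er χ N ≤ N * (Real.log M + 1) := by
  have h1 : ‖∑ n ∈ Icc 1 N, La n * χ n‖ ≤ N * Real.log M := by
    refine (norm_sum_le _ _).trans ((sum_le_card_nsmul _ _ (Real.log M) fun n hn => ?_).trans ?_)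
    · rw [norm_mul, norm_La]
      exact (mul_le_of_le_one_right vonMangoldt_nonneg (χ.norm_le_one _)).trans
        (lam_le ((mem_Icc.1 hn).2.trans h))
    · simp
  refine (norm_sub_le _ _).trans ?_
  rw [mul_add, mul_one]
  refine add_le_add h1 ?_
  split_ifs <;> simp

end RSwu

theorem swuOf : SwuOf := by
  intro h A B
  obtain ⟨N₀, h0⟩ := eventually_atTop.1 (h (A + 1) (2 * B))
  filter_upwards [ev_log 4, ev_log (2 ^ (A + 1)), ev_win 1 0 (A + 2), ev_win N₀ 0 (A + 2),
    eventually_gt_atTop 0] with M h4 hA w1 w2 hM q _ χ N hq hN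
  have hL : 0 < Real.log M := by linarith
  by_cases hs : N * (Real.log M + 1) ≤ M / Real.log M ^ A
  · exact (RSwu.er_le χ hN).trans hs
  have h1 : (M : ℝ) ≤ N * Real.log M ^ (A + 2) := by
    have h2 := (div_lt_iff₀ (pow_pos hL A)).1 (not_le.1 hs)
    refine h2.le.trans ?_
    rw [mul_assoc, pow_add, mul_comm (Real.log M ^ A)]
    gcongr
    nlinarith
  have h2 : √(M : ℝ) ≤ N := by simpa using (w1 N h1).2
  have h3 : N₀ ≤ N := by simpa using (w2 N h1).1
  have h5 : Real.log M ≤ 2 * Real.log N := by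
    have := Real.log_le_log (Real.sqrt_pos.2 (by exact_mod_cast hM)) h2
    rw [Real.log_sqrt (Nat.cast_nonneg M)] at this
    linarith
  have h6 : 2 ≤ Real.log N := by linarith
  refine (h0 N h3 q χ (hq.trans ?_)).trans ?_
  · rw [pow_mul]
    gcongr
    nlinarith
  · have h7 : Real.log M ^ A ≤ Real.log N ^ (A + 1) := by
      refine le_of_mul_le_mul_left ?_ hL
      rw [← pow_succ']
      refine (pow_le_pow_left₀ hL.le h5 _).trans ?_
      rw [mul_pow]
      gcongr
    gcongr

end Pool.Agent.MP_62c071_al.V
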