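import Pool.Agent.MP_62c071_al.V.Kit

/-! The sum of `mn (X / d) (α d)`. -/

set_option autoImplicit false

namespace Pool.Agent.MP_62c071_al.V

open Finset ArithmeticFunction Filter

namespace RT1

theorem nd_rat {h : ℤ} {q d : ℕ} (hc : h.natAbs.Coprime q) (hd : 1 ≤ d) (hdq : d < q) :
    1 / (q : ℝ) ≤ nd ((h : ℝ) / q * d) := by
  have hq : (0 : ℝ) < q := by exact_mod_cast (by omega : 0 < q)
  set n : ℤ := round ((h : ℝ) / q * d) with hn
  have h1 : h * d - n * q ≠ 0 := by
    intro h0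
    have h2 : (q : ℤ) ∣ h * d := ⟨n, by linarith⟩
    have h3 : q ∣ h.natAbs * d := by
      have := Int.natAbs_dvd_natAbs.2 h2
      simpa [Int.natAbs_mul] using this
    have h4 : q ∣ d := hc.symm.dvd_of_dvd_mul_left h3
    have := Nat.le_of_dvd hd h4
    omega
  have h2 : (1 : ℝ) ≤ |((h * d - n * q : ℤ) : ℝ)| := by
    exact_mod_cast Int.one_le_abs h1
  have h3 : (h : ℝ) / q * d - n = ((h * d - n * q : ℤ) : ℝ) / q := by
    push_cast
    field_simp
  rw [nd, ← hn, h3, abs_div, abs_of_pos hq]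
  gcongr

theorem nd_low {α : ℝ} {h : ℤ} {q d : ℕ} (ha : Ap α h q) (hd : 1 ≤ d) (hdq : 2 * d ≤ q) :
    1 / (2 * (q : ℝ)) ≤ nd (α * d) := by
  have hq : (0 : ℝ) < q := by exact_mod_cast ha.1
  have h1 := nd_rat ha.2.1 hd (by omega)
  have h2 := nd_le_add ((h : ℝ) / q * d) (α * d)
  have h3 : |(h : ℝ) / q * d - α * d| ≤ 1 / (2 * (q : ℝ)) := by
    rw [← sub_mul, abs_mul, abs_sub_comm, Nat.abs_cast]
    have h4 : 2 * (d : ℝ) ≤ q := by exact_mod_cast hdq
    calc _ ≤ 1 / (q : ℝ) ^ 2 * (q / 2) := by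
          gcongr
          · exact ha.2.2
          · linarith
      _ = _ := by field_simp
  have h5 : 1 / (q : ℝ) = 1 / (2 * (q : ℝ)) + 1 / (2 * (q : ℝ)) := by
    field_simp
    ring
  linarith

theorem split (f : ℕ → ℝ) (m q n : ℕ) :
    ∑ d ∈ Ioc 0 (m + n * q), f d =
      ∑ d ∈ Ioc 0 m, f d + ∑ i ∈ range n, ∑ d ∈ Ioc (m + i * q) (m + i * q + q), f d := by
  induction n with
  | zero => simp
  | succ n ih =>
    rw [sum_range_succ, ← add_assoc, ← ih, sum_Ioc_consecutive f (Nat.zero_le _) (Nat.le_add_right _ _)]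
    congr 2
    ring

theorem harm (n : ℕ) : ∑ i ∈ range n, 1 / ((i : ℝ) + 1) ≤ 1 + Real.log n := by
  have h := harmonic_le_one_add_log n
  rw [harmonic] at h
  push_cast at h
  simpa [one_div] using h

end RT1

open RT1 in
theorem t1Of : T1Of := by
  rintro ⟨C, hC, hM⟩
  refine ⟨8 * C, by linarith, fun α X h q D ha hX hD => ?_⟩
  have hq1 : 1 ≤ q := ha.1
  have hq : (0 : ℝ) < q := by exact_mod_cast hq1
  have hlq : 0 ≤ Real.log q := Real.log_natCast_nonneg q
  have hlD : 0 ≤ Real.log D := Real.log_natCast_nonneg D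
  set L : ℝ := 1 + Real.log q + Real.log D with hL
  set m := q / 2 with hm
  set n := D / q + 1 with hn
  have hDn : D < n * q := by
    rw [hn, mul_comm]
    exact Nat.lt_mul_div_succ D hq1
  have hnq : n * q ≤ D + q := by
    rw [hn, add_mul, one_mul]
    exact Nat.add_le_add_right (Nat.div_mul_le_self D q) q
  have hnD : n ≤ 2 * D := by
    have := Nat.div_le_self D q
    omega
  have h0 : ∑ d ∈ Icc 1 D, mn (X / d) (α * d) ≤ ∑ d ∈ Ioc 0 (m + n * q), mn (X / d) (α * d) := by
    refine sum_le_sum_of_subset_of_nonneg (fun d hd => ?_) fun d _ _ => mn_nonneg (by positivity) _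
    rw [mem_Icc] at hd
    rw [mem_Ioc]
    omega
  have hA : ∑ d ∈ Ioc 0 m, mn (X / d) (α * d) ≤ 4 * C * q * L := by
    have h1 := hM α 0 q h q 0 m ha hq.le
    rw [zero_add] at h1
    refine le_trans (sum_le_sum fun d hd => ?_) (h1.trans ?_)
    · rw [mem_Ioc] at hd
      rw [add_zero]
      refine le_mn ?_ (two_nd_mn _ _) hq.le
      refine (mn_le_inv (by positivity) (by positivity) (nd_low ha hd.1 (by omega))).trans_eq ?_
      field_simp
    · have h2 : (m : ℝ) / q + 1 ≤ 2 := by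
        have h3 : (m : ℝ) ≤ q := by exact_mod_cast (by omega : m ≤ q)
        have h4 := (div_le_one hq).2 h3
        linarith
      have h3 : (q : ℝ) + q * (1 + Real.log q) ≤ 2 * q * L := by
        rw [hL]
        nlinarith [mul_nonneg hq.le hlq, mul_nonneg hq.le hlD]
      calc _ ≤ C * 2 * (2 * q * L) := by gcongr
        _ = _ := by ring
  have hB : ∀ i ∈ range n, ∑ d ∈ Ioc (m + i * q) (m + i * q + q), mn (X / d) (α * d) ≤
      4 * C * (X / q) * (1 / ((i : ℝ) + 1)) + 2 * C * q * L := by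
    intro i _
    have h1 := hM α 0 (2 * X / ((i + 1) * q)) h q (m + i * q) q ha (by positivity)
    refine le_trans (sum_le_sum fun d hd => ?_) (h1.trans ?_)
    · rw [mem_Ioc] at hd
      rw [add_zero]
      refine mn_mono (by positivity) ?_ _
      have h2 : (i + 1) * q ≤ 2 * d := by
        have h3 : q ≤ 2 * m + 1 := by omega
        have h4 := hd.1
        rw [add_mul, one_mul]
        omega
      have h3 : ((i : ℝ) + 1) * q ≤ 2 * d := by exact_mod_cast h2
      have h4 : (0 : ℝ) < d := by exact_mod_cast (by omega : 0 < d)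
      rw [div_le_div_iff₀ h4 (by positivity)]
      nlinarith [mul_le_mul_of_nonneg_left h3 hX]
    · rw [div_self hq.ne']
      have h3 : (q : ℝ) * (1 + Real.log q) ≤ q * L := by
        rw [hL]
        nlinarith [mul_nonneg hq.le hlD]
      calc _ ≤ C * (1 + 1) * (2 * X / ((i + 1) * q) + q * L) := by gcongr
        _ = _ := by
          field_simp
          ring
  have hH : ∑ i ∈ range n, 1 / ((i : ℝ) + 1) ≤ 2 * L := by
    refine (harm n).trans ?_
    have hD0 : (0 : ℝ) < D := by exact_mod_cast hD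
    have h1 : Real.log n ≤ Real.log (2 * D) :=
      Real.log_le_log (by exact_mod_cast Nat.succ_pos (D / q)) (by exact_mod_cast hnD)
    rw [Real.log_mul two_ne_zero hD0.ne'] at h1
    have h2 := Real.log_two_lt_d9
    rw [hL]
    linarith
  have hL0 : 0 ≤ L := by
    rw [hL]
    linarith
  have hS := sum_le_sum hB
  rw [sum_add_distrib, ← mul_sum, sum_const, card_range, nsmul_eq_mul] at hS
  have h5 : (n : ℝ) * q ≤ D + q := by exact_mod_cast hnq
  have h6 : 4 * C * (X / q) * ∑ i ∈ range n, 1 / ((i : ℝ) + 1) ≤ 4 * C * (X / q) * (2 * L) := by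
    gcongr
  have h7 : (n : ℝ) * (2 * C * q * L) ≤ 2 * C * L * (D + q) := by
    calc _ = 2 * C * L * (n * q) := by ring
      _ ≤ _ := by gcongr
  have h8 : 0 ≤ C * L * D := by positivity
  have h9 : 0 ≤ C * L * q := by positivity
  rw [split] at h0
  nlinarith

end Pool.Agent.MP_62c071_al.V
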