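import Pool.Agent.MP_62c071_al.V.Kit

/-! The bilinear estimate on a dyadic block. -/

set_option autoImplicit false

namespace Pool.Agent.MP_62c071_al.V

open Finset ArithmeticFunction Filter

namespace RT2

/-- the inner sum over a fixed range -/
theorem inner_eq (α : ℝ) (b : ℕ → ℂ) {K m : ℕ} (X₁ X₂ : ℕ) (hK : 1 ≤ K) (hm : K < m) :
    ∑ k ∈ Ioc (X₁ / m) (X₂ / m), b k * ee (α * (m * k)) =
      ∑ k ∈ Ioc 0 (X₂ / K), if X₁ < m * k ∧ m * k ≤ X₂ then b k * ee (α * (m * k)) else 0 := by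
  rw [← sum_filter]
  refine sum_congr ?_ fun _ _ => rfl
  have hm0 : 0 < m := by omega
  ext k
  simp only [mem_Ioc, mem_filter]
  rw [Nat.div_lt_iff_lt_mul hm0, Nat.le_div_iff_mul_le hm0, Nat.le_div_iff_mul_le hK, mul_comm m k]
  constructor
  · rintro ⟨h1, h2⟩
    refine ⟨⟨Nat.pos_of_ne_zero ?_, (Nat.mul_le_mul_left k hm.le).trans h2⟩, h1, h2⟩
    rintro rfl
    simp at h1
  · exact fun h => h.2

/-- the sum over `m` for a fixed pair -/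
theorem pair_le (α : ℝ) {K K' k k' : ℕ} (X₁ X₂ : ℕ) (hK' : K' ≤ 2 * K) (hk : 0 < k)
    (hk' : 0 < k') :
    ‖∑ m ∈ Ioc K K', if (X₁ < m * k ∧ m * k ≤ X₂) ∧ (X₁ < m * k' ∧ m * k' ≤ X₂) then
      ee ((α * k + -(α * k')) * m) else 0‖ ≤ mn K (α * k + -(α * k')) := by
  rw [← sum_filter]
  have h : (Ioc K K').filter (fun m => (X₁ < m * k ∧ m * k ≤ X₂) ∧ (X₁ < m * k' ∧ m * k' ≤ X₂)) =
      Ioc (max K (max (X₁ / k) (X₁ / k'))) (min K' (min (X₂ / k) (X₂ / k'))) := by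
    ext m
    simp only [mem_Ioc, mem_filter, max_lt_iff, le_min_iff]
    rw [Nat.div_lt_iff_lt_mul hk, Nat.div_lt_iff_lt_mul hk', Nat.le_div_iff_mul_le hk,
      Nat.le_div_iff_mul_le hk']
    tauto
  rw [h]
  refine geo _ _ _ ?_
  have h1 := le_max_left K (max (X₁ / k) (X₁ / k'))
  have h2 := min_le_left K' (min (X₂ / k) (X₂ / k'))
  exact_mod_cast (by omega)

theorem sq_sum_le (α : ℝ) (b : ℕ → ℂ) {K K' : ℕ} (X₁ X₂ : ℕ) (hK : 1 ≤ K) (hK' : K' ≤ 2 * K)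
    (hb : ∀ k, ‖b k‖ ≤ 1) :
    ∑ m ∈ Ioc K K', ‖∑ k ∈ Ioc (X₁ / m) (X₂ / m), b k * ee (α * (m * k))‖ ^ 2 ≤
      ∑ k' ∈ Ioc 0 (X₂ / K), ∑ k ∈ Ioc 0 (X₂ / K), mn K (α * k + -(α * k')) := by
  have h1 : ((∑ m ∈ Ioc K K', ‖∑ k ∈ Ioc (X₁ / m) (X₂ / m), b k * ee (α * (m * k))‖ ^ 2 : ℝ) : ℂ) =
      ∑ k' ∈ Ioc 0 (X₂ / K), ∑ k ∈ Ioc 0 (X₂ / K), b k * (starRingEnd ℂ) (b k') *
        ∑ m ∈ Ioc K K', if (X₁ < m * k ∧ m * k ≤ X₂) ∧ (X₁ < m * k' ∧ m * k' ≤ X₂) then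
          ee ((α * k + -(α * k')) * m) else 0 := by
    simp only [mul_sum]
    rw [Complex.ofReal_sum]
    conv_rhs => enter [2, k']; rw [sum_comm]
    rw [sum_comm]
    refine sum_congr rfl fun m hm => ?_
    rw [Complex.ofReal_pow, ← Complex.mul_conj', inner_eq α b X₁ X₂ hK (mem_Ioc.1 hm).1, map_sum,
      mul_sum]
    refine sum_congr rfl fun k' _ => ?_
    rw [sum_mul]
    refine sum_congr rfl fun k _ => ?_
    by_cases h : X₁ < m * k ∧ m * k ≤ X₂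
    · by_cases h' : X₁ < m * k' ∧ m * k' ≤ X₂
      · rw [if_pos h, if_pos h', if_pos ⟨h, h'⟩, map_mul, ← ee_neg,
          show (α * k + -(α * k')) * m = α * (m * k) + -(α * (m * k')) by ring, ee_add]
        ring
      · simp [h']
    · simp [h]
  have h2 := congrArg norm h1
  rw [Complex.norm_real, Real.norm_of_nonneg (sum_nonneg fun _ _ => by positivity)] at h2
  rw [h2]
  refine (norm_sum_le _ _).trans (sum_le_sum fun k' hk' => ?_)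
  refine (norm_sum_le _ _).trans (sum_le_sum fun k hk => ?_)
  rw [norm_mul, norm_mul, Complex.norm_conj]
  have h3 := pair_le α X₁ X₂ hK' (mem_Ioc.1 hk).1 (mem_Ioc.1 hk').1
  refine le_trans ?_ h3
  exact mul_le_of_le_one_left (norm_nonneg _) (mul_le_one₀ (hb k) (norm_nonneg _) (hb k'))

end RT2

theorem t2Of : T2Of := by
  rintro ⟨C, hC, hM⟩
  refine ⟨C, hC, fun α h q K K' X₁ X₂ a b hA hK hK' ha hb => ?_⟩
  have hq : (1 : ℝ) ≤ q := by exact_mod_cast hA.1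
  have hK0 : (0 : ℝ) < K := by exact_mod_cast hK
  have hl : 0 ≤ Real.log q := Real.log_natCast_nonneg q
  have h1 : ‖Bi α a b K K' X₁ X₂‖ ≤
      ∑ m ∈ Ioc K K', ‖∑ k ∈ Ioc (X₁ / m) (X₂ / m), b k * ee (α * (m * k))‖ := by
    refine (norm_sum_le _ _).trans (sum_le_sum fun m _ => ?_)
    rw [norm_mul]
    exact mul_le_of_le_one_left (norm_nonneg _) (ha m)
  have h2 := sq_sum_le_card_mul_sum_sq (s := Ioc K K')
    (f := fun m => ‖∑ k ∈ Ioc (X₁ / m) (X₂ / m), b k * ee (α * (m * k))‖)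
  have h3 : ((Ioc K K').card : ℝ) ≤ K := by
    rw [Nat.card_Ioc]
    exact_mod_cast (by omega)
  have h4 := RT2.sq_sum_le α b X₁ X₂ hK hK' hb
  have h5 : ∑ k' ∈ Ioc 0 (X₂ / K), ∑ k ∈ Ioc 0 (X₂ / K), mn K (α * k + -(α * k')) ≤
      (X₂ / K : ℕ) * (C * ((X₂ / K : ℕ) / q + 1) * (K + q * (1 + Real.log q))) := by
    refine (sum_le_card_nsmul _ _ _ fun k' _ => ?_).trans_eq
      (by rw [Nat.card_Ioc, nsmul_eq_mul]; rfl)
    have h6 := hM α (-(α * k')) K h q 0 (X₂ / K) hA hK0.le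
    rwa [zero_add] at h6
  have h7 : ((X₂ / K : ℕ) : ℝ) ≤ X₂ / K := Nat.cast_div_le
  have h8 : (K : ℝ) * (X₂ / K : ℕ) ≤ X₂ := by exact_mod_cast Nat.mul_div_le X₂ K
  have h9 : ((X₂ / K : ℕ) : ℝ) / q ≤ X₂ / (K * q) := by
    rw [← div_div]
    gcongr
  calc ‖Bi α a b K K' X₁ X₂‖ ^ 2
      ≤ (∑ m ∈ Ioc K K', ‖∑ k ∈ Ioc (X₁ / m) (X₂ / m), b k * ee (α * (m * k))‖) ^ 2 := by gcongr
    _ ≤ _ := h2
    _ ≤ K * ((X₂ / K : ℕ) * (C * ((X₂ / K : ℕ) / q + 1) * (K + q * (1 + Real.log q)))) :=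
      mul_le_mul h3 (h4.trans h5) (sum_nonneg fun _ _ => by positivity) hK0.le
    _ = C * (K * (X₂ / K : ℕ)) * ((X₂ / K : ℕ) / q + 1) * (K + q * (1 + Real.log q)) := by ring
    _ ≤ _ := by gcongr

end Pool.Agent.MP_62c071_al.V
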