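import Pool.Agent.MP_62c071_al.V.Kit

/-! The bilinear bound summed over dyadic blocks. -/

set_option autoImplicit false

namespace Pool.Agent.MP_62c071_al.V

open Finset

namespace RTd

theorem num {C X q U K l L N : ℝ} (hC : 1 ≤ C) (hq : 1 ≤ q) (hU : 1 ≤ U) (hX : 0 ≤ X)
    (hK : U ≤ K) (hKU : K * U ≤ X) (hl : 1 ≤ l) (hL : l ≤ L)
    (h : N ^ 2 ≤ C * X * (X / (K * q) + 1) * (K + q * l)) :
    N ≤ 2 * C * L * (X / √q + X / √U + √(X * q)) := by
  have hK0 : 0 < K := by linarith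
  have hU0 : 0 < U := by linarith
  have hq0 : 0 < q := by linarith
  have e1 : (X / (K * q) + 1) * (K + q * l) = X / q + X / K * l + K + q * l := by
    field_simp
    ring
  have h1 : X / K ≤ X / U := by gcongr
  have h2 : K ≤ X / U := by rwa [le_div_iff₀ hU0]
  have h3 : 0 ≤ X / q := by positivity
  have h4 : 0 ≤ X / U := by positivity
  have h5 : X / q + X / K * l + K + q * l ≤ 2 * l * (X / q + X / U + q) := by
    nlinarith [mul_le_mul_of_nonneg_right h1 (show 0 ≤ l by linarith),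
      mul_le_mul_of_nonneg_left hl h3, mul_le_mul_of_nonneg_left hl h4,
      mul_nonneg hq0.le (show 0 ≤ l by linarith)]
  have s1 : (X / √q) ^ 2 = X * (X / q) := by
    rw [div_pow, Real.sq_sqrt hq0.le]
    ring
  have s2 : (X / √U) ^ 2 = X * (X / U) := by
    rw [div_pow, Real.sq_sqrt hU0.le]
    ring
  have s3 : √(X * q) ^ 2 = X * q := Real.sq_sqrt (by positivity)
  have p1 : 0 ≤ X / √q := by positivity
  have p2 : 0 ≤ X / √U := by positivity
  have p3 : 0 ≤ √(X * q) := by positivity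
  generalize X / √q = u at *
  generalize X / √U = v at *
  generalize √(X * q) = w at *
  have h6 : X * (X / q + X / U + q) ≤ (u + v + w) ^ 2 := by
    nlinarith [mul_nonneg p1 p2, mul_nonneg p1 p3, mul_nonneg p2 p3]
  have h7 : 1 ≤ 2 * C * L := by nlinarith
  have h8 : 2 * C * l ≤ (2 * C * L) ^ 2 := by nlinarith
  refine le_of_sq_le_sq ?_ (by positivity)
  calc N ^ 2 ≤ C * X * (X / q + X / K * l + K + q * l) := by rwa [mul_assoc, e1] at h
    _ ≤ C * X * (2 * l * (X / q + X / U + q)) := by gcongr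
    _ = 2 * C * l * (X * (X / q + X / U + q)) := by ring
    _ ≤ (2 * C * L) ^ 2 * (u + v + w) ^ 2 := by gcongr
    _ = _ := by ring

theorem zero (α : ℝ) (a b : ℕ → ℂ) {U K K' X₁ X₂ : ℕ} (hb : ∀ k, k ≤ U → b k = 0)
    (h : X₂ ≤ K * U) : Bi α a b K K' X₁ X₂ = 0 := by
  refine sum_eq_zero fun m hm => ?_
  rw [sum_eq_zero, mul_zero]
  intro k hk
  rw [hb k ((mem_Ioc.1 hk).2.trans (Nat.div_le_of_le_mul
    (h.trans (Nat.mul_le_mul_right U (mem_Ioc.1 hm).1.le)))), zero_mul]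

theorem blocks (α : ℝ) (a b : ℕ → ℂ) {U X₁ X₂ : ℕ} {B : ℝ} (hB : 0 ≤ B)
    (h : ∀ K K', U ≤ K → K' ≤ 2 * K → ‖Bi α a b K K' X₁ X₂‖ ≤ B) (n : ℕ) :
    ‖Bi α a b U (min (2 ^ n * U) X₂) X₁ X₂‖ ≤ n * B := by
  induction n with
  | zero => simp [Bi]
  | succ n ih =>
    have h1 : U ≤ 2 ^ n * U := Nat.le_mul_of_pos_left U (by positivity)
    have h2 : 2 ^ (n + 1) * U = 2 * (2 ^ n * U) := by ring
    rcases le_total X₂ (2 ^ n * U) with h3 | h3
    · rw [min_eq_right h3] at ih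
      rw [min_eq_right (by omega)]
      push_cast
      linarith
    · rw [min_eq_left h3] at ih
      have h4 := h (2 ^ n * U) (min (2 ^ (n + 1) * U) X₂) h1 (by omega)
      have h5 : Bi α a b U (min (2 ^ (n + 1) * U) X₂) X₁ X₂ = Bi α a b U (2 ^ n * U) X₁ X₂ +
          Bi α a b (2 ^ n * U) (min (2 ^ (n + 1) * U) X₂) X₁ X₂ :=
        (sum_Ioc_consecutive _ h1 (by omega)).symm
      rw [h5]
      push_cast
      linarith [norm_add_le (Bi α a b U (2 ^ n * U) X₁ X₂)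
        (Bi α a b (2 ^ n * U) (min (2 ^ (n + 1) * U) X₂) X₁ X₂)]

theorem cnt {X : ℕ} (hX : 1 ≤ X) : ((Nat.log 2 X + 1 : ℕ) : ℝ) ≤ 2 * (1 + Real.log X) := by
  have h1 : ((2 : ℝ)) ^ Nat.log 2 X ≤ X := by exact_mod_cast Nat.pow_log_le_self 2 (by omega)
  have h2 := Real.log_le_log (by positivity) h1
  rw [Real.log_pow] at h2
  push_cast
  nlinarith [Real.log_two_gt_d9, (Nat.cast_nonneg (Nat.log 2 X) : (0 : ℝ) ≤ _)]

end RTd

theorem tdOf : TdOf := by
  rintro ⟨C, hC, H⟩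
  refine ⟨4 * C, by linarith, fun α h q U X₁ X₂ a b hA hU hq ha hb hb0 => ?_⟩
  have hq1 : 1 ≤ q := hA.1
  have hq2 : (1 : ℝ) ≤ q := by exact_mod_cast hq1
  have hL0 : 0 ≤ Real.log X₂ := Real.log_natCast_nonneg _
  have hB : 0 ≤ 2 * C * (1 + Real.log X₂) * (X₂ / √q + X₂ / √U + √(X₂ * q)) := by positivity
  have h1 := RTd.blocks α a b (U := U) (X₁ := X₁) (X₂ := X₂) hB (fun K K' hK hK' => by
    rcases le_total X₂ (K * U) with h2 | h2
    · rw [RTd.zero α a b hb0 h2, norm_zero]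
      exact hB
    · exact RTd.num (K := K) (l := 1 + Real.log q) hC hq2 (by exact_mod_cast hU)
        (Nat.cast_nonneg _) (by exact_mod_cast hK) (by exact_mod_cast h2)
        (by linarith [Real.log_natCast_nonneg q])
        (by linarith [Real.log_le_log (by linarith) (show (q : ℝ) ≤ X₂ by exact_mod_cast hq)])
        (H α h q K K' X₁ X₂ a b hA (hU.trans hK) hK' ha hb)) (Nat.log 2 X₂ + 1)
  have h3 : X₂ ≤ 2 ^ (Nat.log 2 X₂ + 1) * U :=
    (Nat.lt_pow_succ_log_self (by norm_num) X₂).le.trans (Nat.le_mul_of_pos_right _ hU)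
  rw [min_eq_right h3] at h1
  refine h1.trans ((mul_le_mul_of_nonneg_right (RTd.cnt (hq1.trans hq)) hB).trans_eq ?_)
  ring

end Pool.Agent.MP_62c071_al.V
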