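import Pool.Agent.MP_62c071_al.V.Kit
import Pool.Agent.MP_c5bf7b_nt.H38.Hf

/-! The test function of the explicit formula. -/

set_option autoImplicit false

namespace Pool.Agent.MP_62c071_al.V

open Complex
open Pool.Agent.MP_c5bf7b_nt.H38 (Lh)
open Pool.Agent.MP_c5bf7b_nt.H38.Hf (hd)

namespace RTest

/-- the trapezoid -/
noncomputable def tz (U η u : ℝ) : ℝ := max 0 (min 1 (min (u / η) ((U - u) / η)))

variable {l U η : ℝ}

theorem tz_cont (U η : ℝ) : Continuous (tz U η) := by
  unfold tz
  fun_prop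

theorem tz_left (hη : 0 < η) {u : ℝ} (h : u ≤ 0) : tz U η u = 0 :=
  max_eq_left ((min_le_right _ _).trans ((min_le_left _ _).trans
    (div_nonpos_of_nonpos_of_nonneg h hη.le)))

theorem tz_right (hη : 0 < η) {u : ℝ} (h : U ≤ u) : tz U η u = 0 :=
  max_eq_left ((min_le_right _ _).trans ((min_le_right _ _).trans
    (div_nonpos_of_nonpos_of_nonneg (by linarith) hη.le)))

theorem tz_mid (hη : 0 < η) {u : ℝ} (h : η ≤ u) (h' : u ≤ U - η) : tz U η u = 1 := by
  rw [tz, min_eq_left (le_min ((one_le_div hη).2 h) ((one_le_div hη).2 (by linarith))),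
    max_eq_right zero_le_one]

theorem tz_one (hη : 0 < η) (hU : 2 * η ≤ U) {u : ℝ} (h : 0 ≤ u) (h' : u ≤ η) :
    tz U η u = u / η := by
  rw [tz, min_eq_left (div_le_div_of_nonneg_right (by linarith) hη.le),
    min_eq_right ((div_le_one hη).2 h'), max_eq_right (div_nonneg h hη.le)]

theorem tz_two (hη : 0 < η) (hU : 2 * η ≤ U) {u : ℝ} (h : U - η ≤ u) (h' : u ≤ U) :
    tz U η u = (U - u) / η := by
  rw [tz, min_eq_right (div_le_div_of_nonneg_right (by linarith) hη.le),
    min_eq_right ((div_le_one hη).2 (by linarith)), max_eq_right (div_nonneg (by linarith) hη.le)]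

theorem lh_eq (hη : 0 < η) (hU : 2 * η ≤ U) {z : ℂ} (hz : z - l ≠ 0) :
    Lh (kt l U (tz U η)) z = (exp (-(l * U)) - exp (-(l * U) - (z - l) * η) -
      exp (-(l * U) - (z - l) * (U - η : ℝ)) + exp (-(l * U) - (z - l) * U)) /
        (η * (z - l) ^ 2) := by
  have hc : Continuous fun u : ℝ => (tz U η u : ℂ) * exp (-(z - l) * u) := by
    have := tz_cont U η
    fun_prop
  have h1 : Lh (kt l U (tz U η)) z =
      exp (-(l * U)) * ∫ u in (0 : ℝ)..U, (tz U η u : ℂ) * exp (-(z - l) * u) := by
    rw [Lh, ← intervalIntegral.integral_const_mul, intervalIntegral.integral_of_le (by linarith),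
      MeasureTheory.setIntegral_eq_of_subset_of_forall_sdiff_eq_zero measurableSet_Ioi
        (Set.Ioc_subset_Ioi_self : Set.Ioc 0 U ⊆ _) fun u hu => by
          simp [kt, tz_right hη (not_le.1 fun h' => hu.2 ⟨hu.1, h'⟩).le]]
    congr 1
    funext u
    rw [kt, ofReal_mul, ofReal_exp, mul_right_comm, mul_left_comm, ← exp_add, ← exp_add, mul_comm]
    congr 2
    push_cast
    ring
  have i : ∀ (a b : ℝ) (c s : ℂ), a ≤ b → (∀ u, a ≤ u → u ≤ b → (tz U η u : ℂ) = c + s * u) →
      ∫ u in a..b, (tz U η u : ℂ) * exp (-(z - l) * u) =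
        (-(c + s * b) * exp (-(z - l) * b) / (z - l) - s * exp (-(z - l) * b) / (z - l) ^ 2) -
        (-(c + s * a) * exp (-(z - l) * a) / (z - l) - s * exp (-(z - l) * a) / (z - l) ^ 2) := by
    intro a b c s hab h
    rw [← intervalIntegral.integral_eq_sub_of_hasDerivAt (fun u _ => hd (z - l) c s hz u)
      (Continuous.intervalIntegrable (by fun_prop) _ _)]
    refine intervalIntegral.integral_congr fun u hu => ?_
    rw [Set.uIcc_of_le hab] at hu
    simp only [h u hu.1 hu.2]
  have hη' : (η : ℂ) ≠ 0 := by exact_mod_cast hη.ne'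
  rw [h1, ← intervalIntegral.integral_add_adjacent_intervals (b := η)
      (hc.intervalIntegrable _ _) (hc.intervalIntegrable _ _),
    ← intervalIntegral.integral_add_adjacent_intervals (a := η) (b := U - η)
      (hc.intervalIntegrable _ _) (hc.intervalIntegrable _ _),
    i 0 η 0 (1 / η) hη.le fun u h h' => by rw [tz_one hη hU h h']; push_cast; ring,
    i η (U - η) 1 0 (by linarith) fun u h h' => by rw [tz_mid hη h h']; simp,
    i (U - η) U (U / η) (-1 / η) (by linarith) fun u h h' => by
      rw [tz_two hη hU h h']; push_cast; ring]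
  simp only [sub_eq_add_neg (-((l : ℂ) * U)), exp_add, neg_mul, ofReal_zero, mul_zero,
    exp_zero]
  generalize exp (-((z - l) * (U - η : ℝ))) = A
  push_cast
  field_simp
  ring

theorem real_bd {x a E : ℝ} (hx : 0 < x) (ha : 1 - x ≤ a) (ha' : a * (x + 1) ≤ 1) (h0 : 0 < E)
    (h1 : E ≤ 1) : |E * a - E - a + 1 - x| ≤ 2 * x ^ 2 + E * a * x := by
  have h2 : a ≤ 1 - x + x ^ 2 := by
    refine le_of_mul_le_mul_right (ha'.trans ?_) (by linarith : 0 < x + 1)
    nlinarith [pow_pos hx 3]
  have h3 : a ≤ 1 := by nlinarith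
  have h4 : E * (1 - a - a * x) ≤ x ^ 2 :=
    (mul_le_mul_of_nonneg_left (by nlinarith) h0.le).trans (mul_le_of_le_one_left (sq_nonneg x) h1)
  have h5 : E * (-x ^ 2) ≤ E * (a * x + 1 - a) := mul_le_mul_of_nonneg_left (by nlinarith) h0.le
  rw [abs_le]
  constructor <;> nlinarith [sq_nonneg x]

end RTest

open RTest

theorem test : TestS := by
  intro l U η hl hη hU
  refine ⟨tz U η, tz_cont U η, fun u => ⟨le_max_left _ _, max_le zero_le_one (min_le_left _ _)⟩,
    fun u => tz_left hη, fun u => tz_right hη, fun u => tz_mid hη, fun z hz => ?_, ?_⟩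
  · have h0 : z - l ≠ 0 := fun h => by
      have := congrArg re h
      simp at this
      linarith
    have b : ∀ c : ℝ, c ≤ U → ‖exp (-(l * U) - (z - l) * c)‖ ≤ Real.exp (-(U * z.re)) := by
      intro c hc
      rw [norm_exp]
      refine Real.exp_le_exp.2 ?_
      simp
      nlinarith
    have b0 := b 0 (by linarith)
    rw [ofReal_zero, mul_zero, sub_zero] at b0
    rw [lh_eq hη hU h0, norm_div, norm_mul, norm_pow, norm_real, Real.norm_of_nonneg hη.le]
    gcongr
    refine (norm_add_le _ _).trans ?_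
    refine (add_le_add_left ((norm_sub_le _ _).trans (add_le_add_left (norm_sub_le _ _) _)) _).trans ?_
    linarith [b η (by linarith), b (U - η) (by linarith), b U le_rfl]
  · have h0 : (0 : ℂ) - l ≠ 0 := by simpa using hl.ne'
    have hx := mul_pos hl hη
    have h1 := real_bd hx (a := Real.exp (-(l * η))) (E := Real.exp (-(l * (U - η))))
      (by linarith [Real.add_one_le_exp (-(l * η))])
      (by rw [Real.exp_neg, inv_mul_le_iff₀ (Real.exp_pos _), mul_one]; exact Real.add_one_le_exp _)
      (Real.exp_pos _) (Real.exp_le_one_iff.2 (by nlinarith))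
    have h2 : Real.exp (-(l * (U - η))) * Real.exp (-(l * η)) = Real.exp (-(l * U)) := by
      rw [← Real.exp_add]
      congr 1
      ring
    rw [h2] at h1
    have e : Lh (kt l U (tz U η)) 0 - 1 / l = (((Real.exp (-(l * U)) - Real.exp (-(l * (U - η))) -
        Real.exp (-(l * η)) + 1 - l * η) / (η * l ^ 2) : ℝ) : ℂ) := by
      have hη' : (η : ℂ) ≠ 0 := by exact_mod_cast hη.ne'
      have hl' : (l : ℂ) ≠ 0 := by exact_mod_cast hl.ne'
      rw [lh_eq hη hU h0, show -((l : ℂ) * U) - (0 - l) * η = -(l * (U - η)) by ring,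
        show -((l : ℂ) * U) - (0 - l) * (U - η : ℝ) = -(l * η) by push_cast; ring,
        show -((l : ℂ) * U) - (0 - l) * U = 0 by ring, exp_zero]
      push_cast
      field_simp
      ring
    rw [e, norm_real, Real.norm_eq_abs, abs_div, abs_of_pos (a := η * l ^ 2) (by positivity),
      div_le_iff₀ (by positivity)]
    refine h1.trans_eq ?_
    field_simp

end Pool.Agent.MP_62c071_al.V
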