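import Pool.Agent.MP_62c071_al.V.Kit

/-! The three primes from the model, the main term and the identity of Parseval. -/

set_option autoImplicit false

namespace Pool.Agent.MP_62c071_al.V

open Finset ArithmeticFunction Filter

namespace RThree

theorem sq_le {A : Finset ℕ} {M : ℕ} {y : ℝ} (h : ∀ a ∈ A, a ≤ M) (hy : (A.card : ℝ) ≤ y) :
    ∑ a ∈ A, ‖La a‖ ^ 2 ≤ y * Real.log M ^ 2 := by
  refine (sum_le_card_nsmul A _ (Real.log M ^ 2) fun a ha => ?_).trans ?_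
  · rw [norm_La]
    exact pow_le_pow_left₀ vonMangoldt_nonneg (lam_le (h a ha)) 2
  · rw [nsmul_eq_mul]
    gcongr

end RThree

open RThree in
theorem threeOf : ThreeOf := by
  intro hC hM hP hQ K
  filter_upwards [hC K, hM K, ev_win 25 3 K, ev_log 8] with M h1 h2 h3 h4 hodd Y Z hZ hZY hY
  by_contra hT
  obtain ⟨h5, h6⟩ := h3 Z hZ
  set L := Real.log M with hL
  have hL1 : 1 ≤ L := by linarith
  have hL3 : 1 ≤ L ^ 3 := one_le_pow₀ hL1
  have hZ1 : (1 : ℝ) ≤ Z := by linarith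
  have hY1 : (1 : ℝ) ≤ Y := hZ1.trans (by exact_mod_cast hZY)
  have hZ1' : 1 ≤ Z := by exact_mod_cast hZ1
  have hQ2 : 2 ≤ ⌊L ^ 8⌋₊ := Nat.le_floor (by
    have := le_self_pow₀ hL1 (n := 8) (by norm_num)
    push_cast
    linarith)
  have m := h2 hodd Y Z _ hZ hZY hY hQ2 (Nat.floor_le (by positivity))
  have p := hP (fun n => La n - Fm ⌊L ^ 8⌋₊ n) La La (Ioc Z (2 * Z)) (Ioc Y (2 * Y))
    (Ioc (M - 4 * Y - 1) (M - Y)) M _ (fun α => h1 Z α hZ (by omega)) (fun a ha b hb => by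
      rw [mem_Ioc] at ha hb ⊢
      omega)
  have e1 := sq_le (A := Ioc Y (2 * Y)) (M := M) (y := Y) (fun a ha => by
    rw [mem_Ioc] at ha
    omega) (by rw [Nat.card_Ioc]; exact_mod_cast (by omega : 2 * Y - Y ≤ Y))
  have e2 := sq_le (A := Ioc (M - 4 * Y - 1) (M - Y)) (M := M) (y := 4 * Y) (fun a ha => by
    rw [mem_Ioc] at ha
    omega) (by
      rw [Nat.card_Ioc]
      exact_mod_cast (by omega : M - Y - (M - 4 * Y - 1) ≤ 4 * Y))
  have e3 : √(∑ b ∈ Ioc Y (2 * Y), ‖La b‖ ^ 2) *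
      √(∑ c ∈ Ioc (M - 4 * Y - 1) (M - Y), ‖La c‖ ^ 2) ≤ 2 * Y * L ^ 2 := by
    rw [← Real.sqrt_mul (sum_nonneg fun _ _ => by positivity), Real.sqrt_le_left (by positivity)]
    calc _ ≤ (Y * L ^ 2) * (4 * Y * L ^ 2) :=
          mul_le_mul e1 e2 (sum_nonneg fun _ _ => by positivity) (by positivity)
      _ = _ := by ring
  have e4 : (Z : ℝ) / L ^ 3 * (2 * Y * L ^ 2) ≤ Y * Z / 4 := by
    have : (Z : ℝ) / L ^ 3 * (2 * Y * L ^ 2) = Y * Z * (2 / L) := by field_simp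
    rw [this, div_eq_mul_inv ((Y : ℝ) * Z)]
    refine mul_le_mul_of_nonneg_left ?_ (by positivity)
    rw [div_le_iff₀ (by linarith)]
    linarith
  rw [mul_assoc] at p
  have e5 := (Complex.abs_re_le_norm _).trans
    (p.trans ((mul_le_mul_of_nonneg_left e3 (by positivity)).trans e4))
  have e6 : (∑ a ∈ Ioc Z (2 * Z), ∑ b ∈ Ioc Y (2 * Y),
      (La a - Fm ⌊L ^ 8⌋₊ a) * La b * La (M - a - b)).re =
      ∑ a ∈ Ioc Z (2 * Z), ∑ b ∈ Ioc Y (2 * Y),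
        vonMangoldt a * vonMangoldt b * vonMangoldt (M - a - b) -
      (∑ a ∈ Ioc Z (2 * Z), ∑ b ∈ Ioc Y (2 * Y), Fm ⌊L ^ 8⌋₊ a * La b * La (M - a - b)).re := by
    simp only [sub_mul, sum_sub_distrib, Complex.sub_re]
    congr 1
    simp only [La, ← Complex.ofReal_mul, ← Complex.ofReal_sum, Complex.ofReal_re]
  rw [e6] at e5
  have e7 := hQ M Y Z hZY hY hT
  have e8 := (abs_le.1 e5).1
  have e9 : 0 < L ^ 3 * √M := by
    have : (0 : ℝ) < M := by exact_mod_cast (by omega : 0 < M)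
    positivity
  rw [← hL] at e7
  nlinarith [mul_le_mul_of_nonneg_left h6 (by linarith : (0 : ℝ) ≤ Y), mul_pos (by linarith : (0 : ℝ) < Y) e9]

theorem v3Of : V3Of := by
  intro h
  filter_upwards [h 17, ev_pow (2 * 2 ^ 16) 16, ev_log (2 * 2 ^ 16), eventually_ge_atTop 4]
    with M h1 h2 h3 h4 hodd
  set l := Nat.log 2 M with hl
  have hl2 : 2 ≤ l := (Nat.le_log_iff_pow_le (by norm_num) (by omega)).2 h4
  have hM : (1 : ℝ) ≤ M := by exact_mod_cast (by omega : 1 ≤ M)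
  have hl3 : (l : ℝ) ≤ 2 * Real.log M := by
    have a1 : ((2 ^ l : ℕ) : ℝ) ≤ M := by exact_mod_cast Nat.pow_log_le_self 2 (by omega : M ≠ 0)
    have a2 := Real.log_le_log (by positivity) a1
    rw [Nat.cast_pow, Real.log_pow, Nat.cast_ofNat] at a2
    nlinarith [Real.log_two_gt_d9, (Nat.cast_nonneg l : (0 : ℝ) ≤ l)]
  have hl4 : ((l ^ 16 : ℕ) : ℝ) ≤ 2 ^ 16 * Real.log M ^ 16 := by
    rw [Nat.cast_pow, ← mul_pow]
    gcongr
  have hs : √(M : ℝ) ≤ M := by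
    rw [Real.sqrt_le_left (by linarith)]
    nlinarith
  have p16 : 0 < l ^ 16 := by positivity
  have p6 : 0 < l ^ 6 := by positivity
  have a1 := Nat.lt_div_mul_add (a := M) p16
  have a2 := Nat.div_mul_le_self M (l ^ 16)
  have b1 := Nat.lt_div_mul_add (a := M) p6
  have b2 := Nat.div_mul_le_self M (l ^ 6)
  have c1 : M / l ^ 16 ≤ M / l ^ 6 :=
    Nat.div_le_div_left (Nat.pow_le_pow_right (by omega) (by norm_num)) p6
  have c2 : 64 ≤ l ^ 6 := Nat.pow_le_pow_left hl2 6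
  have c3 : 4 * (M / l ^ 6) < M := by nlinarith [Nat.zero_le (M / l ^ 6)]
  have c4 : (M : ℝ) ≤ (M / l ^ 16 : ℕ) * Real.log M ^ 17 := by
    have d1 : (M : ℝ) ≤ (M / l ^ 16 : ℕ) * (l ^ 16 : ℕ) + (l ^ 16 : ℕ) := by exact_mod_cast a1.le
    have d2 : ((M / l ^ 16 : ℕ) : ℝ) * (l ^ 16 : ℕ) ≤
        (M / l ^ 16 : ℕ) * (2 ^ 16 * Real.log M ^ 16) := by gcongr
    have d3 : ((M / l ^ 16 : ℕ) : ℝ) * Real.log M ^ 16 * (2 * 2 ^ 16) ≤
        (M / l ^ 16 : ℕ) * Real.log M ^ 16 * Real.log M := by gcongr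
    calc (M : ℝ) ≤ (M / l ^ 16 : ℕ) * Real.log M ^ 16 * Real.log M := by linarith
      _ = _ := by ring
  obtain ⟨a, ha, b, hb, pa, pb, pc⟩ := h1 hodd _ _ c4 c1 c3
  rw [mem_Ioc] at ha hb
  refine ⟨a, b, M - a - b, pa, pb, pc, by omega, ?_, ?_, ?_, ?_⟩
  · nlinarith [Nat.mul_le_mul_right (l ^ 16) (Nat.succ_le_of_lt ha.1)]
  · nlinarith [Nat.mul_le_mul_right (l ^ 16) ha.2]
  · nlinarith [Nat.mul_le_mul_right (l ^ 6) (Nat.succ_le_of_lt hb.1)]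
  · nlinarith [Nat.mul_le_mul_right (l ^ 6) hb.2]

end Pool.Agent.MP_62c071_al.V
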