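import Pool.Agent.MP_62c071_al.V.Kit

/-! The identity of Vaughan. -/

set_option autoImplicit false

namespace Pool.Agent.MP_62c071_al.V

open Finset ArithmeticFunction

namespace RVid

theorem conv0 (f g : ArithmeticFunction ℝ) (X₁ X₂ : ℕ) (F : ℕ → ℂ) :
    ∑ n ∈ Ioc X₁ X₂, (((f * g) n : ℝ) : ℂ) * F n =
      ∑ d ∈ Icc 1 X₂, (f d : ℂ) * ∑ m ∈ Ioc (X₁ / d) (X₂ / d), (g m : ℂ) * F (d * m) := by
  simp only [mul_apply, Complex.ofReal_sum, sum_mul, mul_sum]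
  rw [sum_sigma', sum_sigma']
  refine sum_bij' (fun x _ => ⟨x.2.1, x.2.2⟩) (fun y _ => ⟨y.1 * y.2, (y.1, y.2)⟩) ?_ ?_ ?_ ?_ ?_
  · rintro ⟨n, d, m⟩ hx
    simp only [mem_sigma, mem_Ioc, Nat.mem_divisorsAntidiagonal, mem_Icc] at hx ⊢
    obtain ⟨⟨h1, h2⟩, h3, h4⟩ := hx
    subst h3
    have hd : 0 < d := Nat.pos_of_ne_zero fun h => h4 (by simp [h])
    have hm : 0 < m := Nat.pos_of_ne_zero fun h => h4 (by simp [h])
    refine ⟨⟨hd, le_trans (Nat.le_mul_of_pos_right d hm) h2⟩, ?_, ?_⟩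
    · rw [Nat.div_lt_iff_lt_mul hd, mul_comm]; exact h1
    · rw [Nat.le_div_iff_mul_le hd, mul_comm]; exact h2
  · rintro ⟨d, m⟩ hy
    simp only [mem_sigma, mem_Ioc, Nat.mem_divisorsAntidiagonal, mem_Icc] at hy ⊢
    obtain ⟨⟨h1, h2⟩, h3, h4⟩ := hy
    rw [Nat.div_lt_iff_lt_mul h1, mul_comm] at h3
    rw [Nat.le_div_iff_mul_le h1, mul_comm] at h4
    exact ⟨⟨h3, h4⟩, trivial, by omega⟩
  · rintro ⟨n, d, m⟩ hx
    simp only [mem_sigma, mem_Ioc, Nat.mem_divisorsAntidiagonal] at hx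
    obtain ⟨-, h3, -⟩ := hx
    subst h3
    rfl
  · rintro ⟨d, m⟩ -
    rfl
  · rintro ⟨n, d, m⟩ hx
    simp only [mem_sigma, mem_Ioc, Nat.mem_divisorsAntidiagonal] at hx
    obtain ⟨-, h3, -⟩ := hx
    subst h3
    push_cast
    ring

theorem conv (f g : ArithmeticFunction ℝ) (X₁ X₂ : ℕ) (F : ℕ → ℂ) (D : Finset ℕ)
    (h1 : ∀ d ∈ D, 1 ≤ d) (h2 : ∀ d, 1 ≤ d → d ≤ X₂ → d ∉ D → f d = 0) :
    ∑ n ∈ Ioc X₁ X₂, (((f * g) n : ℝ) : ℂ) * F n =
      ∑ d ∈ D, (f d : ℂ) * ∑ m ∈ Ioc (X₁ / d) (X₂ / d), (g m : ℂ) * F (d * m) := by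
  rw [conv0]
  have e1 : ∑ d ∈ Icc 1 X₂, (f d : ℂ) * ∑ m ∈ Ioc (X₁ / d) (X₂ / d), (g m : ℂ) * F (d * m) =
      ∑ d ∈ Icc 1 X₂ ∪ D, (f d : ℂ) * ∑ m ∈ Ioc (X₁ / d) (X₂ / d), (g m : ℂ) * F (d * m) := by
    refine sum_subset subset_union_left fun d hd hn => ?_
    have hd1 : 1 ≤ d := by
      rcases mem_union.1 hd with h | h
      · exact absurd h hn
      · exact h1 d h
    have hX : X₂ < d := by
      rw [mem_Icc] at hn
      omega
    rw [Nat.div_eq_of_lt hX, Ioc_eq_empty (Nat.not_lt_zero _), sum_empty, mul_zero]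
  rw [e1]
  refine (sum_subset subset_union_right fun d hd hn => ?_).symm
  rcases mem_union.1 hd with h | h
  · rw [mem_Icc] at h
    rw [h2 d h.1 h.2 hn, Complex.ofReal_zero, zero_mul]
  · exact absurd h hn

/-- the part of `f` on the numbers up to `U` -/
noncomputable def lo (U : ℕ) (f : ArithmeticFunction ℝ) : ArithmeticFunction ℝ :=
  ⟨fun n => if n ≤ U then f n else 0, by simp⟩

theorem lo_apply (U : ℕ) (f : ArithmeticFunction ℝ) (n : ℕ) :
    lo U f n = if n ≤ U then f n else 0 := rfl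

theorem sub_ap (f g : ArithmeticFunction ℝ) (n : ℕ) : (f - g) n = f n - g n := by
  have h : (f - g + g) n = f n := by rw [sub_add_cancel]
  rw [ArithmeticFunction.add_apply] at h
  linarith

theorem hi_apply (U : ℕ) (f : ArithmeticFunction ℝ) (n : ℕ) :
    (f - lo U f) n = if n ≤ U then 0 else f n := by
  rw [sub_ap, lo_apply]
  split_ifs <;> simp

theorem ident (a l : ArithmeticFunction ℝ) :
    vonMangoldt - l = a * log - a * l * (zeta : ArithmeticFunction ℝ) +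
      ((moebius : ArithmeticFunction ℝ) - a) * ((vonMangoldt - l) * (zeta : ArithmeticFunction ℝ)) := by
  have h1 : (moebius : ArithmeticFunction ℝ) * (zeta : ArithmeticFunction ℝ) = 1 :=
    coe_moebius_mul_coe_zeta
  have h2 : vonMangoldt * (zeta : ArithmeticFunction ℝ) = log := vonMangoldt_mul_zeta
  rw [← h2]
  linear_combination (-(vonMangoldt - l)) * h1

theorem abs_c (U d : ℕ) :
    |(lo U (moebius : ArithmeticFunction ℝ) * lo U vonMangoldt) d| ≤ Real.log d := by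
  rw [mul_apply, ← vonMangoldt_sum,
    ← Nat.sum_divisorsAntidiagonal' (f := fun _ e => (vonMangoldt e : ℝ))]
  refine (abs_sum_le_sum_abs _ _).trans (sum_le_sum fun x _ => ?_)
  rw [abs_mul, lo_apply, lo_apply]
  have h0 : (0 : ℝ) ≤ vonMangoldt x.2 := vonMangoldt_nonneg
  have h1 : |if x.1 ≤ U then (moebius : ArithmeticFunction ℝ) x.1 else 0| ≤ 1 := by
    split_ifs
    · rw [intCoe_apply]
      exact_mod_cast abs_moebius_le_one
    · simp
  have h2 : |if x.2 ≤ U then vonMangoldt x.2 else 0| ≤ vonMangoldt x.2 := by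
    split_ifs
    · rw [abs_of_nonneg h0]
    · simp
  calc _ ≤ 1 * vonMangoldt x.2 := mul_le_mul h1 h2 (abs_nonneg _) zero_le_one
    _ = _ := one_mul _

theorem c_zero (U d : ℕ) (f g : ArithmeticFunction ℝ) (hd : U ^ 2 < d) :
    (lo U f * lo U g) d = 0 := by
  rw [mul_apply]
  refine sum_eq_zero fun x hx => ?_
  rw [lo_apply, lo_apply]
  split_ifs with h1 h2
  · exfalso
    have h3 := (Nat.mem_divisorsAntidiagonal.1 hx).1
    have h4 := Nat.mul_le_mul h1 h2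
    rw [sq] at hd
    omega
  all_goals simp

theorem abs_b (U k : ℕ) :
    |((vonMangoldt - lo U vonMangoldt) * (zeta : ArithmeticFunction ℝ)) k| ≤ Real.log k := by
  rw [coe_mul_zeta_apply, ← vonMangoldt_sum]
  refine (abs_sum_le_sum_abs _ _).trans (sum_le_sum fun x _ => ?_)
  have h0 : (0 : ℝ) ≤ vonMangoldt x := vonMangoldt_nonneg
  rw [hi_apply]
  split_ifs
  · simp
  · rw [abs_of_nonneg h0]

theorem b_zero (U k : ℕ) (hk : k ≤ U) :
    ((vonMangoldt - lo U vonMangoldt) * (zeta : ArithmeticFunction ℝ)) k = 0 := by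
  rw [coe_mul_zeta_apply]
  refine sum_eq_zero fun x hx => ?_
  rw [hi_apply, if_pos ((Nat.divisor_le hx).trans hk)]

end RVid

open RVid in
theorem vid : VidS := by
  intro U hU
  refine ⟨fun d => (lo U (moebius : ArithmeticFunction ℝ) * lo U vonMangoldt) d,
    fun k => ((vonMangoldt - lo U vonMangoldt) * (zeta : ArithmeticFunction ℝ)) k,
    abs_c U, abs_b U, b_zero U, fun X₁ X₂ F hX => ?_⟩
  have e0 : ∑ n ∈ Ioc X₁ X₂, La n * F n =
      ∑ n ∈ Ioc X₁ X₂, (((vonMangoldt - lo U vonMangoldt) n : ℝ) : ℂ) * F n := by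
    refine sum_congr rfl fun n hn => ?_
    rw [hi_apply, if_neg (by have := (mem_Ioc.1 hn).1; omega)]
    rfl
  have e1 := conv (lo U (moebius : ArithmeticFunction ℝ)) log X₁ X₂ F (Icc 1 U)
    (fun d hd => (mem_Icc.1 hd).1) (fun d h1 _ h3 => by
      rw [lo_apply, if_neg (fun h => h3 (mem_Icc.2 ⟨h1, h⟩))])
  have e2 := conv (lo U (moebius : ArithmeticFunction ℝ) * lo U vonMangoldt)
    (zeta : ArithmeticFunction ℝ) X₁ X₂ F (Icc 1 (U ^ 2))
    (fun d hd => (mem_Icc.1 hd).1) (fun d h1 _ h3 => c_zero U d _ _ (by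
      rw [mem_Icc] at h3; omega))
  have e3 := conv ((moebius : ArithmeticFunction ℝ) - lo U (moebius : ArithmeticFunction ℝ))
    ((vonMangoldt - lo U vonMangoldt) * (zeta : ArithmeticFunction ℝ)) X₁ X₂ F (Ioc U X₂)
    (fun d hd => by have := (mem_Ioc.1 hd).1; omega) (fun d _ h2 h3 => by
      rw [hi_apply, if_pos (by rw [mem_Ioc] at h3; omega)])
  have f1 : ∑ d ∈ Icc 1 U, ((moebius d : ℤ) : ℂ) *
        ∑ m ∈ Ioc (X₁ / d) (X₂ / d), (Real.log m : ℂ) * F (d * m) =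
      ∑ d ∈ Icc 1 U, ((lo U (moebius : ArithmeticFunction ℝ) d : ℝ) : ℂ) *
        ∑ m ∈ Ioc (X₁ / d) (X₂ / d), ((log m : ℝ) : ℂ) * F (d * m) := by
    refine sum_congr rfl fun d hd => ?_
    rw [lo_apply, if_pos (mem_Icc.1 hd).2, intCoe_apply, Complex.ofReal_intCast]
    rfl
  have f2 : ∀ c : ℕ → ℂ, ∑ d ∈ Icc 1 (U ^ 2), c d * ∑ m ∈ Ioc (X₁ / d) (X₂ / d), F (d * m) =
      ∑ d ∈ Icc 1 (U ^ 2), c d * ∑ m ∈ Ioc (X₁ / d) (X₂ / d),
        (((zeta : ArithmeticFunction ℝ) m : ℝ) : ℂ) * F (d * m) := by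
    intro c
    refine sum_congr rfl fun d _ => ?_
    congr 1
    refine sum_congr rfl fun m hm => ?_
    have hm0 : m ≠ 0 := (Nat.zero_lt_of_lt (mem_Ioc.1 hm).1).ne'
    rw [natCoe_apply, zeta_apply_ne hm0]
    simp
  have f3 : ∀ G : ℕ → ℂ, ∑ m ∈ Ioc U X₂, ((moebius m : ℤ) : ℂ) * G m =
      ∑ m ∈ Ioc U X₂, ((((moebius : ArithmeticFunction ℝ) -
        lo U (moebius : ArithmeticFunction ℝ)) m : ℝ) : ℂ) * G m := by
    intro G
    refine sum_congr rfl fun m hm => ?_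
    rw [hi_apply, if_neg (by have := (mem_Ioc.1 hm).1; omega), intCoe_apply,
      Complex.ofReal_intCast]
  rw [f1, f2, f3, ← e1, ← e2, ← e3, e0, ← sum_sub_distrib, ← sum_add_distrib]
  refine sum_congr rfl fun n _ => ?_
  conv_lhs => rw [ident (lo U (moebius : ArithmeticFunction ℝ)) (lo U vonMangoldt)]
  rw [ArithmeticFunction.add_apply, sub_ap]
  push_cast
  ring

end Pool.Agent.MP_62c071_al.V
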