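import Pool.Agent.MP_62c071_al.V.Kit

/-! Row Zf: the zero-free region with the bound of Siegel. -/

set_option autoImplicit false

namespace Pool.Agent.MP_62c071_al.V

open DirichletCharacter
open Pool.Agent.MP_c5bf7b_nt.H38 (Ch Phi)

namespace RZf

theorem phi_ne {q : ℕ} [NeZero q] {χ : Ch q} (h : χ ≠ 1) : Phi χ = LFunction χ := by
  rw [Phi, if_neg h]

theorem zero_iff {q Q : ℕ} [NeZero q] [NeZero Q] (hq : q ∣ Q) {χ : Ch q} (h1 : χ ≠ 1) {ρ : ℂ}
    (hρ : 0 < ρ.re) : Phi (changeLevel hq χ) ρ = 0 ↔ LFunction χ ρ = 0 := by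
  rw [phi_ne (h1 ∘ (changeLevel_eq_one_iff hq).1), LFunction_changeLevel hq χ (Or.inl h1),
    mul_eq_zero, or_iff_left]
  refine Finset.prod_ne_zero_iff.2 fun p hp h3 => ?_
  have hp' := Nat.prime_of_mem_primeFactors hp
  have h4 : ‖χ p * (p : ℂ) ^ (-ρ)‖ < 1 := by
    rw [norm_mul, Complex.norm_natCast_cpow_of_pos hp'.pos, Complex.neg_re]
    refine lt_of_le_of_lt (mul_le_of_le_one_left (by positivity) (norm_le_one _ _)) ?_
    exact Real.rpow_lt_one_of_one_lt_of_neg (by exact_mod_cast hp'.one_lt) (by linarith)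
  rw [← sub_eq_zero.1 h3, norm_one] at h4
  exact lt_irrefl _ h4

theorem aux {c K L X ε : ℝ} (hc : 0 < c) (_hK : 0 < K) (hL : 0 < L) (hX : 0 < X)
    (h : L ≤ K * X ^ ε) : c / K * X ^ (-ε) ≤ c / L := by
  have h1 : 0 < X ^ ε := Real.rpow_pos_of_pos hX ε
  rw [Real.rpow_neg hX.le, ← div_eq_mul_inv, div_div]
  exact div_le_div_of_nonneg_left hc.le hL h

end RZf

open RZf in
theorem zfOf : ZfOf := by
  rintro ⟨c₁, hc₁, h1⟩ hS ⟨c₃, hc₃, h3⟩ ε hε
  obtain ⟨c₂, hc₂, h2⟩ := hS ε hε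
  refine ⟨min (c₁ / (2 / ε) ^ 2) (min c₂ (c₃ / ε⁻¹)),
    lt_min (by positivity) (lt_min hc₂ (by positivity)), fun q Q _ _ hq χ ρ h0 hρ => ?_⟩
  have hq1 : (1 : ℝ) ≤ q := by exact_mod_cast NeZero.pos q
  have ht : 0 ≤ |ρ.im| := abs_nonneg _
  obtain ⟨X, hX⟩ : ∃ X : ℝ, X = q * (|ρ.im| + 2) := ⟨_, rfl⟩
  rw [← hX]
  have hX1 : |ρ.im| + 2 ≤ X := by nlinarith
  have hX2 : (q : ℝ) ≤ X := by nlinarith
  have hX0 : 0 < X := by linarith
  have hp : 0 ≤ X ^ (-ε) := by positivity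
  by_cases hχ : χ = 1
  · subst hχ
    rw [map_one] at h0
    refine le_trans (mul_le_mul_of_nonneg_right ((min_le_right _ _).trans (min_le_right _ _)) hp)
      (le_trans (aux hc₃ (by positivity) (Real.log_pos (by linarith)) hX0 ?_) (h3 Q ρ hρ h0))
    refine (Real.log_le_log (by linarith) hX1).trans ((Real.log_le_rpow_div hX0.le hε).trans ?_)
    rw [div_eq_inv_mul]
  have hρ0 : 0 < ρ.re := by linarith
  rw [zero_iff hq hχ hρ0] at h0
  by_cases hr : χ ^ 2 = 1 ∧ ρ.im = 0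
  · have e : (ρ.re : ℂ) = ρ := Complex.ext (by simp) (by simp [hr.2])
    refine le_trans (mul_le_mul ((min_le_right _ _).trans (min_le_left _ _))
      (Real.rpow_le_rpow_of_nonpos (by linarith) hX2 (by linarith)) hp hc₂.le)
      (h2 q χ ρ.re hr.1 hχ hρ (by rw [e]; exact h0))
  have hq2 : 2 ≤ q := by
    have h4 : q ≠ 1 := by
      rintro rfl
      exact hχ (Subsingleton.elim _ _)
    have := NeZero.pos q
    omega
  obtain ⟨m, hm⟩ : ∃ m : ℕ, m = ⌈|ρ.im|⌉₊ + 1 := ⟨_, rfl⟩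
  have hm1 : |ρ.im| ≤ m := by
    rw [hm]; push_cast; linarith [Nat.le_ceil |ρ.im|]
  have hm2 : (m : ℝ) ≤ |ρ.im| + 2 := by
    rw [hm]; push_cast; linarith [Nat.ceil_lt_add_one ht]
  have hm3 : 1 ≤ m := by omega
  have : NeZero (q * m) := ⟨by positivity⟩
  have hd : q ∣ q * m := dvd_mul_right _ _
  have hqm : 2 ≤ q * m := by nlinarith
  have hqm' : (2 : ℝ) ≤ (q * m : ℕ) := by exact_mod_cast hqm
  have h5 := h1 (q * m) (changeLevel hd χ) ρ hqm (hχ ∘ (changeLevel_eq_one_iff hd).1)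
    ((zero_iff hd hχ hρ0).2 h0) hρ (by
      push_cast
      nlinarith [Nat.cast_nonneg (α := ℝ) m]) (by
      rw [← map_pow, Ne, changeLevel_eq_one_iff]
      exact not_and_or.1 hr)
  have hL : 0 < Real.log (q * m : ℕ) := Real.log_pos (by linarith)
  refine le_trans (mul_le_mul_of_nonneg_right (min_le_left _ _) hp)
    (le_trans (aux hc₁ (by positivity) (by positivity) hX0 ?_) h5)
  have h6 : Real.log (q * m : ℕ) ≤ 2 / ε * X ^ (ε / 2) := by
    refine (Real.log_le_log (by linarith) (?_ : ((q * m : ℕ) : ℝ) ≤ X)).trans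
      ((Real.log_le_rpow_div hX0.le (half_pos hε)).trans (le_of_eq (by field_simp)))
    rw [hX]
    push_cast
    nlinarith
  refine (pow_le_pow_left₀ hL.le h6 2).trans (le_of_eq ?_)
  rw [mul_pow, ← Real.rpow_natCast (X ^ (ε / 2)), ← Real.rpow_mul hX0.le]
  congr 2
  push_cast
  ring

end Pool.Agent.MP_62c071_al.V
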