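import Pool.Agent.MP_62c071_al.V.Kit

/-! A zero-free region at small heights, away from the real zeros of real characters. -/

set_option autoImplicit false

namespace Pool.Agent.MP_62c071_al.V

open Finset ArithmeticFunction Filter
open Pool.Agent.MP_c5bf7b_nt.H38 (Ch Phi PhiS)

namespace RZf1

theorem re_inv (z : ℂ) : (1 / z).re = z.re / (z.re ^ 2 + z.im ^ 2) := by
  rw [one_div, Complex.inv_re, Complex.normSq_apply]
  ring

theorem div_sq {x : ℝ} (hx : 0 < x) : x / (x ^ 2 + 0 ^ 2) = 1 / x := by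
  field_simp
  ring

open Classical in
/-- the upper bounds at one level `q` -/
def Up (q : ℕ) [NeZero q] (K : ℝ) : Prop :=
  ∀ (χ : Ch q) (s : ℂ) (Y : Finset ℂ), 1 < s.re → s.re ≤ 2 → |s.im| ≤ 2 * q →
    (∀ ρ ∈ Y, Phi χ ρ = 0 ∧ 2 / 3 ≤ ρ.re ∧ |ρ.im| ≤ q) →
    (LS χ s).re ≤ (if χ = 1 then (1 / (s - 1)).re else 0) - ∑ ρ ∈ Y, (1 / (s - ρ)).re + K

variable {q : ℕ} [NeZero q] {K : ℝ}

theorem up_one (h : Up q K) {d t : ℝ} (hd : 0 < d) (hd1 : d ≤ 1) (ht : |t| ≤ 2 * q) :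
    (LS (1 : Ch q) ((1 + d : ℝ) + t * Complex.I)).re ≤ d / (d ^ 2 + t ^ 2) + K := by
  have h1 := h 1 ((1 + d : ℝ) + t * Complex.I) ∅ (by simpa using hd) (by simp; linarith)
    (by simpa using ht) (by simp)
  rw [if_pos rfl, re_inv] at h1
  simpa using h1

theorem up_one' (h : Up q K) {d : ℝ} (hd : 0 < d) (hd1 : d ≤ 1) :
    (LS (1 : Ch q) (1 + d : ℝ)).re ≤ 1 / d + K := by
  have h1 := up_one h (t := 0) hd hd1 (by simp)
  rw [div_sq hd] at h1
  simpa using h1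

theorem up_ne (h : Up q K) {χ : Ch q} (hχ : χ ≠ 1) {d t : ℝ} (hd : 0 < d) (hd1 : d ≤ 1)
    (ht : |t| ≤ 2 * q) : (LS χ ((1 + d : ℝ) + t * Complex.I)).re ≤ K := by
  have h1 := h χ ((1 + d : ℝ) + t * Complex.I) ∅ (by simpa using hd) (by simp; linarith)
    (by simpa using ht) (by simp)
  rw [if_neg hχ] at h1
  simpa using h1

theorem up_zero (h : Up q K) {χ : Ch q} (hχ : χ ≠ 1) {ρ : ℂ} (hρ : Phi χ ρ = 0)
    (h23 : 2 / 3 ≤ ρ.re) (hlt : ρ.re < 1) (him : |ρ.im| ≤ q) {d : ℝ} (hd : 0 < d) (hd1 : d ≤ 1) :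
    (LS χ ((1 + d : ℝ) + ρ.im * Complex.I)).re ≤ -(1 / (d + (1 - ρ.re))) + K := by
  have hq : (0 : ℝ) ≤ q := Nat.cast_nonneg q
  have h1 := h χ ((1 + d : ℝ) + ρ.im * Complex.I) {ρ} (by simpa using hd) (by simp; linarith)
    (by simp; linarith) (by simpa using ⟨hρ, h23, him⟩)
  rw [if_neg hχ, sum_singleton, re_inv] at h1
  have e1 : (((1 + d : ℝ) : ℂ) + ρ.im * Complex.I - ρ).re = d + (1 - ρ.re) := by
    simp
    ring
  have e2 : (((1 + d : ℝ) : ℂ) + ρ.im * Complex.I - ρ).im = 0 := by simp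
  rw [e1, e2, div_sq (by linarith)] at h1
  linarith

theorem up_two (h : Up q K) {χ : Ch q} (hχ : χ ≠ 1) {ρ : ℂ} (hρ : Phi χ ρ = 0)
    (hρ' : Phi χ ((starRingEnd ℂ) ρ) = 0) (h23 : 2 / 3 ≤ ρ.re) (h0 : ρ.im ≠ 0)
    (him : |ρ.im| ≤ q) {d : ℝ} (hd : 0 < d) (hd1 : d ≤ 1) :
    (LS χ (1 + d : ℝ)).re ≤
      -(2 * ((d + (1 - ρ.re)) / ((d + (1 - ρ.re)) ^ 2 + ρ.im ^ 2))) + K := by
  classical
  have hne : ρ ≠ (starRingEnd ℂ) ρ := fun e => h0 (Complex.conj_eq_iff_im.1 e.symm)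
  have h1 := h χ (1 + d : ℝ) {ρ, (starRingEnd ℂ) ρ} (by simpa using hd) (by simp; linarith)
    (by simp) (by
      intro z hz
      rw [mem_insert, mem_singleton] at hz
      rcases hz with rfl | rfl
      · exact ⟨hρ, h23, him⟩
      · exact ⟨hρ', by simpa using h23, by simpa using him⟩)
  rw [if_neg hχ, sum_pair hne, re_inv, re_inv] at h1
  have e1 : (((1 + d : ℝ) : ℂ) - ρ).re = d + (1 - ρ.re) := by
    simp
    ring
  have e2 : (((1 + d : ℝ) : ℂ) - ρ).im ^ 2 = ρ.im ^ 2 := by simp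
  have e3 : (((1 + d : ℝ) : ℂ) - (starRingEnd ℂ) ρ).re = d + (1 - ρ.re) := by
    simp
    ring
  have e4 : (((1 + d : ℝ) : ℂ) - (starRingEnd ℂ) ρ).im ^ 2 = ρ.im ^ 2 := by simp
  rw [e1, e2, e3, e4] at h1
  linarith

theorem mul_ge {b K x : ℝ} (hb : 0 < b) (h : x * (1 / b) ≤ K) : x ≤ b * K := by
  have h1 := mul_le_mul_of_nonneg_left h hb.le
  rwa [mul_one_div, mul_div_cancel₀ _ hb.ne'] at h1

theorem core (h : Up q K) (hP : PosS) {χ : Ch q} (hχ : χ ≠ 1) {ρ : ℂ} (hρ : Phi χ ρ = 0)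
    (hconj : Phi χ⁻¹ ((starRingEnd ℂ) ρ) = 0) (h23 : 2 / 3 ≤ ρ.re) (hlt : ρ.re < 1)
    (him : |ρ.im| ≤ q) (hb : 1 - ρ.re ≤ 1 / 31) (hc : χ ^ 2 ≠ 1 ∨ ρ.im ≠ 0) :
    1 / 210 ≤ (1 - ρ.re) * K := by
  obtain ⟨b, hbe⟩ : ∃ b, b = 1 - ρ.re := ⟨_, rfl⟩
  have hb0 : 0 < b := by linarith
  have him2 : |2 * ρ.im| ≤ 2 * q := by
    rw [abs_mul, abs_two]
    linarith
  rw [← hbe] at hb ⊢
  apply mul_ge hb0
  by_cases h2 : χ ^ 2 = 1
  · have h0 : ρ.im ≠ 0 := hc.resolve_left (not_not.2 h2)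
    by_cases h6 : 6 * b ≤ |ρ.im|
    · have p := (hP q χ (1 + 6 * b) ρ.im (by linarith)).1
      have u1 := up_one' h (d := 6 * b) (by linarith) (by linarith)
      have u2 := up_zero h hχ hρ h23 hlt him (d := 6 * b) (by linarith) (by linarith)
      have u3 := up_one h (d := 6 * b) (t := 2 * ρ.im) (by linarith) (by linarith) him2
      rw [h2] at p
      rw [← hbe] at u2
      have hsq : (6 * b) ^ 2 ≤ ρ.im ^ 2 := by
        rw [← sq_abs ρ.im]
        gcongr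
      have e1 : 1 / (6 * b) = 1 / 6 * (1 / b) := by field_simp
      have e2 : 1 / (6 * b + b) = 1 / 7 * (1 / b) := by
        field_simp
        ring
      have e3 : 6 * b / ((6 * b) ^ 2 + (2 * ρ.im) ^ 2) ≤ 1 / 30 * (1 / b) := by
        rw [one_div_mul_one_div, div_le_div_iff₀ (by positivity) (by positivity)]
        nlinarith
      linarith
    · have hinv : χ⁻¹ = χ := by
        rw [inv_eq_iff_mul_eq_one, ← sq, h2]
      rw [hinv] at hconj
      have p := (hP q χ (1 + 30 * b) 0 (by linarith)).2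
      have u1 := up_one' h (d := 30 * b) (by linarith) (by linarith)
      have u2 := up_two h hχ hρ hconj h23 h0 him (d := 30 * b) (by linarith) (by linarith)
      rw [← hbe] at u2
      have hsq : ρ.im ^ 2 ≤ (6 * b) ^ 2 := by
        rw [← sq_abs ρ.im]
        have := (not_le.1 h6).le
        gcongr
      have e1 : 1 / (30 * b) = 1 / 30 * (1 / b) := by field_simp
      have e2 : 1 / 40 * (1 / b) ≤ (30 * b + b) / ((30 * b + b) ^ 2 + ρ.im ^ 2) := by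
        rw [one_div_mul_one_div, div_le_div_iff₀ (by positivity) (by positivity)]
        nlinarith
      have e3 : 0 < 1 / b := by positivity
      linarith
  · have p := (hP q χ (1 + 4 * b) ρ.im (by linarith)).1
    have u1 := up_one' h (d := 4 * b) (by linarith) (by linarith)
    have u2 := up_zero h hχ hρ h23 hlt him (d := 4 * b) (by linarith) (by linarith)
    have u3 := up_ne h h2 (d := 4 * b) (t := 2 * ρ.im) (by linarith) (by linarith) him2
    rw [← hbe] at u2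
    have e1 : 1 / (4 * b) = 1 / 4 * (1 / b) := by field_simp
    have e2 : 1 / (4 * b + b) = 1 / 5 * (1 / b) := by
      field_simp
      ring
    have e3 : 0 < 1 / b := by positivity
    linarith

end RZf1

theorem zf1Of : Zf1Of := by
  rintro ⟨A, hA⟩ ⟨C, hC1, hC⟩ hP
  refine ⟨1 / 210 / C, by positivity, ?_⟩
  intro q _ χ ρ hq hχ hρ h23 him hc
  obtain ⟨-, hnz, -, -, hcj, -⟩ := hA q χ hq
  have hq2 : (2 : ℝ) ≤ q := by exact_mod_cast hq
  have hlt : ρ.re < 1 := not_le.1 fun h1 => hnz ρ h1 hρ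
  have hL : 1 / 2 ≤ Real.log q := by
    have h1 := Real.log_le_log (by norm_num) hq2
    have h2 := Real.log_two_gt_d9
    linarith
  have hq3 : 2 * (q : ℝ) + 1 ≤ (q : ℝ) ^ 3 := by
    have h1 : (4 : ℝ) ≤ (q : ℝ) ^ 2 := by nlinarith
    nlinarith
  have hU : RZf1.Up q (C * Real.log q ^ 2) := fun ψ s Y h1 h2 h3 h4 =>
    hC q ψ s Y hq h1 h2 (by linarith) fun z hz =>
      ⟨(h4 z hz).1, (h4 z hz).2.1, by linarith [(h4 z hz).2.2]⟩
  have hK : 1 / 4 ≤ C * Real.log q ^ 2 := by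
    have h1 : 1 / 4 ≤ Real.log q ^ 2 := by nlinarith
    nlinarith
  have key : 1 / 210 ≤ (1 - ρ.re) * (C * Real.log q ^ 2) := by
    by_cases hb : 1 - ρ.re ≤ 1 / 31
    · exact RZf1.core hU hP hχ hρ (by rw [hcj, hρ, _root_.map_zero]) h23 hlt him hb hc
    · have h1 := (not_le.1 hb).le
      nlinarith
  rw [div_div, div_le_iff₀ (by positivity)]
  exact key

end Pool.Agent.MP_62c071_al.V
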