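import Pool.Agent.MP_62c071_al.V.Kit
import Pool.Agent.MP_c5bf7b_nt.H38.Ef1
import Pool.Agent.MP_c5bf7b_nt.H38.Cnt

/-! The upper bound for the real part of the logarithmic derivative with some zeros kept. -/

set_option autoImplicit false

namespace Pool.Agent.MP_62c071_al.V

open Finset ArithmeticFunction Filter
open Pool.Agent.MP_c5bf7b_nt.H38 (Ch Phi PhiS ExS GfS Rect)

namespace RZl

theorem re_sum (Z : Multiset ℂ) (F : ℂ → ℂ) :
    (Z.map F).sum.re = (Z.map fun ρ => (F ρ).re).sum := by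
  induction Z using Multiset.induction_on with
  | empty => simp
  | cons a s ih => simp [ih]

theorem sum_le (Y : Finset ℂ) (Z : Multiset ℂ) (g : ℂ → ℝ) (h : ∀ ρ ∈ Y, ρ ∈ Z)
    (hg : ∀ ρ ∈ Z, 0 ≤ g ρ) : ∑ ρ ∈ Y, g ρ ≤ (Z.map g).sum := by
  have h1 : Y.val ≤ Z := (Multiset.le_iff_subset Y.nodup).2 fun ρ hρ => h ρ hρ
  obtain ⟨W, rfl⟩ := Multiset.le_iff_exists_add.1 h1
  rw [Multiset.map_add, Multiset.sum_add]
  refine le_add_of_le_of_nonneg le_rfl (Multiset.sum_nonneg fun x hx => ?_)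
  obtain ⟨ρ, hρ, rfl⟩ := Multiset.mem_map.1 hx
  exact hg ρ (Multiset.mem_add.2 (Or.inr hρ))

end RZl

theorem zlOf : ZlOf := by
  classical
  rintro ⟨A, hA⟩ hex ⟨C, hC, hgf⟩
  have hA1 : (1 : ℝ) ≤ (A : ℝ) + 1 := by have := Nat.cast_nonneg (α := ℝ) A; linarith
  have hCA : 1 ≤ C * (A + 1) := one_le_mul_of_one_le_of_one_le hC hA1
  refine ⟨5 * (C * (A + 1)), by linarith, fun q _ χ s Y hq hs1 hs2 hs3 hY => ?_⟩
  obtain ⟨hd, hne, hB, h13, -, hL⟩ := hA q χ hq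
  have hq2 : (2 : ℝ) ≤ q := by exact_mod_cast hq
  have hq1 : (1 : ℝ) ≤ q := by linarith
  have hl : 1 / 2 ≤ Real.log q := by
    have h1 := Real.log_two_gt_d9
    have h2 := Real.log_le_log (by norm_num) hq2
    linarith
  obtain ⟨Z, G, hZ⟩ := hex (Phi χ) ((q : ℝ) ^ 3) hd (hne 2 (by simp))
  have h2 : (2 : ℝ) ≤ (q : ℝ) ^ (A + 1) := hq2.trans (le_self_pow₀ hq1 (Nat.succ_ne_zero A))
  have h3 : (2 : ℝ) ≤ (q : ℝ) ^ 3 := hq2.trans (le_self_pow₀ hq1 (by norm_num))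
  have h4 := ((hgf (Phi χ) G Z ((q : ℝ) ^ (A + 1)) ((q : ℝ) ^ 3) h2 h3 hZ
    (fun s hs => hne s hs.le)
    (fun s h1 h2 h3 => (hB s h1 h2 h3).trans (pow_le_pow_right₀ hq1 (Nat.le_succ A)))
    (fun τ _ => h13 τ)).2 s (by linarith) hs2 hs3).1
  rw [Real.log_pow, Real.log_pow] at h4
  have h5 := MP_c5bf7b_nt.H38.Ef.logder hZ.1 hZ.2.1 (hne s hs1.le)
  have h6 := hL s hs1
  rw [h5] at h6
  have h7 : LS χ s = (if χ = 1 then 1 / (s - 1) else 0) - (Z.map fun ρ => (s - ρ)⁻¹).sum -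
      deriv G s / G s := by
    unfold LS
    linear_combination -h6
  have h8 : ∑ ρ ∈ Y, (1 / (s - ρ)).re ≤ (Z.map fun ρ => (1 / (s - ρ)).re).sum := by
    refine RZl.sum_le Y Z _ (fun ρ hρ => ?_) fun ρ hρ => ?_
    · obtain ⟨a1, a2, a3⟩ := hY ρ hρ
      have a4 : ρ.re ≤ 1 := by
        by_contra h
        exact hne ρ (not_le.1 h).le a1
      rw [hZ.2.1] at a1
      exact MP_c5bf7b_nt.H38.CntAux.PZ_eq_zero.1
        ((mul_eq_zero.1 a1).resolve_right (hZ.2.2.2 ρ ⟨a2, a4, a3⟩))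
    · have a1 : ρ.re ≤ 1 := (hZ.2.2.1 ρ hρ).2.1
      rw [one_div, Complex.inv_re, Complex.sub_re]
      exact div_nonneg (by linarith) (Complex.normSq_nonneg _)
  have h9 : -(deriv G s / G s).re ≤ ‖deriv G s / G s‖ :=
    (neg_le_abs _).trans (Complex.abs_re_le_norm _)
  have h10 : C * (((A + 1 : ℕ) : ℝ) * Real.log q) * (1 + ((3 : ℕ) : ℝ) * Real.log q) ≤
      5 * (C * (A + 1)) * Real.log q ^ 2 := by
    push_cast
    have : 0 ≤ C * (A + 1) * Real.log q * (2 * Real.log q - 1) :=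
      mul_nonneg (mul_nonneg (by linarith) (by linarith)) (by linarith)
    nlinarith
  have h11 : (if χ = 1 then 1 / (s - 1) else 0 : ℂ).re =
      if χ = 1 then (1 / (s - 1)).re else 0 := by
    split_ifs <;> simp
  rw [h7, Complex.sub_re, Complex.sub_re, RZl.re_sum, h11]
  have h12 := h9.trans (h4.trans h10)
  simp only [one_div] at h8 ⊢
  linear_combination h8 + h12

end Pool.Agent.MP_62c071_al.V
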