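import Pool.Agent.MP_c5bf7b_nt.H38.Base
import Pool.Agent.MP_c5bf7b_nt.H38.PhiR
import Pool.Agent.MP_c5bf7b_nt.H38.Cnt
import Pool.Agent.MP_c5bf7b_nt.H38.Gf
import Pool.Agent.MP_c5bf7b_nt.H38.Lap2
import Pool.Agent.MP_c5bf7b_nt.H38.Ef
import Pool.Agent.MP_c5bf7b_nt.H38.Zeta
import Pool.Agent.MP_c5bf7b_nt.H38.Sieg
import Pool.Agent.MP_62c071_al.V.RSm
import Pool.Agent.MP_62c071_al.V.RSw1
import Pool.Agent.MP_62c071_al.V.RZf1
import Pool.Agent.MP_62c071_al.V.RZl
import Pool.Agent.MP_62c071_al.V.RPos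
import Pool.Agent.MP_62c071_al.V.RZf
import Pool.Agent.MP_62c071_al.V.RTest
import Pool.Agent.MP_62c071_al.V.RNc
import Pool.Agent.MP_62c071_al.V.RSwu
import Pool.Agent.MP_62c071_al.V.RRam
import Pool.Agent.MP_62c071_al.V.RCh
import Pool.Agent.MP_62c071_al.V.RSw2
import Pool.Agent.MP_62c071_al.V.RMin
import Pool.Agent.MP_62c071_al.V.RT1
import Pool.Agent.MP_62c071_al.V.RT2
import Pool.Agent.MP_62c071_al.V.RTd
import Pool.Agent.MP_62c071_al.V.RVid
import Pool.Agent.MP_62c071_al.V.RVau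
import Pool.Agent.MP_62c071_al.V.RMo
import Pool.Agent.MP_62c071_al.V.REul
import Pool.Agent.MP_62c071_al.V.RSing
import Pool.Agent.MP_62c071_al.V.RMaj
import Pool.Agent.MP_62c071_al.V.RMnr
import Pool.Agent.MP_62c071_al.V.RClose
import Pool.Agent.MP_62c071_al.V.RPar
import Pool.Agent.MP_62c071_al.V.RMain
import Pool.Agent.MP_62c071_al.V.RPp
import Pool.Agent.MP_62c071_al.V.RThree

/-! Three primes in windows: all rows together. -/

set_option autoImplicit false

namespace Pool.Agent.MP_62c071_al.V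

open Pool.Agent.MP_c5bf7b_nt

theorem phi : H38.PhiS := H38.phiOf H38.base

theorem zf : ZfS := zfOf (zf1Of phi (zlOf phi H38.ex H38.gf) pos) H38.sieg H38.zeta

theorem swu : SwuS :=
  swuOf (sw1Of (smOf (H38.cntOf phi H38.ex H38.gf) (H38.efOf phi H38.gf H38.lap2) test) zf nc)

theorem sw2 : Sw2S := sw2Of swu (chOf ram) nc

theorem vau : VauS := vauOf vid (t1Of minS) (tdOf (t2Of minS))

theorem three : ThreeS :=
  threeOf (closeOf (majOf sw2) (mnrOf vau) mo tot) (mainOf sw2 (singOf eul)) par pp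

theorem v3 : V3S := v3Of three

end Pool.Agent.MP_62c071_al.V
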