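import Pool.Agent.MP_62c071_al.V.Spec

/-! Basic facts on the additive character, geometric sums, partial summation, growth. -/

set_option autoImplicit false

namespace Pool.Agent.MP_62c071_al.V

open Finset ArithmeticFunction Filter

theorem ee_add (x y : ℝ) : ee (x + y) = ee x * ee y := by
  unfold ee
  rw [← Complex.exp_add]
  congr 1
  push_cast
  ring

theorem ee_zero : ee 0 = 1 := by simp [ee]

theorem norm_ee (x : ℝ) : ‖ee x‖ = 1 := by
  have h : (2 * Real.pi * x * Complex.I : ℂ) = ((2 * Real.pi * x : ℝ) : ℂ) * Complex.I := by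
    push_cast
    ring
  rw [ee, h, Complex.norm_exp_ofReal_mul_I]

theorem ee_int (n : ℤ) : ee n = 1 := by
  unfold ee
  rw [← Complex.exp_int_mul_two_pi_mul_I n]
  congr 1
  push_cast
  ring

theorem ee_nat (n : ℕ) : ee n = 1 := by
  have h := ee_int n
  rwa [Int.cast_natCast] at h

theorem ee_add_int (x : ℝ) (n : ℤ) : ee (x + n) = ee x := by rw [ee_add, ee_int, mul_one]

theorem ee_neg (x : ℝ) : ee (-x) = (starRingEnd ℂ) (ee x) := by
  unfold ee
  rw [← Complex.exp_conj]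
  congr 1
  simp [map_ofNat]

theorem ee_pow (x : ℝ) (n : ℕ) : ee (x * n) = ee x ^ n := by
  unfold ee
  rw [← Complex.exp_nat_mul]
  congr 1
  push_cast
  ring

theorem norm_ee_sub_one (x : ℝ) : ‖ee x - 1‖ = 2 * |Real.sin (Real.pi * x)| := by
  have h : (2 * Real.pi * x * Complex.I : ℂ) = Complex.I * ((2 * Real.pi * x : ℝ) : ℂ) := by
    push_cast
    ring
  rw [ee, h, Complex.norm_exp_I_mul_ofReal_sub_one, Real.norm_eq_abs, abs_mul, abs_two]
  congr 3
  ring

theorem norm_ee_sub_one_le (x : ℝ) : ‖ee x - 1‖ ≤ 7 * |x| := by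
  rw [norm_ee_sub_one]
  have h := Real.abs_sin_le_abs (x := Real.pi * x)
  rw [abs_mul, abs_of_pos Real.pi_pos] at h
  nlinarith [Real.pi_lt_d2, abs_nonneg x]

theorem nd_nonneg (x : ℝ) : 0 ≤ nd x := abs_nonneg _

theorem nd_le_half (x : ℝ) : nd x ≤ 1 / 2 := abs_sub_round x

theorem nd_le (x : ℝ) (n : ℤ) : nd x ≤ |x - n| := round_le x n

theorem nd_add_int (x : ℝ) (n : ℤ) : nd (x + n) = nd x := by
  unfold nd
  rw [round_add_intCast]
  push_cast
  ring_nf

theorem nd_neg (x : ℝ) : nd (-x) = nd x := by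
  have h : ∀ y : ℝ, nd (-y) ≤ nd y := fun y => by
    refine (nd_le (-y) (-round y)).trans_eq ?_
    rw [nd, ← abs_neg]
    push_cast
    ring_nf
  have h2 := h (-x)
  rw [neg_neg] at h2
  exact le_antisymm (h x) h2

theorem nd_le_add (x y : ℝ) : nd x ≤ nd y + |x - y| := by
  refine (nd_le x (round y)).trans ?_
  have h := abs_add_le (y - round y) (x - y)
  rw [show y - round y + (x - y) = x - round y by ring] at h
  exact h

theorem nd_le_norm (x : ℝ) : 4 * nd x ≤ ‖ee x - 1‖ := by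
  have h1 : ee x = ee (x - round x) := by
    rw [← ee_add_int (x - round x) (round x), sub_add_cancel]
  have h2 := nd_le_half x
  have h3 := Real.mul_abs_le_abs_sin (x := Real.pi * (x - round x)) (by
    rw [abs_mul, abs_of_pos Real.pi_pos]
    unfold nd at h2
    nlinarith [Real.pi_pos])
  rw [abs_mul, abs_of_pos Real.pi_pos, ← mul_assoc, div_mul_cancel₀ _ Real.pi_ne_zero] at h3
  rw [h1, norm_ee_sub_one, nd]
  linarith

theorem mn_nonneg {K : ℝ} (hK : 0 ≤ K) (x : ℝ) : 0 ≤ mn K x :=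
  div_nonneg hK (zero_le_one.trans (le_max_left _ _))

theorem mn_le {K : ℝ} (hK : 0 ≤ K) (x : ℝ) : mn K x ≤ K := div_le_self hK (le_max_left _ _)

theorem mn_le_inv {K x d : ℝ} (hK : 0 ≤ K) (hd : 0 < d) (h : d ≤ nd x) : mn K x ≤ 1 / (2 * d) := by
  rw [mn, div_le_div_iff₀ (zero_lt_one.trans_le (le_max_left _ _)) (by positivity), one_mul]
  refine le_trans ?_ (le_max_right _ _)
  nlinarith [mul_le_mul_of_nonneg_left h hK]

theorem le_mn {K x y : ℝ} (h1 : y ≤ K) (h2 : 2 * nd x * y ≤ 1) (hK : 0 ≤ K) : y ≤ mn K x := by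
  rw [mn, le_div_iff₀ (zero_lt_one.trans_le (le_max_left _ _))]
  rcases max_cases (1 : ℝ) (2 * K * nd x) with h | h
  · rw [h.1]
    linarith
  · rw [h.1]
    nlinarith [mul_le_mul_of_nonneg_left h2 hK]

theorem two_nd_mn (K x : ℝ) : 2 * nd x * mn K x ≤ 1 := by
  rw [mn, ← mul_div_assoc, div_le_one (zero_lt_one.trans_le (le_max_left _ _))]
  refine le_trans (le_of_eq ?_) (le_max_right _ _)
  ring

theorem mn_mono {K K' : ℝ} (hK : 0 ≤ K) (h : K ≤ K') (x : ℝ) : mn K x ≤ mn K' x :=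
  le_mn ((mn_le hK x).trans h) (two_nd_mn K x) (hK.trans h)

theorem mn_neg (K x : ℝ) : mn K (-x) = mn K x := by rw [mn, mn, nd_neg]

/-- geometric sums -/
theorem geo (x : ℝ) (a b : ℕ) {K : ℝ} (hK : ((b - a : ℕ) : ℝ) ≤ K) :
    ‖∑ n ∈ Ioc a b, ee (x * n)‖ ≤ mn K x := by
  refine le_mn ((norm_sum_le _ _).trans ?_) ?_ ((Nat.cast_nonneg _).trans hK)
  · simpa [norm_ee] using hK
  rcases le_total b a with h | h
  · simp [Ioc_eq_empty_of_le h]
  have h1 : (ee x - 1) * ∑ n ∈ Ioc a b, ee (x * n) = ee (x * (b + 1 : ℕ)) - ee (x * (a + 1 : ℕ)) := by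
    induction b, h using Nat.le_induction with
    | base => simp
    | succ b hb ih =>
      rw [← insert_Ioc_right_eq_Ioc_add_one hb, sum_insert (by simp), mul_add,
        ih (le_trans (by exact_mod_cast Nat.sub_le_sub_right (Nat.le_succ b) a) hK)]
      simp only [ee_pow]
      ring
  have h2 := congrArg norm h1
  rw [norm_mul] at h2
  have h3 := norm_sub_le (ee (x * (b + 1 : ℕ))) (ee (x * (a + 1 : ℕ)))
  rw [norm_ee, norm_ee] at h3
  nlinarith [nd_le_norm x, norm_nonneg (∑ n ∈ Ioc a b, ee (x * n))]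

/-- partial summation -/
theorem abel (f w : ℕ → ℂ) {a b : ℕ} {E : ℝ} (hab : a ≤ b)
    (h : ∀ c, a ≤ c → c ≤ b → ‖∑ n ∈ Ioc a c, f n‖ ≤ E) :
    ‖∑ n ∈ Ioc a b, f n * w n‖ ≤ E * (‖w b‖ + ∑ n ∈ Ico a b, ‖w (n + 1) - w n‖) := by
  have h1 : ∑ n ∈ Ioc a b, f n * w n = (∑ n ∈ Ioc a b, f n) * w b -
      ∑ n ∈ Ico a b, (∑ k ∈ Ioc a n, f k) * (w (n + 1) - w n) := by
    clear h
    induction b, hab using Nat.le_induction with
    | base => simp
    | succ b hb ih =>
      rw [← insert_Ioc_right_eq_Ioc_add_one hb, sum_insert (by simp), sum_insert (by simp), ih,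
        sum_Ico_succ_top hb]
      ring
  rw [h1, mul_add, mul_sum]
  refine (norm_sub_le _ _).trans (add_le_add ?_ ((norm_sum_le _ _).trans (sum_le_sum fun n hn => ?_)))
  · rw [norm_mul]
    exact mul_le_mul_of_nonneg_right (h b hab le_rfl) (norm_nonneg _)
  · rw [norm_mul]
    exact mul_le_mul_of_nonneg_right (h n (mem_Ico.1 hn).1 (mem_Ico.1 hn).2.le) (norm_nonneg _)

theorem norm_La (n : ℕ) : ‖La n‖ = vonMangoldt n := by
  rw [La, Complex.norm_real, Real.norm_of_nonneg vonMangoldt_nonneg]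

theorem lam_le {n M : ℕ} (h : n ≤ M) : vonMangoldt n ≤ Real.log M := by
  rcases Nat.eq_zero_or_pos n with rfl | hn
  · simpa using Real.log_natCast_nonneg M
  · exact vonMangoldt_le_log.trans (Real.log_le_log (by exact_mod_cast hn) (by exact_mod_cast h))

theorem card_rs (q : ℕ) : (rs q).card = q.totient := rfl

theorem norm_mf_le (q : ℕ) : ‖mf q‖ ≤ 1 / (q.totient : ℝ) := by
  rw [mf, norm_div, Complex.norm_natCast, Complex.norm_intCast]
  gcongr
  exact_mod_cast abs_moebius_le_one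

theorem ev_log (C : ℝ) : ∀ᶠ M : ℕ in atTop, C ≤ Real.log M :=
  (Real.tendsto_log_atTop.comp tendsto_natCast_atTop_atTop).eventually_ge_atTop C

/-- powers are small against `exp (c √L)` -/
theorem ev_exp (C : ℝ) (a : ℕ) {c : ℝ} (hc : 0 < c) :
    ∀ᶠ M : ℕ in atTop, C * Real.log M ^ a ≤ Real.exp (c * √(Real.log M)) := by
  have h1 : Tendsto (fun M : ℕ => √(Real.log M)) atTop atTop :=
    Real.tendsto_sqrt_atTop.comp (Real.tendsto_log_atTop.comp tendsto_natCast_atTop_atTop)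
  have h2 := (tendsto_exp_mul_div_rpow_atTop (2 * a : ℕ) c hc).comp h1
  filter_upwards [h2.eventually_ge_atTop C, ev_log 1] with M h hM
  have h3 : 0 < √(Real.log M) := Real.sqrt_pos.2 (by linarith)
  simp only [Function.comp] at h
  rwa [Real.rpow_natCast, pow_mul, Real.sq_sqrt (by linarith), le_div_iff₀ (by positivity)] at h

theorem ev_pow (C : ℝ) (a : ℕ) : ∀ᶠ M : ℕ in atTop, C * Real.log M ^ a ≤ √M := by
  filter_upwards [ev_exp C a (c := 1 / 2) (by norm_num), ev_log 1, eventually_gt_atTop 0]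
    with M h hM h0
  refine h.trans ?_
  have h1 : √(Real.log M) ≤ Real.log M := by
    rw [Real.sqrt_le_left (by linarith)]
    nlinarith
  rw [Real.sqrt_eq_rpow (M : ℝ), Real.rpow_def_of_pos (by exact_mod_cast h0)]
  exact Real.exp_le_exp.2 (by linarith)

/-- a window of length at least `M / L ^ K` is longer than every power of `L` -/
theorem ev_win (C : ℝ) (a K : ℕ) : ∀ᶠ M : ℕ in atTop, ∀ Z : ℝ, (M : ℝ) ≤ Z * Real.log M ^ K →
    C * Real.log M ^ a ≤ Z ∧ C * Real.log M ^ a * √M ≤ Z := by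
  filter_upwards [ev_pow (max C 0) (a + K), ev_log 1, eventually_gt_atTop 0] with M h hM h0 Z hZ
  have h1 : (1 : ℝ) ≤ √M := Real.one_le_sqrt.2 (by exact_mod_cast h0)
  have h2 : max C 0 * Real.log M ^ a * √M ≤ Z := by
    refine le_of_mul_le_mul_right ?_ (show 0 < Real.log M ^ K by positivity)
    calc _ = max C 0 * Real.log M ^ (a + K) * √M := by ring
      _ ≤ √M * √M := by gcongr
      _ ≤ _ := by rwa [Real.mul_self_sqrt (Nat.cast_nonneg M)]
  have h3 : C * Real.log M ^ a ≤ max C 0 * Real.log M ^ a := by gcongr; exact le_max_left _ _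
  have h4 : 0 ≤ max C 0 * Real.log M ^ a := by positivity
  exact ⟨by nlinarith, le_trans (by gcongr) h2⟩

end Pool.Agent.MP_62c071_al.V
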