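import Pool.Agent.MP_62c071_al.V.Kit

/-! Positivity of the classical trigonometric combination of Dirichlet series. -/

set_option autoImplicit false

namespace Pool.Agent.MP_62c071_al.V

open Finset ArithmeticFunction Filter
open Pool.Agent.MP_c5bf7b_nt.H38 (Ch)

namespace RPos

/-- the twisted value of the character -/
noncomputable def tw {q : ℕ} (χ : Ch q) (t : ℝ) (n : ℕ) : ℂ :=
  χ n * Complex.exp ((-(t * Real.log n) : ℝ) * Complex.I)

/-- the real weight -/
noncomputable def wt (σ : ℝ) (n : ℕ) : ℝ := vonMangoldt n * Real.exp (-(σ * Real.log n))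

theorem wt_nonneg (σ : ℝ) (n : ℕ) : 0 ≤ wt σ n :=
  mul_nonneg vonMangoldt_nonneg (Real.exp_pos _).le

theorem hasSum {q : ℕ} [NeZero q] (χ : Ch q) {σ : ℝ} (hσ : 1 < σ) (t : ℝ) :
    HasSum (fun n => wt σ n * (tw χ t n).re) (LS χ (σ + t * Complex.I)).re := by
  have h := DirichletCharacter.LSeriesSummable_twist_vonMangoldt χ
    (s := σ + t * Complex.I) (by simpa using hσ)
  have e : (fun n : ℕ => (vonMangoldt n : ℂ) * χ n) =
      (fun n : ℕ => χ n) * fun n : ℕ => (vonMangoldt n : ℂ) := by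
    ext n
    simp [mul_comm]
  have h2 := Complex.hasSum_re h.hasSum
  rw [LS, e, LSeries]
  convert h2 using 2 with n
  rcases eq_or_ne n 0 with rfl | hn
  · simp [wt]
  have h3 : (n : ℂ) ^ (-(σ + t * Complex.I : ℂ)) = (Real.exp (-(σ * Real.log n)) : ℝ) *
      Complex.exp ((-(t * Real.log n) : ℝ) * Complex.I) := by
    rw [Complex.cpow_def_of_ne_zero (by exact_mod_cast hn), Complex.ofReal_exp, ← Complex.exp_add,
      ← Complex.natCast_log]
    congr 1
    push_cast
    ring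
  rw [LSeries.term_of_ne_zero hn, div_eq_mul_inv, ← Complex.cpow_neg, h3, ← Complex.re_ofReal_mul]
  congr 1
  simp only [wt, tw, Pi.mul_apply]
  push_cast
  ring

theorem tw_sq {q : ℕ} (χ : Ch q) (t : ℝ) (n : ℕ) : tw (χ ^ 2) (2 * t) n = tw χ t n ^ 2 := by
  rw [tw, tw, mul_pow, MulChar.pow_apply' _ two_ne_zero, ← Complex.exp_nat_mul]
  congr 2
  push_cast
  ring

theorem tw_cases {q : ℕ} [NeZero q] (χ : Ch q) (t : ℝ) (n : ℕ) :
    (tw (1 : Ch q) 0 n = 1 ∧ ‖tw χ t n‖ = 1) ∨ (tw (1 : Ch q) 0 n = 0 ∧ tw χ t n = 0) := by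
  by_cases h : IsUnit (n : ZMod q)
  · refine Or.inl ⟨by simp [tw, MulChar.one_apply h], ?_⟩
    obtain ⟨u, hu⟩ := h
    rw [tw, norm_mul, ← hu, DirichletCharacter.unit_norm_eq_one, Complex.norm_exp_ofReal_mul_I,
      one_mul]
  · exact Or.inr ⟨by simp [tw, MulChar.map_nonunit _ h], by simp [tw, MulChar.map_nonunit _ h]⟩

end RPos

open RPos in
theorem pos : PosS := by
  intro q _ χ σ t hσ
  have h0 := hasSum (1 : Ch q) hσ 0
  have h1 := hasSum χ hσ 0
  simp only [Complex.ofReal_zero, zero_mul, add_zero] at h0 h1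
  refine ⟨(((h0.mul_left 3).add ((hasSum χ hσ t).mul_left 4)).add
    (hasSum (χ ^ 2) hσ (2 * t))).nonneg fun n => ?_, (h0.add h1).nonneg fun n => ?_⟩
  · rw [tw_sq]
    rcases tw_cases χ t n with ⟨a, b⟩ | ⟨a, b⟩
    · have e := Complex.sq_norm (tw χ t n)
      rw [b, Complex.normSq_apply] at e
      rw [a, sq, Complex.mul_re, Complex.one_re]
      have := mul_nonneg (wt_nonneg σ n) (sq_nonneg (1 + (tw χ t n).re))
      have e2 : (tw χ t n).im * (tw χ t n).im = 1 - (tw χ t n).re * (tw χ t n).re := by linarith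
      rw [e2]
      linarith
    · simp [a, b]
  · rcases tw_cases χ 0 n with ⟨a, b⟩ | ⟨a, b⟩
    · have e := Complex.abs_re_le_norm (tw χ 0 n)
      rw [b, abs_le] at e
      rw [a, Complex.one_re, ← mul_add]
      exact mul_nonneg (wt_nonneg σ n) (by linarith [e.1])
    · simp [a, b]

end Pool.Agent.MP_62c071_al.V
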