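import Pool.Agent.MP_62c071_al.V.Kit

/-! Row Vau: the bound of Vaughan for exponential sums over primes. -/

set_option autoImplicit false

namespace Pool.Agent.MP_62c071_al.V

open Finset ArithmeticFunction

namespace RVau

theorem lg_mono {m n : ℕ} (h : m ≤ n) : Real.log m ≤ Real.log n := by
  rcases Nat.eq_zero_or_pos m with rfl | hm
  · simpa using Real.log_natCast_nonneg n
  · exact Real.log_le_log (by exact_mod_cast hm) (by exact_mod_cast h)

theorem g0 (α : ℝ) (d a : ℕ) {c X : ℕ} (hc : c ≤ X / d) :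
    ‖∑ m ∈ Ioc a c, ee (α * ((d * m : ℕ) : ℝ))‖ ≤ mn ((X : ℝ) / d) (α * d) := by
  have h := geo (α * d) a c (K := (X : ℝ) / d)
    (le_trans (by exact_mod_cast (Nat.sub_le _ _).trans hc) Nat.cast_div_le)
  simpa only [Nat.cast_mul, mul_assoc] using h

theorem g1 (α : ℝ) (d : ℕ) {X₁ X₂ : ℕ} (h : X₁ ≤ X₂) :
    ‖∑ m ∈ Ioc (X₁ / d) (X₂ / d), (Real.log m : ℂ) * ee (α * ((d * m : ℕ) : ℝ))‖ ≤
      2 * Real.log X₂ * mn ((X₂ : ℝ) / d) (α * d) := by
  have hab : X₁ / d ≤ X₂ / d := Nat.div_le_div_right h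
  have h1 := abel (fun m => ee (α * ((d * m : ℕ) : ℝ))) (fun m => (Real.log m : ℂ)) hab
    fun c _ hc => g0 α d _ hc
  have h2 : ∑ n ∈ Ico (X₁ / d) (X₂ / d),
      ‖((Real.log ((n + 1 : ℕ) : ℝ) : ℝ) : ℂ) - ((Real.log (n : ℝ) : ℝ) : ℂ)‖ =
      Real.log ((X₂ / d : ℕ) : ℝ) - Real.log ((X₁ / d : ℕ) : ℝ) := by
    rw [← Finset.sum_Ico_sub (fun n : ℕ => Real.log (n : ℝ)) hab]
    refine sum_congr rfl fun n _ => ?_
    rw [← Complex.ofReal_sub, Complex.norm_real,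
      Real.norm_of_nonneg (sub_nonneg.2 (lg_mono n.le_succ))]
  rw [h2, Complex.norm_real, Real.norm_of_nonneg (Real.log_natCast_nonneg _)] at h1
  simp only [mul_comm (ee _)] at h1
  refine h1.trans ?_
  rw [mul_comm]
  refine mul_le_mul_of_nonneg_right ?_ (mn_nonneg (by positivity) _)
  have h3 := lg_mono (Nat.div_le_self X₂ d)
  have h4 := Real.log_natCast_nonneg (X₁ / d)
  linarith

theorem nmu (m : ℕ) : ‖((moebius m : ℤ) : ℂ)‖ ≤ 1 := by
  rw [Complex.norm_intCast]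
  exact_mod_cast abs_moebius_le_one

end RVau

open RVau in
theorem vauOf : VauOf := by
  rintro hv ⟨C1, hC1, h1⟩ ⟨C2, hC2, h2⟩
  refine ⟨6 * C1 + C2, by linarith, fun α h q U X₁ X₂ ha hU hUX hq hU2 => ?_⟩
  obtain ⟨c, b, hc, hb, hb0, hid⟩ := hv U hU
  have hL : 0 ≤ Real.log X₂ := Real.log_natCast_nonneg _
  set L := Real.log X₂ with hLd
  set P : ℝ := (U : ℝ) ^ 2 + X₂ / √q + X₂ / √U + √(X₂ * q) with hP
  have hP0 : 0 ≤ P := by positivity
  rcases lt_or_ge X₂ X₁ with hX | hX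
  · rw [Ioc_eq_empty (by omega), sum_empty, norm_zero]
    positivity
  have hq1 : (1 : ℝ) ≤ q := by exact_mod_cast ha.1
  have hT : ∀ D : ℕ, 1 ≤ D → D ≤ U ^ 2 →
      ∑ d ∈ Icc 1 D, mn ((X₂ : ℝ) / d) (α * d) ≤ 2 * C1 * P * (1 + L) := fun D hD hDU => by
    refine (h1 α X₂ h q D ha (by positivity) hD).trans ?_
    have e1 : (X₂ : ℝ) / q ≤ X₂ / √q := by
      refine div_le_div_of_nonneg_left (by positivity) (by positivity) ?_
      rw [Real.sqrt_le_left (by positivity)]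
      nlinarith
    have e2 : (q : ℝ) ≤ √(X₂ * q) := by
      refine Real.le_sqrt_of_sq_le ?_
      have : (q : ℝ) ≤ X₂ := by exact_mod_cast hq
      nlinarith
    have e3 : (D : ℝ) ≤ (U : ℝ) ^ 2 := by exact_mod_cast hDU
    have e4 : (0 : ℝ) ≤ X₂ / √U := by positivity
    have e5 := lg_mono hq
    have e6 := lg_mono (hDU.trans hU2)
    have e7 := Real.log_natCast_nonneg q
    have e8 := Real.log_natCast_nonneg D
    calc C1 * (X₂ / q + D + q) * (1 + Real.log q + Real.log D)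
        ≤ C1 * P * (2 * (1 + L)) := by
          gcongr
          · rw [hP]; linarith
          · linarith
      _ = _ := by ring
  have a1 : ‖∑ d ∈ Icc 1 U, ((moebius d : ℤ) : ℂ) * ∑ m ∈ Ioc (X₁ / d) (X₂ / d),
      (Real.log m : ℂ) * ee (α * ((d * m : ℕ) : ℝ))‖ ≤ 2 * L * (2 * C1 * P * (1 + L)) := by
    refine (norm_sum_le _ _).trans (le_trans ?_
      (mul_le_mul_of_nonneg_left (hT U hU (Nat.le_self_pow two_ne_zero U)) (by positivity)))
    rw [mul_sum]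
    refine sum_le_sum fun d _ => ?_
    rw [norm_mul]
    exact (mul_le_of_le_one_left (norm_nonneg _) (nmu d)).trans (g1 α d hX)
  have a2 : ‖∑ d ∈ Icc 1 (U ^ 2), (c d : ℂ) * ∑ m ∈ Ioc (X₁ / d) (X₂ / d),
      ee (α * ((d * m : ℕ) : ℝ))‖ ≤ L * (2 * C1 * P * (1 + L)) := by
    refine (norm_sum_le _ _).trans (le_trans ?_
      (mul_le_mul_of_nonneg_left (hT _ (Nat.one_le_pow _ _ hU) le_rfl) hL))
    rw [mul_sum]
    refine sum_le_sum fun d hd => ?_
    rw [norm_mul, Complex.norm_real, Real.norm_eq_abs]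
    exact mul_le_mul ((hc d).trans (lg_mono ((mem_Icc.1 hd).2.trans hU2))) (g0 α d _ le_rfl)
      (norm_nonneg _) hL
  have hL1 : (0 : ℝ) < 1 + L := by positivity
  have a3 : ‖∑ m ∈ Ioc U X₂, ((moebius m : ℤ) : ℂ) * ∑ k ∈ Ioc (X₁ / m) (X₂ / m),
      (b k : ℂ) * ee (α * ((m * k : ℕ) : ℝ))‖ ≤ (1 + L) * (C2 * (1 + L) ^ 2 * P) := by
    have e := h2 α h q U X₁ X₂ (fun m => ((moebius m : ℤ) : ℂ))
      (fun k => ((if k ≤ X₂ then b k / (1 + L) else 0 : ℝ) : ℂ)) ha hU hq nmu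
      (fun k => by
        rw [Complex.norm_real, Real.norm_eq_abs]
        split_ifs with hk
        · rw [abs_div, abs_of_pos hL1, div_le_one hL1]
          linarith [hb k, lg_mono hk]
        · simp)
      (fun k hk => by simp [hb0 k hk])
    have e2 : ∑ m ∈ Ioc U X₂, ((moebius m : ℤ) : ℂ) * ∑ k ∈ Ioc (X₁ / m) (X₂ / m),
        (b k : ℂ) * ee (α * ((m * k : ℕ) : ℝ)) = ((1 + L : ℝ) : ℂ) * Bi α
        (fun m => ((moebius m : ℤ) : ℂ))
        (fun k => ((if k ≤ X₂ then b k / (1 + L) else 0 : ℝ) : ℂ)) U X₂ X₁ X₂ := by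
      rw [Bi, mul_sum]
      refine sum_congr rfl fun m _ => ?_
      rw [mul_left_comm, mul_sum (a := ((1 + L : ℝ) : ℂ))]
      refine congrArg _ (sum_congr rfl fun k hk => ?_)
      rw [if_pos ((mem_Ioc.1 hk).2.trans (Nat.div_le_self _ _)), ← mul_assoc,
        ← Complex.ofReal_mul, mul_div_cancel₀ _ hL1.ne', Nat.cast_mul]
    rw [e2, norm_mul, Complex.norm_real, Real.norm_of_nonneg hL1.le]
    refine mul_le_mul_of_nonneg_left (e.trans ?_) hL1.le
    refine mul_le_mul_of_nonneg_left ?_ (by positivity)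
    rw [hP]
    nlinarith [sq_nonneg (U : ℝ)]
  rw [hid X₁ X₂ (fun n => ee (α * n)) hUX]
  refine (norm_add_le _ _).trans ((add_le_add ((norm_sub_le _ _).trans (add_le_add a1 a2)) a3).trans ?_)
  have e : 0 ≤ C1 * P * (1 + L) * (1 + L + L ^ 2) := by positivity
  nlinarith

end Pool.Agent.MP_62c071_al.V
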