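import Pool.Agent.MP_c5bf7b_nt.H38.SpecA

/-! Statements of the rows for three primes in windows. -/

set_option autoImplicit false

namespace Pool.Agent.MP_62c071_al.V

open Finset ArithmeticFunction Filter
open Pool.Agent.MP_c5bf7b_nt.H38 (Ch Phi Lh PhiS ExS GfS CntS EfS ZetaS SiegS)

/-- the additive character -/
noncomputable def ee (x : ℝ) : ℂ := Complex.exp (2 * Real.pi * x * Complex.I)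

/-- distance to the nearest integer -/
noncomputable def nd (x : ℝ) : ℝ := |x - round x|

/-- the smaller one of `K` and `1 / (2 * nd x)` -/
noncomputable def mn (K x : ℝ) : ℝ := K / max 1 (2 * K * nd x)

/-- the function of von Mangoldt with complex values -/
noncomputable def La (n : ℕ) : ℂ := ((vonMangoldt n : ℝ) : ℂ)

/-- `μ q / φ q` -/
noncomputable def mf (q : ℕ) : ℂ := ((moebius q : ℤ) : ℂ) / (q.totient : ℂ)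

/-- the reduced residues -/
def rs (q : ℕ) : Finset ℕ := (range q).filter fun r => q.Coprime r

/-- the model of the primes -/
noncomputable def Fm (Q n : ℕ) : ℂ := ∑ q ∈ Icc 1 Q, mf q * ∑ r ∈ rs q, ee (-(n * r / q))

/-- `h / q` approximates `α` -/
def Ap (α : ℝ) (h : ℤ) (q : ℕ) : Prop :=
  1 ≤ q ∧ h.natAbs.Coprime q ∧ |α - h / q| ≤ 1 / (q : ℝ) ^ 2

/-- the Dirichlet series of `Λ χ` -/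
noncomputable def LS {q : ℕ} (χ : Ch q) (s : ℂ) : ℂ :=
  LSeries (fun n => (vonMangoldt n : ℂ) * χ n) s

open Classical in
/-- the error in the prime number theorem for a character -/
noncomputable def Er {q : ℕ} (χ : Ch q) (N : ℕ) : ℝ :=
  ‖∑ n ∈ Icc 1 N, La n * χ n - (if χ = 1 then (N : ℂ) else 0)‖

/-! ### zeros and the theorem of Siegel and Walfisz -/

open Classical in
def ZlS : Prop :=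
  ∃ C : ℝ, 1 ≤ C ∧ ∀ (q : ℕ) [NeZero q] (χ : Ch q) (s : ℂ) (Y : Finset ℂ), 2 ≤ q → 1 < s.re →
    s.re ≤ 2 → |s.im| ≤ (q : ℝ) ^ 3 - 1 →
    (∀ ρ ∈ Y, Phi χ ρ = 0 ∧ 2 / 3 ≤ ρ.re ∧ |ρ.im| ≤ (q : ℝ) ^ 3) →
    (LS χ s).re ≤ (if χ = 1 then (1 / (s - 1)).re else 0) - ∑ ρ ∈ Y, (1 / (s - ρ)).re +
      C * Real.log q ^ 2

def PosS : Prop :=
  ∀ (q : ℕ) [NeZero q] (χ : Ch q) (σ t : ℝ), 1 < σ →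
    0 ≤ 3 * (LS (1 : Ch q) σ).re + 4 * (LS χ (σ + t * Complex.I)).re +
      (LS (χ ^ 2) (σ + (2 * t : ℝ) * Complex.I)).re ∧
    0 ≤ (LS (1 : Ch q) σ).re + (LS χ σ).re

def Zf1S : Prop :=
  ∃ c : ℝ, 0 < c ∧ ∀ (q : ℕ) [NeZero q] (χ : Ch q) (ρ : ℂ), 2 ≤ q → χ ≠ 1 → Phi χ ρ = 0 →
    2 / 3 ≤ ρ.re → |ρ.im| ≤ q → (χ ^ 2 ≠ 1 ∨ ρ.im ≠ 0) → c / Real.log q ^ 2 ≤ 1 - ρ.re

def ZfS : Prop :=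
  ∀ ε : ℝ, 0 < ε → ∃ c : ℝ, 0 < c ∧ ∀ (q Q : ℕ) [NeZero q] [NeZero Q] (hq : q ∣ Q) (χ : Ch q)
    (ρ : ℂ), Phi (DirichletCharacter.changeLevel hq χ) ρ = 0 → 2 / 3 ≤ ρ.re →
    c * ((q : ℝ) * (|ρ.im| + 2)) ^ (-ε) ≤ 1 - ρ.re

/-- the test function of the explicit formula -/
noncomputable def kt (l U : ℝ) (T : ℝ → ℝ) (u : ℝ) : ℂ := ((Real.exp (l * (u - U)) * T u : ℝ) : ℂ)

def TestS : Prop :=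
  ∀ l U η : ℝ, 0 < l → 0 < η → 2 * η ≤ U → ∃ T : ℝ → ℝ, Continuous T ∧
    (∀ u, 0 ≤ T u ∧ T u ≤ 1) ∧ (∀ u, u ≤ 0 → T u = 0) ∧ (∀ u, U ≤ u → T u = 0) ∧
    (∀ u, η ≤ u → u ≤ U - η → T u = 1) ∧
    (∀ z : ℂ, z.re < l → ‖Lh (kt l U T) z‖ ≤ 4 * Real.exp (-(U * z.re)) / (η * ‖z - l‖ ^ 2)) ∧
    ‖Lh (kt l U T) 0 - 1 / l‖ ≤ 2 * η + Real.exp (-(l * U)) / l

def SmS : Prop :=
  ∃ C : ℝ, 1 ≤ C ∧ ∃ q₀ : ℕ, ∀ (Q : ℕ) [NeZero Q] (χ : Ch Q) (N : ℕ) (κ δ T : ℝ), q₀ ≤ Q →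
    Q ≤ N → 0 < κ → κ ≤ 1 / 2 → 1 ≤ κ * N → δ ≤ 3 / 10 → 1 ≤ T →
    (∀ ρ : ℂ, Phi χ ρ = 0 → 2 / 3 ≤ ρ.re → |ρ.im| ≤ T → δ ≤ 1 - ρ.re) →
    Er χ N ≤ C * N * (κ * Real.log N + Real.log N ^ 5 / κ * (Real.exp (-(δ * Real.log N)) +
      1 / √T + Real.exp (Real.log N / Real.log Q - 2 * Real.log Q)))

def NcS : Prop :=
  ∀ q N : ℕ, 1 ≤ q →
    ∑ n ∈ (Icc 1 N).filter (fun n => ¬ n.Coprime q), vonMangoldt n ≤ q * Real.log N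

def Sw1S : Prop :=
  ∀ A B : ℕ, ∀ᶠ N : ℕ in atTop, ∀ (q : ℕ) [NeZero q] (χ : Ch q), (q : ℝ) ≤ Real.log N ^ B →
    Er χ N ≤ N / Real.log N ^ A

def SwuS : Prop :=
  ∀ A B : ℕ, ∀ᶠ M : ℕ in atTop, ∀ (q : ℕ) [NeZero q] (χ : Ch q) (N : ℕ),
    (q : ℝ) ≤ Real.log M ^ B → N ≤ M → Er χ N ≤ M / Real.log M ^ A

def RamS : Prop :=
  ∀ (q : ℕ) (h : ℤ), 1 ≤ q → h.natAbs.Coprime q →
    ∑ r ∈ rs q, ee (r * h / q) = ((moebius q : ℤ) : ℂ)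

def ChS : Prop :=
  ∀ (q : ℕ) [NeZero q] (h : ℤ), h.natAbs.Coprime q → ∃ t : Ch q → ℂ, ∑ χ, ‖t χ‖ ≤ q ∧
    t 1 = mf q ∧ ∀ n : ℕ, n.Coprime q → ee (n * h / q) = ∑ χ, t χ * χ n

def Sw2S : Prop :=
  ∀ A B : ℕ, ∀ᶠ M : ℕ in atTop, ∀ (q : ℕ) (h : ℤ) (a b : ℕ), 1 ≤ q →
    (q : ℝ) ≤ Real.log M ^ B → h.natAbs.Coprime q → b ≤ M →
    ‖∑ n ∈ Ioc a b, (La n * ee (n * h / q) - mf q)‖ ≤ M / Real.log M ^ A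

/-! ### exponential sums -/

def MinS : Prop :=
  ∃ C : ℝ, 1 ≤ C ∧ ∀ (α θ K : ℝ) (h : ℤ) (q a H : ℕ), Ap α h q → 0 ≤ K →
    ∑ r ∈ Ioc a (a + H), mn K (α * r + θ) ≤ C * (H / q + 1) * (K + q * (1 + Real.log q))

def T1S : Prop :=
  ∃ C : ℝ, 1 ≤ C ∧ ∀ (α X : ℝ) (h : ℤ) (q D : ℕ), Ap α h q → 0 ≤ X → 1 ≤ D →
    ∑ d ∈ Icc 1 D, mn (X / d) (α * d) ≤ C * (X / q + D + q) * (1 + Real.log q + Real.log D)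

/-- a bilinear sum -/
noncomputable def Bi (α : ℝ) (a b : ℕ → ℂ) (K K' X₁ X₂ : ℕ) : ℂ :=
  ∑ m ∈ Ioc K K', a m * ∑ k ∈ Ioc (X₁ / m) (X₂ / m), b k * ee (α * (m * k))

def T2S : Prop :=
  ∃ C : ℝ, 1 ≤ C ∧ ∀ (α : ℝ) (h : ℤ) (q K K' X₁ X₂ : ℕ) (a b : ℕ → ℂ), Ap α h q → 1 ≤ K →
    K' ≤ 2 * K → (∀ m, ‖a m‖ ≤ 1) → (∀ k, ‖b k‖ ≤ 1) →
    ‖Bi α a b K K' X₁ X₂‖ ^ 2 ≤ C * X₂ * (X₂ / (K * q) + 1) * (K + q * (1 + Real.log q))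

def TdS : Prop :=
  ∃ C : ℝ, 1 ≤ C ∧ ∀ (α : ℝ) (h : ℤ) (q U X₁ X₂ : ℕ) (a b : ℕ → ℂ), Ap α h q → 1 ≤ U →
    q ≤ X₂ → (∀ m, ‖a m‖ ≤ 1) → (∀ k, ‖b k‖ ≤ 1) → (∀ k, k ≤ U → b k = 0) →
    ‖Bi α a b U X₂ X₁ X₂‖ ≤ C * (1 + Real.log X₂) ^ 2 * (X₂ / √q + X₂ / √U + √(X₂ * q))

def VidS : Prop :=
  ∀ U : ℕ, 1 ≤ U → ∃ c b : ℕ → ℝ, (∀ d, |c d| ≤ Real.log d) ∧ (∀ k, |b k| ≤ Real.log k) ∧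
    (∀ k, k ≤ U → b k = 0) ∧ ∀ (X₁ X₂ : ℕ) (F : ℕ → ℂ), U ≤ X₁ →
    ∑ n ∈ Ioc X₁ X₂, La n * F n =
      ∑ d ∈ Icc 1 U, ((moebius d : ℤ) : ℂ) *
          ∑ m ∈ Ioc (X₁ / d) (X₂ / d), (Real.log m : ℂ) * F (d * m) -
        ∑ d ∈ Icc 1 (U ^ 2), (c d : ℂ) * ∑ m ∈ Ioc (X₁ / d) (X₂ / d), F (d * m) +
        ∑ m ∈ Ioc U X₂, ((moebius m : ℤ) : ℂ) * ∑ k ∈ Ioc (X₁ / m) (X₂ / m), (b k : ℂ) * F (m * k)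

def VauS : Prop :=
  ∃ C : ℝ, 1 ≤ C ∧ ∀ (α : ℝ) (h : ℤ) (q U X₁ X₂ : ℕ), Ap α h q → 1 ≤ U → U ≤ X₁ → q ≤ X₂ →
    U ^ 2 ≤ X₂ → ‖∑ n ∈ Ioc X₁ X₂, La n * ee (α * n)‖ ≤
      C * (1 + Real.log X₂) ^ 3 * ((U : ℝ) ^ 2 + X₂ / √q + X₂ / √U + √(X₂ * q))

def MoS : Prop :=
  ∀ (α : ℝ) (h : ℤ) (q Q R a b : ℕ), 1 ≤ q → h.natAbs.Coprime q → |α - h / q| ≤ 1 / (q * R) →
    2 * Q ≤ R → ‖∑ n ∈ Ioc a b, Fm Q n * ee (α * n) -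
      (if q ≤ Q then mf q else 0) * ∑ n ∈ Ioc a b, ee ((α - h / q) * n)‖ ≤ q * (Q : ℝ) ^ 2

def TotS : Prop := ∀ q : ℕ, q ≤ 2 * q.totient ^ 2

def EulS : Prop := ∀ Q : ℕ, ∑ q ∈ Icc 1 Q, ‖mf q‖ ^ 2 ≤ 17 / 5

def SingS : Prop :=
  ∀ M Q : ℕ, Odd M → 2 ≤ Q →
    3 / 5 ≤ (∑ q ∈ Icc 1 Q, mf q ^ 3 * ∑ r ∈ rs q, ee (-(M * r / q))).re

def MajS : Prop :=
  ∀ K : ℕ, ∀ᶠ M : ℕ in atTop, ∀ (Z q : ℕ) (α : ℝ) (h : ℤ), (M : ℝ) ≤ Z * Real.log M ^ K →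
    2 * Z ≤ M → 1 ≤ q → (q : ℝ) ≤ Real.log M ^ 40 → h.natAbs.Coprime q →
    |α - h / q| ≤ Real.log M ^ 40 / Z →
    ‖∑ n ∈ Ioc Z (2 * Z), La n * ee (α * n) -
      mf q * ∑ n ∈ Ioc Z (2 * Z), ee ((α - h / q) * n)‖ ≤ Z / Real.log M ^ 4

def MnrS : Prop :=
  ∀ K : ℕ, ∀ᶠ M : ℕ in atTop, ∀ (Z q : ℕ) (α : ℝ) (h : ℤ), (M : ℝ) ≤ Z * Real.log M ^ K →
    2 * Z ≤ M → Ap α h q → Real.log M ^ 40 ≤ q → (q : ℝ) ≤ Z / Real.log M ^ 40 →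
    ‖∑ n ∈ Ioc Z (2 * Z), La n * ee (α * n)‖ ≤ Z / Real.log M ^ 4

def CloseS : Prop :=
  ∀ K : ℕ, ∀ᶠ M : ℕ in atTop, ∀ (Z : ℕ) (α : ℝ), (M : ℝ) ≤ Z * Real.log M ^ K → 2 * Z ≤ M →
    ‖∑ n ∈ Ioc Z (2 * Z), (La n - Fm ⌊Real.log M ^ 8⌋₊ n) * ee (α * n)‖ ≤ Z / Real.log M ^ 3

/-! ### three primes -/

def ParS : Prop :=
  ∀ (f g h : ℕ → ℂ) (A B C : Finset ℕ) (M : ℕ) (S : ℝ),
    (∀ α : ℝ, ‖∑ a ∈ A, f a * ee (α * a)‖ ≤ S) →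
    (∀ a ∈ A, ∀ b ∈ B, a + b ≤ M ∧ M - a - b ∈ C) →
    ‖∑ a ∈ A, ∑ b ∈ B, f a * g b * h (M - a - b)‖ ≤
      S * √(∑ b ∈ B, ‖g b‖ ^ 2) * √(∑ c ∈ C, ‖h c‖ ^ 2)

def MainS : Prop :=
  ∀ K : ℕ, ∀ᶠ M : ℕ in atTop, Odd M → ∀ Y Z Q : ℕ, (M : ℝ) ≤ Z * Real.log M ^ K → Z ≤ Y →
    4 * Y < M → 2 ≤ Q → (Q : ℝ) ≤ Real.log M ^ 8 →
    (Y : ℝ) * Z / 2 ≤
      (∑ a ∈ Ioc Z (2 * Z), ∑ b ∈ Ioc Y (2 * Y), Fm Q a * La b * La (M - a - b)).re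

/-- three primes in the windows -/
def Tri (M Y Z : ℕ) : Prop :=
  ∃ a ∈ Ioc Z (2 * Z), ∃ b ∈ Ioc Y (2 * Y), a.Prime ∧ b.Prime ∧ (M - a - b).Prime

def PpS : Prop :=
  ∀ M Y Z : ℕ, Z ≤ Y → 4 * Y < M → ¬ Tri M Y Z →
    ∑ a ∈ Ioc Z (2 * Z), ∑ b ∈ Ioc Y (2 * Y),
      vonMangoldt a * vonMangoldt b * vonMangoldt (M - a - b) ≤ 6 * Y * √M * Real.log M ^ 3

def ThreeS : Prop :=
  ∀ K : ℕ, ∀ᶠ M : ℕ in atTop, Odd M → ∀ Y Z : ℕ, (M : ℝ) ≤ Z * Real.log M ^ K → Z ≤ Y →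
    4 * Y < M → Tri M Y Z

def V3S : Prop :=
  ∀ᶠ M : ℕ in atTop, Odd M → ∃ p1 p2 p3 : ℕ, p1.Prime ∧ p2.Prime ∧ p3.Prime ∧
    M = p1 + p2 + p3 ∧ M ≤ p1 * Nat.log 2 M ^ 16 ∧ p1 * Nat.log 2 M ^ 16 ≤ 2 * M ∧
    M ≤ p2 * Nat.log 2 M ^ 6 ∧ p2 * Nat.log 2 M ^ 6 ≤ 2 * M

def ZlOf : Prop := PhiS → ExS → GfS → ZlS
def Zf1Of : Prop := PhiS → ZlS → PosS → Zf1S
def ZfOf : Prop := Zf1S → SiegS → ZetaS → ZfS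
def SmOf : Prop := CntS → EfS → TestS → SmS
def Sw1Of : Prop := SmS → ZfS → NcS → Sw1S
def SwuOf : Prop := Sw1S → SwuS
def ChOf : Prop := RamS → ChS
def Sw2Of : Prop := SwuS → ChS → NcS → Sw2S
def T1Of : Prop := MinS → T1S
def T2Of : Prop := MinS → T2S
def TdOf : Prop := T2S → TdS
def VauOf : Prop := VidS → T1S → TdS → VauS
def SingOf : Prop := EulS → SingS
def MajOf : Prop := Sw2S → MajS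
def MnrOf : Prop := VauS → MnrS
def CloseOf : Prop := MajS → MnrS → MoS → TotS → CloseS
def MainOf : Prop := Sw2S → SingS → MainS
def ThreeOf : Prop := CloseS → MainS → ParS → PpS → ThreeS
def V3Of : Prop := ThreeS → V3S

end Pool.Agent.MP_62c071_al.V
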